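import Pool.Agent.Helper35.NI.Near
import Pool.Agent.Helper20.TB.Pair
import Pool.Agent.Helper20.TB.KapU
import Pool.Agent.Helper20.TB.Hs

/-!
# Project FQ (MP_0f6f3f_an), layer NI (near isometry): definitions and the final statement

`ND G I`: the data of a target group: for every node `i` a representation `r i` of `G` by real matrices (irreducible with highest weight a multiple of the `i`-th fundamental
weight, orthonormal basis), the gaps `gap g i` (simple roots of the Cartan projection), the top right and left singular vectors `xR i g`, `xL i g` of `r i g`.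
`A.Sv j C κ L e`: the elements `g` with `gap g i ≤ C` for `i ≠ j`, `L ≤ gap g j` and `κ ≤ |⟪xR j g, e⟫|`. `A.Su j L d e`: the elements `k` with `L ≤ gap k j` and `1 - d ≤ ⟪xL j k, e⟫²`.
`A.Geo j`: the geometry. `ni`: the near isometry for two unitaries `v`, `u` of `L(G)`.
-/

set_option autoImplicit false
set_option linter.unusedSectionVars false
set_option linter.dupNamespace false

open MeasureTheory Filter Topology Matrix
open scoped ComplexConjugate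

namespace Pool.Agent.Helper35.NI

open Pool.Agent.Helper20.TB Pool.Agent.Helper84.NI Pool.Agent.Helper84.GVN Pool.Agent.Helper90.RK Pool.Agent.Helper96.RK

/-- The normalised Gram matrix. -/
noncomputable def gm {m : ℕ} (A : Matrix (Fin m) (Fin m) ℝ) : Matrix (Fin m) (Fin m) ℝ := (hs A)⁻¹ • (Aᵀ * A)

/-- The data. -/
structure ND (G : Type) [Group G] (I : Type) [Fintype I] where
  /-- dimensions -/
  n : I → ℕ
  /-- representations -/
  r : ∀ i, G →* Matrix (Fin (n i)) (Fin (n i)) ℝ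
  /-- gaps -/
  gap : G → I → ℝ
  /-- right singular vectors -/
  xR : ∀ i, G → EuclideanSpace ℝ (Fin (n i))
  /-- left singular vectors -/
  xL : ∀ i, G → EuclideanSpace ℝ (Fin (n i))
  /-- gaps in terms of norms -/
  co : I → I → ℝ
  /-- a constant -/
  C0 : ℝ
  one_le : 1 ≤ C0
  nonneg : ∀ g i, 0 ≤ gap g i
  fin : ∀ N : ℕ, {g | ∀ i, gap g i ≤ N}.Finite
  uR : ∀ i g, ‖xR i g‖ = 1
  uL : ∀ i g, ‖xL i g‖ = 1
  nearR : ∀ i g a b, |gm (r i g) a b - xR i g a * xR i g b| ≤ C0 * Real.exp (-gap g i)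
  nearL : ∀ i g a b, |gm (r i g)ᵀ a b - xL i g a * xL i g b| ≤ C0 * Real.exp (-gap g i)
  lowR : ∀ i g, Real.exp (-(2 * gap g i)) ≤ C0 * (1 - (gm (r i g) * gm (r i g)).trace)
  size : ∀ g l, |gap g l - ∑ m, co l m * Real.log (hs (r m g))| ≤ C0
  upR : ∀ i g, 1 - (gm (r i g) * gm (r i g)).trace ≤ C0 * Real.exp (-(2 * gap g i))

namespace ND

variable {G : Type} [Group G] {I : Type} [Fintype I] (A : ND G I)

/-- The elements for the left factor. -/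
def Sv (j : I) (C κ L : ℝ) (e : EuclideanSpace ℝ (Fin (A.n j))) : Set G :=
  {g | (∀ i, i ≠ j → A.gap g i ≤ C) ∧ L ≤ A.gap g j ∧ κ ≤ |inner ℝ (A.xR j g) e|}

/-- The elements for the right factor. -/
def Su (j : I) (L d : ℝ) (e : EuclideanSpace ℝ (Fin (A.n j))) : Set G := {k | L ≤ A.gap k j ∧ 1 - d ≤ (inner ℝ (A.xL j k) e) ^ 2}

/-- The geometry at the node `j`. `R1` is the set of the `r` without cancellation in `g r` and in `r k`. -/
def Geo (j : I) : Prop := ∀ C κ : ℝ, 0 ≤ C → 0 < κ → ∃ (L d c C' : ℝ) (R0 : Finset G), 0 < d ∧ 0 < c ∧ 0 ≤ C' ∧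
  ∀ e : EuclideanSpace ℝ (Fin (A.n j)), ‖e‖ = 1 → ∃ R1 : Set G,
    (∀ r g k, g ∈ A.Sv j C κ L e → g * r ∈ A.Sv j C κ L e → k ∈ A.Su j L d e → r⁻¹ * k ∈ A.Su j L d e → r ∈ R1 ∨ r⁻¹ ∈ R1 ∨ r ∈ R0) ∧
    (∀ g ∈ A.Sv j C κ L e, ∀ r ∈ R1, ∀ i, c * (hs (A.r i g) * hs (A.r i r)) ≤ hs (A.r i (g * r))) ∧
    (∀ r ∈ R1, ∀ k ∈ A.Su j L d e, ∀ i, c * (hs (A.r i r) * hs (A.r i k)) ≤ hs (A.r i (r * k))) ∧
    (∀ r ∈ R1, ∀ i, i ≠ j → A.gap r i ≤ C') ∧
    (∀ g ∈ A.Sv j C κ L e, ∀ k ∈ A.Su j L d e, ∀ i, i ≠ j → |A.gap (g * k) i - A.gap k i| ≤ C')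

/-- **Near isometry.** The constants are chosen in this order: `δV`, then (after `C`, `κ`) `δU` and `d`, then (after the window `CU`) `L` and `C'`. -/
def NI (j : I) : Prop := ∀ ε : ℝ, 0 < ε → ∃ δV : ℝ, 0 < δV ∧ ∀ C κ : ℝ, 0 ≤ C → 0 < κ → ∃ δU d : ℝ, 0 < δU ∧ 0 < d ∧ ∀ CU : ℝ, 0 ≤ CU → ∃ L C' : ℝ, 0 ≤ C' ∧
  ∀ e : EuclideanSpace ℝ (Fin (A.n j)), ‖e‖ = 1 → ∀ s : I → ℝ, ∀ v u : L2 G ≃ₗᵢ[ℂ] L2 G, CommR v → CommR u →
    ‖ind ℂ (A.Sv j C κ L e)ᶜ (v (dl 1))‖ ≤ δV →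
    ‖ind ℂ ({k | k ∈ A.Su j L d e ∧ ∀ i, i ≠ j → |A.gap k i - s i| ≤ CU})ᶜ (u (dl 1))‖ ≤ δU →
    ‖ind ℂ {p | ∃ i, i ≠ j ∧ C' < |A.gap p i - s i|} (v (u (dl 1)))‖ ≤ ε

end ND

end Pool.Agent.Helper35.NI
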