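import Pool.Agent.Helper20.TB.Core

/-!
# Project FQ (MP_0f6f3f_an), layer NI: the weighted Bessel norm of kernels on a group

As in `Helper20/TB/Core.lean`, but with the `ℓ²` norm of `e c` in place of the supremum of `e`: `BN2 F B` if
`(∑_r |∑_g e(g) F(g, r) conj (c g) c(g r)|²)^(1/2) ≤ B (∑_g |e(g) c(g)|²)^(1/2)` for all contractions `c` of finite support and all `e`.
`bn2_schwartz`: smooth functions of bilinear expressions of bounded functions have finite norm.
-/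

set_option autoImplicit false
set_option linter.unusedSectionVars false

open MeasureTheory Filter Topology
open scoped ComplexConjugate FourierTransform SchwartzMap

namespace Pool.Agent.Helper35.NI

open Pool.Agent.Helper20.TB

section Basic

variable {G : Type} [Group G]

/-- The `ℓ²` norm of `e c`. -/
noncomputable def nc (c : G →₀ ℂ) (e : G → ℂ) : ℝ := √(∑ g ∈ c.support, ‖e g * c g‖ ^ 2)

theorem nc_nonneg (c : G →₀ ℂ) (e : G → ℂ) : 0 ≤ nc c e := Real.sqrt_nonneg _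

theorem nc_le {c : G →₀ ℂ} {e e' : G → ℂ} {A : ℝ} (hA : 0 ≤ A) (h : ∀ g, ‖e g‖ ≤ A * ‖e' g‖) : nc c e ≤ A * nc c e' := by
  unfold nc
  have e1 : A * √(∑ g ∈ c.support, ‖e' g * c g‖ ^ 2) = √(∑ g ∈ c.support, (A * ‖e' g‖ * ‖c g‖) ^ 2) := by
    conv_lhs => rw [← Real.sqrt_sq hA]
    rw [← Real.sqrt_mul (sq_nonneg A), Finset.mul_sum]
    congr 1
    refine Finset.sum_congr rfl fun g _ => ?_
    rw [norm_mul]
    ring
  rw [e1]
  refine Real.sqrt_le_sqrt (Finset.sum_le_sum fun g _ => ?_)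
  rw [norm_mul]
  gcongr
  exact h g

theorem nc_le_one {c : G →₀ ℂ} (hc : Con c) {e : G → ℂ} {A : ℝ} (hA : 0 ≤ A) (h : ∀ g, ‖e g‖ ≤ A) : nc c e ≤ A := by
  have h1 := nc_le (c := c) (e := e) (e' := fun _ => 1) hA fun g => by simpa using h g
  have h2 : nc c (fun _ => 1) ≤ 1 := by
    unfold nc
    rw [Real.sqrt_le_one]
    simpa using hc.sum_le
  nlinarith

/-- The kernel `F` has weighted Bessel norm at most `B`. -/
def BN2 (F : G → G → ℂ) (B : ℝ) : Prop := 0 ≤ B ∧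
  ∀ (c : G →₀ ℂ), Con c → ∀ (e : G → ℂ) (T : Finset G) (w : G → ℂ),
    ‖∑ r ∈ T, w r * cfr c (fun g r => e g * F g r) r‖ ≤ B * nc c e * √(∑ r ∈ T, ‖w r‖ ^ 2)

/-- **Bessel's inequality.** -/
theorem bessel2 {c : G →₀ ℂ} (hc : Con c) (e : G → ℂ) (T : Finset G) :
    ∑ r ∈ T, ‖∑ g ∈ c.support, e g * (conj (c g) * c (g * r))‖ ^ 2 ≤ nc c e ^ 2 := by
  classical
  let ξ : G →₀ ℂ := Finsupp.onFinset c.support (fun g => conj (e g) * c g) fun g hg => by
    rw [Finsupp.mem_support_iff]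
    rintro h
    exact hg (by rw [h, mul_zero])
  have hξ : ∀ g, ξ g = conj (e g) * c g := fun g => rfl
  have h := hc ξ (T.image fun r => r⁻¹)
  rw [Finset.sum_image fun a _ b _ hab => inv_injective hab] at h
  have h1 : ∀ r, ∑ g ∈ c.support, conj (c g) * ξ (g * r⁻¹) = conj (∑ g ∈ c.support, e g * (conj (c g) * c (g * r))) := by
    intro r
    rw [map_sum]
    have h2 := sum_shift c (fun g => conj (e g)) r
    simp only [hξ]
    rw [h2]
    refine Finset.sum_congr rfl fun g _ => ?_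
    rw [map_mul (starRingEnd ℂ), map_mul (starRingEnd ℂ), Complex.conj_conj]
  have h3 : ∑ g ∈ ξ.support, ‖ξ g‖ ^ 2 ≤ nc c e ^ 2 := by
    unfold nc
    rw [Real.sq_sqrt (Finset.sum_nonneg fun _ _ => by positivity)]
    calc ∑ g ∈ ξ.support, ‖ξ g‖ ^ 2 ≤ ∑ g ∈ c.support, ‖ξ g‖ ^ 2 :=
          Finset.sum_le_sum_of_subset_of_nonneg Finsupp.support_onFinset_subset fun _ _ _ => by positivity
      _ = ∑ g ∈ c.support, ‖e g * c g‖ ^ 2 := by
          refine Finset.sum_congr rfl fun g _ => ?_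
          rw [hξ, norm_mul, norm_mul, RCLike.norm_conj]
  refine le_trans (le_of_eq ?_) (h.trans h3)
  refine Finset.sum_congr rfl fun r _ => ?_
  rw [h1, RCLike.norm_conj]

/-- Products have finite Bessel norm. -/
theorem bn2_prod {a b : G → ℂ} {A B : ℝ} (ha : ∀ g, ‖a g‖ ≤ A) (hb : ∀ r, ‖b r‖ ≤ B) : BN2 (fun g r => a g * b r) (A * B) := by
  have hA : 0 ≤ A := (norm_nonneg _).trans (ha 1)
  have hB : 0 ≤ B := (norm_nonneg _).trans (hb 1)
  refine ⟨mul_nonneg hA hB, fun c hc e T w => ?_⟩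
  have e1 : ∑ r ∈ T, w r * cfr c (fun g r => e g * (a g * b r)) r =
      ∑ r ∈ T, (w r * b r) * ∑ g ∈ c.support, (e g * a g) * (conj (c g) * c (g * r)) := by
    refine Finset.sum_congr rfl fun r _ => ?_
    unfold cfr
    rw [mul_assoc]
    congr 1
    rw [Finset.mul_sum]
    refine Finset.sum_congr rfl fun g _ => ?_
    ring
  rw [e1]
  refine (cs_fin T _ _).trans ?_
  have h1 : √(∑ r ∈ T, ‖∑ g ∈ c.support, (e g * a g) * (conj (c g) * c (g * r))‖ ^ 2) ≤ A * nc c e := by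
    have h0 : nc c (fun g => e g * a g) ≤ A * nc c e := nc_le hA fun g => by
      rw [norm_mul, mul_comm]
      gcongr
      exact ha g
    refine le_trans ?_ h0
    rw [← Real.sqrt_sq (nc_nonneg c _)]
    exact Real.sqrt_le_sqrt (bessel2 hc _ T)
  have h2 : √(∑ r ∈ T, ‖w r * b r‖ ^ 2) ≤ B * √(∑ r ∈ T, ‖w r‖ ^ 2) := by
    rw [← Real.sqrt_sq hB, ← Real.sqrt_mul (sq_nonneg B), Finset.mul_sum]
    refine Real.sqrt_le_sqrt (Finset.sum_le_sum fun r _ => ?_)
    rw [norm_mul, mul_pow, mul_comm]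
    gcongr
    exact hb r
  calc _ ≤ (A * nc c e) * (B * √(∑ r ∈ T, ‖w r‖ ^ 2)) := mul_le_mul h1 h2 (Real.sqrt_nonneg _) (mul_nonneg hA (nc_nonneg c e))
    _ = _ := by ring

/-- Multiplication by products. -/
theorem BN2.mul {F : G → G → ℂ} {C : ℝ} (h : BN2 F C) {a b : G → ℂ} {A B : ℝ} (ha : ∀ g, ‖a g‖ ≤ A) (hb : ∀ r, ‖b r‖ ≤ B) :
    BN2 (fun g r => a g * b r * F g r) (A * B * C) := by
  have hA : 0 ≤ A := (norm_nonneg _).trans (ha 1)
  have hB : 0 ≤ B := (norm_nonneg _).trans (hb 1)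
  refine ⟨mul_nonneg (mul_nonneg hA hB) h.1, fun c hc e T w => ?_⟩
  have e1 : ∑ r ∈ T, w r * cfr c (fun g r => e g * (a g * b r * F g r)) r =
      ∑ r ∈ T, (w r * b r) * cfr c (fun g r => (e g * a g) * F g r) r := by
    refine Finset.sum_congr rfl fun r _ => ?_
    unfold cfr
    rw [mul_assoc]
    congr 1
    rw [Finset.mul_sum]
    refine Finset.sum_congr rfl fun g _ => ?_
    ring
  rw [e1]
  have h1 := h.2 c hc (fun g => e g * a g) T (fun r => w r * b r)
  refine h1.trans ?_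
  have h0 : nc c (fun g => e g * a g) ≤ A * nc c e := nc_le hA fun g => by
    rw [norm_mul, mul_comm]
    gcongr
    exact ha g
  have h2 : √(∑ r ∈ T, ‖w r * b r‖ ^ 2) ≤ B * √(∑ r ∈ T, ‖w r‖ ^ 2) := by
    rw [← Real.sqrt_sq hB, ← Real.sqrt_mul (sq_nonneg B), Finset.mul_sum]
    refine Real.sqrt_le_sqrt (Finset.sum_le_sum fun r _ => ?_)
    rw [norm_mul, mul_pow, mul_comm]
    gcongr
    exact hb r
  calc _ ≤ C * (A * nc c e) * (B * √(∑ r ∈ T, ‖w r‖ ^ 2)) :=
        mul_le_mul (mul_le_mul_of_nonneg_left h0 h.1) h2 (Real.sqrt_nonneg _) (mul_nonneg h.1 (mul_nonneg hA (nc_nonneg c e)))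
    _ = _ := by ring

theorem BN2.mono {F : G → G → ℂ} {C C' : ℝ} (h : BN2 F C) (hC : C ≤ C') : BN2 F C' :=
  ⟨h.1.trans hC, fun c hc e T w => (h.2 c hc e T w).trans
    (mul_le_mul_of_nonneg_right (mul_le_mul_of_nonneg_right hC (nc_nonneg c e)) (Real.sqrt_nonneg _))⟩

theorem BN2.add {F F' : G → G → ℂ} {C C' : ℝ} (h : BN2 F C) (h' : BN2 F' C') : BN2 (fun g r => F g r + F' g r) (C + C') := by
  refine ⟨add_nonneg h.1 h'.1, fun c hc e T w => ?_⟩
  have e1 : ∑ r ∈ T, w r * cfr c (fun g r => e g * (F g r + F' g r)) r =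
      ∑ r ∈ T, w r * cfr c (fun g r => e g * F g r) r + ∑ r ∈ T, w r * cfr c (fun g r => e g * F' g r) r := by
    rw [← Finset.sum_add_distrib]
    refine Finset.sum_congr rfl fun r _ => ?_
    rw [cfr_add]
    ring
  rw [e1, add_mul, add_mul]
  exact (norm_add_le _ _).trans (add_le_add (h.2 c hc e T w) (h'.2 c hc e T w))

theorem bn2_zero : BN2 (fun _ _ : G => (0 : ℂ)) 0 := by
  refine ⟨le_rfl, fun c _ e T w => ?_⟩
  have h : ∑ r ∈ T, w r * cfr c (fun g _ => e g * 0) r = 0 := Finset.sum_eq_zero fun r _ => by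
    unfold cfr
    rw [Finset.sum_eq_zero fun g _ => by simp only [mul_zero, zero_mul], mul_zero]
  rw [h, norm_zero, zero_mul, zero_mul]

theorem bn2_sum {ι : Type} (s : Finset ι) {F : ι → G → G → ℂ} {C : ι → ℝ} (h : ∀ i ∈ s, BN2 (F i) (C i)) :
    BN2 (fun g r => ∑ i ∈ s, F i g r) (∑ i ∈ s, C i) := by
  classical
  induction s using Finset.induction_on with
  | empty => simpa using bn2_zero
  | insert i s hi ih =>
    simp only [Finset.sum_insert hi]
    exact (h i (Finset.mem_insert_self _ _)).add (ih fun j hj => h j (Finset.mem_insert_of_mem hj))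

/-- Pointwise limits. -/
theorem bn2_lim {F : ℕ → G → G → ℂ} {F' : G → G → ℂ} {C : ℝ} (h : ∀ n, BN2 (F n) C)
    (hF : ∀ g r, Tendsto (fun n => F n g r) atTop (𝓝 (F' g r))) : BN2 F' C := by
  refine ⟨(h 0).1, fun c hc e T w => ?_⟩
  have h1 : Tendsto (fun n => ‖∑ r ∈ T, w r * cfr c (fun g r => e g * F n g r) r‖) atTop
      (𝓝 ‖∑ r ∈ T, w r * cfr c (fun g r => e g * F' g r) r‖) := by
    refine Tendsto.norm (tendsto_finsetSum _ fun r _ => Tendsto.const_mul _ ?_)
    unfold cfr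
    exact tendsto_finsetSum _ fun g _ => ((hF g r).const_mul _).mul_const _
  exact le_of_tendsto' h1 fun n => (h n).2 c hc e T w

/-- Integrals. -/
theorem bn2_integral {Ω : Type} [MeasurableSpace Ω] {μ : Measure Ω} {F : Ω → G → G → ℂ} {C : Ω → ℝ} (h : ∀ ω, BN2 (F ω) (C ω))
    (hF : ∀ g r, Integrable (fun ω => F ω g r) μ) (hC : Integrable C μ) : BN2 (fun g r => ∫ ω, F ω g r ∂μ) (∫ ω, C ω ∂μ) := by
  refine ⟨integral_nonneg fun ω => (h ω).1, fun c hc e T w => ?_⟩
  have hi : ∀ r g, Integrable (fun ω => e g * F ω g r * (conj (c g) * c (g * r))) μ := fun r g =>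
    ((hF g r).const_mul _).mul_const _
  have e1 : ∑ r ∈ T, w r * cfr c (fun g r => e g * ∫ ω, F ω g r ∂μ) r =
      ∫ ω, ∑ r ∈ T, w r * cfr c (fun g r => e g * F ω g r) r ∂μ := by
    rw [integral_finsetSum _ fun r _ => ?_]
    · refine Finset.sum_congr rfl fun r _ => ?_
      rw [integral_const_mul]
      congr 1
      unfold cfr
      rw [integral_finsetSum _ fun g _ => hi r g]
      refine Finset.sum_congr rfl fun g _ => ?_
      rw [integral_mul_const, integral_const_mul]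
    · refine Integrable.const_mul ?_ _
      unfold cfr
      exact integrable_finsetSum _ fun g _ => hi r g
  rw [e1, ← integral_mul_const, ← integral_mul_const]
  exact norm_integral_le_of_norm_le ((hC.mul_const _).mul_const _) (ae_of_all _ fun ω => (h ω).2 c hc e T w)

/-! ### Exponentials -/

theorem bn2_one : BN2 (fun _ _ : G => (1 : ℂ)) 1 := by
  have h := bn2_prod (G := G) (a := fun _ => 1) (b := fun _ => 1) (A := 1) (B := 1) (fun _ => by simp) (fun _ => by simp)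
  simpa using h

theorem bn2_const_mul {F : G → G → ℂ} {C : ℝ} (h : BN2 F C) (z : ℂ) : BN2 (fun g r => z * F g r) (‖z‖ * C) := by
  have h1 := h.mul (a := fun _ => z) (b := fun _ => 1) (A := ‖z‖) (B := 1) (fun _ => le_rfl) (fun _ => by simp)
  simpa using h1

theorem bn2_pow {ι : Type} (s : Finset ι) {x y : ι → G → ℂ} {a : ι → ℝ} (hx : ∀ i ∈ s, ∀ g, ‖x i g‖ ≤ 1)
    (hy : ∀ i ∈ s, ∀ r, ‖y i r‖ ≤ a i) (k : ℕ) :
    BN2 (fun g r => (∑ i ∈ s, x i g * y i r) ^ k) ((∑ i ∈ s, a i) ^ k) := by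
  induction k with
  | zero => simpa using bn2_one
  | succ k ih =>
    have h1 : BN2 (fun g r => ∑ i ∈ s, x i g * y i r * (∑ i ∈ s, x i g * y i r) ^ k)
        (∑ i ∈ s, 1 * a i * (∑ i ∈ s, a i) ^ k) :=
      bn2_sum s fun i hi => ih.mul (hx i hi) (hy i hi)
    have h2 : ∑ i ∈ s, 1 * a i * (∑ i ∈ s, a i) ^ k = (∑ i ∈ s, a i) ^ (k + 1) := by
      rw [← Finset.sum_mul, pow_succ', ← Finset.mul_sum, one_mul]
    rw [h2] at h1
    convert! h1 using 3 with g r
    rw [← Finset.sum_mul, pow_succ']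

theorem bn2_exp {ι : Type} (s : Finset ι) {x y : ι → G → ℂ} {a : ι → ℝ} (hx : ∀ i ∈ s, ∀ g, ‖x i g‖ ≤ 1)
    (hy : ∀ i ∈ s, ∀ r, ‖y i r‖ ≤ a i) :
    BN2 (fun g r => Complex.exp (∑ i ∈ s, x i g * y i r)) (Real.exp (∑ i ∈ s, a i)) := by
  have ha : 0 ≤ ∑ i ∈ s, a i := Finset.sum_nonneg fun i hi => (norm_nonneg _).trans (hy i hi 1)
  have h1 : ∀ n : ℕ, BN2 (fun g r => ∑ k ∈ Finset.range n, ((k.factorial : ℂ))⁻¹ * (∑ i ∈ s, x i g * y i r) ^ k)
      (Real.exp (∑ i ∈ s, a i)) := by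
    intro n
    refine BN2.mono (bn2_sum _ fun k _ => bn2_const_mul (bn2_pow s hx hy k) _) ?_
    refine le_trans (le_of_eq ?_) (Real.sum_le_exp_of_nonneg ha n)
    refine Finset.sum_congr rfl fun k _ => ?_
    rw [norm_inv, Complex.norm_natCast, inv_mul_eq_div]
  refine bn2_lim h1 fun g r => ?_
  have h2 := (NormedSpace.expSeries_div_hasSum_exp (∑ i ∈ s, x i g * y i r : ℂ)).tendsto_sum_nat
  rw [← Complex.exp_eq_exp_ℂ] at h2
  refine h2.congr fun n => Finset.sum_congr rfl fun k _ => ?_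
  rw [div_eq_inv_mul]

end Basic

/-! ### Oscillating kernels -/

section Osc

variable {G : Type} [Group G] {m n p : Type} [Fintype m] [Fintype n] [Fintype p]

theorem bn2_osc (B : p → m → n → ℝ) (ξ : p → ℝ) (N : ℕ) (hN : 1 ≤ N) (hξ : ∀ k, |ξ k| ≤ N)
    {x : G → m → ℝ} {y : G → n → ℝ} (hx : ∀ g i, |x g i| ≤ 1) (hy : ∀ r j, |y r j| ≤ 1) :
    BN2 (fun g r => Complex.exp (((2 * Real.pi * bl B ξ (x g) (y r) : ℝ) : ℂ) * Complex.I))
      ((2 * (N : ℝ) + 1) ^ Fintype.card n * Real.exp (2 * Real.pi * bs B)) := by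
  classical
  have hN0 : (0 : ℝ) < N := by exact_mod_cast hN
  set f : G → n → ℤ := fun r j => ⌊y r j * N⌋ with hf
  set S : Finset (n → ℤ) := Fintype.piFinset fun _ => Finset.Icc (-(N : ℤ)) N with hS
  have hmem : ∀ r, f r ∈ S := by
    intro r
    rw [hS, Fintype.mem_piFinset]
    intro j
    rw [Finset.mem_Icc]
    have h1 := abs_le.1 (hy r j)
    constructor
    · rw [hf, Int.le_floor]
      push_cast
      nlinarith
    · have h2 : (⌊y r j * N⌋ : ℝ) ≤ y r j * N := Int.floor_le _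
      have h3 : y r j * N ≤ N := by nlinarith
      exact_mod_cast h2.trans h3
  -- the remainder
  have hrem : ∀ r j, |y r j - f r j / N| ≤ 1 / N := by
    intro r j
    have h1 := Int.floor_le (y r j * N)
    have h2 := Int.lt_floor_add_one (y r j * N)
    have h3 : y r j - f r j / N = (y r j * N - f r j) / N := by field_simp
    rw [h3, abs_div, abs_of_pos hN0]
    gcongr
    rw [abs_le]
    constructor <;> simp only [hf] <;> linarith
  set yy : (n → ℤ) → m → G → ℂ := fun κ i r =>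
    if f r = κ then ((2 * Real.pi * ∑ j, (∑ k, ξ k * B k i j) * (y r j - κ j / N) : ℝ) : ℂ) * Complex.I else 0 with hyy
  have hyb : ∀ κ i r, ‖yy κ i r‖ ≤ 2 * Real.pi * ∑ j, ∑ k, |B k i j| := by
    intro κ i r
    have hnn : 0 ≤ 2 * Real.pi * ∑ j, ∑ k, |B k i j| :=
      mul_nonneg (by positivity) (Finset.sum_nonneg fun j _ => Finset.sum_nonneg fun k _ => abs_nonneg _)
    simp only [hyy]
    split_ifs with h
    · rw [norm_mul, Complex.norm_I, mul_one, Complex.norm_real, Real.norm_eq_abs, abs_mul, abs_of_pos (by positivity : 0 < 2 * Real.pi)]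
      refine mul_le_mul_of_nonneg_left ?_ (by positivity)
      refine (Finset.abs_sum_le_sum_abs _ _).trans (Finset.sum_le_sum fun j _ => ?_)
      rw [abs_mul]
      have h1 : |∑ k, ξ k * B k i j| ≤ N * ∑ k, |B k i j| := by
        rw [Finset.mul_sum]
        refine (Finset.abs_sum_le_sum_abs _ _).trans (Finset.sum_le_sum fun k _ => ?_)
        rw [abs_mul]
        exact mul_le_mul_of_nonneg_right (hξ k) (abs_nonneg _)
      have h2 : |y r j - κ j / N| ≤ 1 / N := by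
        rw [← h]
        exact hrem r j
      have hB : 0 ≤ ∑ k, |B k i j| := Finset.sum_nonneg fun k _ => abs_nonneg _
      calc |∑ k, ξ k * B k i j| * |y r j - κ j / N| ≤ (N * ∑ k, |B k i j|) * (1 / N) :=
            mul_le_mul h1 h2 (abs_nonneg _) (by positivity)
        _ = ∑ k, |B k i j| := by field_simp
    · rw [norm_zero]
      exact hnn
  -- one cell
  have hcell : ∀ κ, BN2 (fun g r => Complex.exp (((2 * Real.pi * bl B ξ (x g) (fun j => κ j / N) : ℝ) : ℂ) * Complex.I) *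
      (if f r = κ then 1 else 0) * Complex.exp (∑ i, ((x g i : ℝ) : ℂ) * yy κ i r))
      (1 * 1 * Real.exp (∑ i, 2 * Real.pi * ∑ j, ∑ k, |B k i j|)) := by
    intro κ
    refine (bn2_exp Finset.univ (x := fun i g => ((x g i : ℝ) : ℂ)) (y := yy κ) (fun i _ g => ?_) fun i _ r => hyb κ i r).mul
      (fun g => ?_) fun r => ?_
    · rw [Complex.norm_real]
      exact hx g i
    · rw [Complex.norm_exp_ofReal_mul_I]
    · split_ifs <;> simp
  have hsum := bn2_sum S fun κ _ => hcell κ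
  have hM : ∑ κ ∈ S, 1 * 1 * Real.exp (∑ i, 2 * Real.pi * ∑ j, ∑ k, |B k i j|) = (2 * (N : ℝ) + 1) ^ Fintype.card n * Real.exp (2 * Real.pi * bs B) := by
    rw [Finset.sum_const, nsmul_eq_mul, one_mul, one_mul]
    congr 1
    · rw [hS, Fintype.card_piFinset, Finset.prod_const, Int.card_Icc, Finset.card_univ]
      have h1 : ((N : ℤ) + 1 - -(N : ℤ)).toNat = 2 * N + 1 := by omega
      rw [h1]
      push_cast
      rfl
    · unfold bs
      rw [Finset.mul_sum]
  rw [hM] at hsum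
  convert! hsum using 3 with g r
  rw [Finset.sum_eq_single (f r) (fun κ _ hκ => by rw [if_neg (Ne.symm hκ), mul_zero, zero_mul]) (fun h => absurd (hmem r) h),
    if_pos rfl, mul_one, ← Complex.exp_add]
  congr 1
  have h1 : ∑ i, ((x g i : ℝ) : ℂ) * yy (f r) i r =
      ((2 * Real.pi * bl B ξ (x g) (fun j => y r j - f r j / N) : ℝ) : ℂ) * Complex.I := by
    unfold bl
    rw [Finset.mul_sum, Complex.ofReal_sum, Finset.sum_mul]
    refine Finset.sum_congr rfl fun i _ => ?_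
    simp only [hyy, if_true]
    push_cast
    ring
  have h2 : bl B ξ (x g) (y r) = bl B ξ (x g) (fun j => f r j / N) + bl B ξ (x g) (fun j => y r j - f r j / N) := by
    rw [← bl_add]
    congr 1
    funext j
    ring
  rw [h1, h2]
  push_cast
  ring

end Osc

/-! ### Smooth kernels -/

section Smooth

variable {m n p : Type} [Fintype m] [Fintype n] [Fintype p]

/-- **Smooth functions of bilinear expressions have finite Bessel norm**, uniformly in the group and in the functions `x`, `y`. -/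
theorem bn2_schwartz (B : p → m → n → ℝ) (Ψ : 𝓢(EuclideanSpace ℝ (p), ℂ)) :
    ∃ C : ℝ, ∀ (G : Type) [Group G] (x : G → m → ℝ) (y : G → n → ℝ), (∀ g i, |x g i| ≤ 1) → (∀ r j, |y r j| ≤ 1) →
      BN2 (fun g r => Ψ (bq B (x g) (y r))) C := by
  set Φ : 𝓢(EuclideanSpace ℝ (p), ℂ) := 𝓕 Ψ with hΦ
  refine ⟨∫ ξ, ‖Φ ξ‖ * ((2 * ‖ξ‖ + 5) ^ Fintype.card n * Real.exp (2 * Real.pi * bs B)), fun G _ x y hx hy => ?_⟩
  have hinv : ∀ v, Ψ v = ∫ ξ, Φ ξ * Complex.exp (((2 * Real.pi * inner ℝ ξ v : ℝ) : ℂ) * Complex.I) := by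
    intro v
    have h1 : 𝓕⁻ Φ = Ψ := by rw [hΦ]; exact FourierPair.fourierInv_fourier_eq Ψ
    have h2 : (𝓕⁻ Φ : 𝓢(EuclideanSpace ℝ (p), ℂ)) v = 𝓕⁻ (Φ : EuclideanSpace ℝ (p) → ℂ) v := by
      rw [SchwartzMap.fourierInv_coe]
    rw [← h1, h2, Real.fourierInv_eq']
    refine integral_congr_ae (ae_of_all _ fun ξ => ?_)
    exact mul_comm _ _
  have hE : ∀ v : EuclideanSpace ℝ (p), Integrable (fun ξ => Φ ξ * Complex.exp (((2 * Real.pi * inner ℝ ξ v : ℝ) : ℂ) * Complex.I)) := by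
    intro v
    refine Φ.integrable.norm.mono' ?_ (ae_of_all _ fun ξ => ?_)
    · refine Continuous.aestronglyMeasurable ?_
      have := Φ.continuous
      fun_prop
    · rw [norm_mul, Complex.norm_exp_ofReal_mul_I, mul_one]
  have hmain : BN2 (fun g r => ∫ ξ, Φ ξ * Complex.exp (((2 * Real.pi * inner ℝ ξ (bq B (x g) (y r)) : ℝ) : ℂ) * Complex.I))
      (∫ ξ, ‖Φ ξ‖ * ((2 * ‖ξ‖ + 5) ^ Fintype.card n * Real.exp (2 * Real.pi * bs B))) := by
    refine bn2_integral (fun ξ => ?_) (fun g r => hE _) ?_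
    · have hN : (⌈‖ξ‖⌉₊ : ℝ) < ‖ξ‖ + 1 := Nat.ceil_lt_add_one (norm_nonneg _)
      have h1 := bn2_const_mul (bn2_osc B (fun k => ξ k) (⌈‖ξ‖⌉₊ + 1) (by omega) (fun k => ?_) hx hy) (Φ ξ)
      · have h2 : BN2 (fun g r => Φ ξ * Complex.exp (((2 * Real.pi * inner ℝ ξ (bq B (x g) (y r)) : ℝ) : ℂ) * Complex.I))
            (‖Φ ξ‖ * ((2 * ((⌈‖ξ‖⌉₊ + 1 : ℕ) : ℝ) + 1) ^ Fintype.card n * Real.exp (2 * Real.pi * bs B))) := by
          simp only [inner_bq]
          exact h1
        refine h2.mono ?_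
        have h3 : 2 * ((⌈‖ξ‖⌉₊ + 1 : ℕ) : ℝ) + 1 ≤ 2 * ‖ξ‖ + 5 := by
          push_cast
          linarith
        gcongr
      · have h1 : |ξ k| ≤ ‖ξ‖ := by
          have := PiLp.norm_apply_le ξ k
          rwa [Real.norm_eq_abs] at this
        have h2 : ‖ξ‖ ≤ (⌈‖ξ‖⌉₊ : ℝ) := Nat.le_ceil _
        push_cast
        linarith
    · have h0 := Φ.integrable_pow_mul volume 0
      have hn := Φ.integrable_pow_mul volume (Fintype.card n)
      have hdom : Integrable fun ξ : EuclideanSpace ℝ (p) =>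
          (2 ^ Fintype.card n * 2 ^ Fintype.card n * Real.exp (2 * Real.pi * bs B)) * (‖ξ‖ ^ Fintype.card n * ‖Φ ξ‖) +
            (2 ^ Fintype.card n * 5 ^ Fintype.card n * Real.exp (2 * Real.pi * bs B)) * (‖ξ‖ ^ 0 * ‖Φ ξ‖) :=
        (hn.const_mul _).add (h0.const_mul _)
      refine hdom.mono' ?_ (ae_of_all _ fun ξ => ?_)
      · refine Continuous.aestronglyMeasurable ?_
        have := Φ.continuous
        fun_prop
      · rw [Real.norm_of_nonneg (by positivity)]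
        have h1 : (2 * ‖ξ‖ + 5) ^ Fintype.card n ≤ 2 ^ Fintype.card n * ((2 * ‖ξ‖) ^ Fintype.card n + 5 ^ Fintype.card n) := by
          have a1 : 2 * ‖ξ‖ + 5 ≤ 2 * max (2 * ‖ξ‖) 5 := by
            have := le_max_left (2 * ‖ξ‖) 5
            have := le_max_right (2 * ‖ξ‖) (5 : ℝ)
            linarith
          have a2 : max (2 * ‖ξ‖) 5 ^ Fintype.card n ≤ (2 * ‖ξ‖) ^ Fintype.card n + 5 ^ Fintype.card n := by
            rcases le_total (2 * ‖ξ‖) 5 with h | h
            · rw [max_eq_right h]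
              have : 0 ≤ (2 * ‖ξ‖) ^ Fintype.card n := by positivity
              linarith
            · rw [max_eq_left h]
              have : (0 : ℝ) ≤ 5 ^ Fintype.card n := by positivity
              linarith
          calc (2 * ‖ξ‖ + 5) ^ Fintype.card n ≤ (2 * max (2 * ‖ξ‖) 5) ^ Fintype.card n := pow_le_pow_left₀ (by positivity) a1 (Fintype.card n)
            _ = 2 ^ Fintype.card n * max (2 * ‖ξ‖) 5 ^ Fintype.card n := mul_pow _ _ _
            _ ≤ _ := mul_le_mul_of_nonneg_left a2 (by positivity)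
        calc ‖Φ ξ‖ * ((2 * ‖ξ‖ + 5) ^ Fintype.card n * Real.exp (2 * Real.pi * bs B)) ≤
              ‖Φ ξ‖ * ((2 ^ Fintype.card n * ((2 * ‖ξ‖) ^ Fintype.card n + 5 ^ Fintype.card n)) * Real.exp (2 * Real.pi * bs B)) := by gcongr
          _ = _ := by
              rw [mul_pow, pow_zero]
              ring
  convert! hmain using 3 with g r
  exact hinv _

end Smooth

end Pool.Agent.Helper35.NI
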