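import Pool.Agent.Helper35.NI.Ops
import Pool.Agent.Helper11.NI.Fin

/-!
# Project FQ (MP_0f6f3f_an), layer NI, block NI-2: the abstract near isometry for two unitaries

PROOF of `ni_mass`. Let `c`, `c'` be contractions of finite support near `v (dl 1)` and `u.symm (dl 1)` (`exists_con`). `P = Lc c (Rc c' (dl 1))` (`Ops.lean`) is near `v (u (dl 1))`; `P = vec (pT0 c c') (cS c c' 1 1)`, `Z = vec (pT0 c c') (cS c c' w w')` (`Helper11/NI/Vec.lean`).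
`norm_PZ`, `norm_Z_sq` (`Helper11/NI/Fin.lean`): `|⟪P, Z⟫ - 1|` is small and `‖Z‖² ≤ 1 +` small. So `‖P - Z‖²` is small and `Z` vanishes on `S`.
-/

set_option autoImplicit false
set_option linter.unusedSectionVars false

open MeasureTheory Filter Topology Matrix
open scoped ComplexConjugate

namespace Pool.Agent.Helper35.NI

open Pool.Agent.Helper20.TB Pool.Agent.Helper84.NI Pool.Agent.Helper84.GVN Pool.Agent.Helper90.RK Pool.Agent.Helper96.RK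
open Pool.Agent.Helper11.NI (vec vec_apply norm_vec norm_vec_sq pT0 cS norm_PZ norm_Z_sq)

section Aux

variable {G : Type} [Group G]

theorem symm_apply_eq {u : L2 G ≃ₗᵢ[ℂ] L2 G} (hu : CommR u) (g : G) : u.symm (dl 1) g = conj (u (dl 1) g⁻¹) := by
  have h1 : (inner ℂ (dl g) (u.symm (dl 1)) : ℂ) = inner ℂ (u (dl g)) (dl 1) := by
    rw [← u.inner_map_map (dl g) (u.symm (dl 1)), LinearIsometryEquiv.apply_symm_apply]
  rw [inner_dl_left, inner_dl_right, hu.apply_dl g 1] at h1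
  rw [h1, one_mul]
  rfl

theorem commR_symm_ni {u : L2 G ≃ₗᵢ[ℂ] L2 G} (hu : CommR u) : CommR u.symm := by
  intro k f
  have h1 := hu k (u.symm f)
  rw [LinearIsometryEquiv.apply_symm_apply] at h1
  rw [← h1, LinearIsometryEquiv.symm_apply_apply]

theorem apply_eq_cj {u : L2 G ≃ₗᵢ[ℂ] L2 G} (hu : CommR u) : u (dl 1) = cj (ivU G (u.symm (dl 1))) := by
  refine l2_ext fun g => ?_
  rw [cj_apply, ivU_apply, symm_apply_eq hu, inv_inv, Complex.conj_conj]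

theorem norm_mulop_symm {u : L2 G ≃ₗᵢ[ℂ] L2 G} (hu : CommR u) {e : G → ℂ} (he : ∀ g, ‖e g‖ ≤ 1) :
    ‖mulop e (u.symm (dl 1))‖ = ‖mulop (fun k => e k⁻¹) (u (dl 1))‖ := by
  refine (sq_eq_sq₀ (norm_nonneg _) (norm_nonneg _)).1 ?_
  rw [norm_sq_eq, norm_sq_eq, ← (Equiv.inv G).tsum_eq]
  refine tsum_congr fun k => ?_
  rw [Pool.Agent.Helper78.BM.mulop_app (C := 1) he, Pool.Agent.Helper78.BM.mulop_app (C := 1) (f := fun k => e k⁻¹) (fun k => he k⁻¹)]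
  rw [Equiv.inv_apply, symm_apply_eq hu, inv_inv, norm_mul, norm_mul, RCLike.norm_conj]

open Classical in
theorem ind_eq_mulop (A : Set G) (x : L2 G) : ind ℂ A x = mulop (Set.indicator A fun _ => 1) x := by
  refine l2_ext fun g => ?_
  rw [ind_apply, Pool.Agent.Helper78.BM.mulop_app (C := 1) (fun g => by
    by_cases h : g ∈ A
    · rw [Set.indicator_of_mem h]
      simp
    · rw [Set.indicator_of_notMem h]
      simp)]
  by_cases h : g ∈ A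
  · rw [if_pos h, Set.indicator_of_mem h, one_mul]
  · rw [if_neg h, Set.indicator_of_notMem h, zero_mul]

theorem nc_eq_norm {c : G →₀ ℂ} {e : G → ℂ} (he : ∀ g, ‖e g‖ ≤ 1) : nc c e = ‖mulop e (vv c)‖ := by
  have h1 : ‖mulop e (vv c)‖ ^ 2 = ∑ g ∈ c.support, ‖e g * c g‖ ^ 2 := by
    rw [norm_sq_eq]
    have h2 : ∀ g, ‖(mulop e (vv c)) g‖ ^ 2 = ‖e g * c g‖ ^ 2 := fun g => by
      rw [Pool.Agent.Helper78.BM.mulop_app (C := 1) he, vv_apply]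
    simp only [h2]
    exact tsum_eq_sum fun g hg => by rw [Finsupp.notMem_support_iff.1 hg]; simp
  unfold nc
  rw [← h1, Real.sqrt_sq (norm_nonneg _)]

theorem nc_le_mulop {c : G →₀ ℂ} {e : G → ℂ} (he : ∀ g, ‖e g‖ ≤ 1) (x : L2 G) : nc c e ≤ ‖mulop e x‖ + ‖vv c - x‖ := by
  rw [nc_eq_norm he]
  have h1 : mulop e (vv c) = mulop e x + mulop e (vv c - x) := by rw [map_sub]; abel
  rw [h1]
  refine (norm_add_le _ _).trans (add_le_add le_rfl ?_)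
  have := Pool.Agent.Helper78.BM.norm_mulop_app (f := e) zero_le_one he (vv c - x)
  rwa [one_mul] at this

theorem nc_one_eq (c : G →₀ ℂ) : nc c (fun _ => 1) = ‖vv c‖ := by
  unfold nc
  rw [← Real.sqrt_sq (norm_nonneg (vv c)), norm_vv_sq]
  simp only [one_mul]

/-- The vector `P`. -/
theorem PP_eq (c c' : G →₀ ℂ) : Lc c (Rc c' (dl 1)) = vec (pT0 c c') (cS c c' (fun _ => 1) fun _ => 1) := by
  classical
  have h1 : ∀ x : G, (Rc c' (dl 1) : L2 G) x = conj (c' x⁻¹) := by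
    intro x
    rw [Rc_conj, cj_apply, ivU_apply]
    have h2 : cj (ivU G (dl 1 : L2 G)) = dl 1 := by
      refine l2_ext fun y => ?_
      rw [cj_apply, ivU_apply, dl_apply, dl_apply]
      by_cases hy : y = 1
      · rw [hy, inv_one, if_pos rfl, map_one]
      · rw [if_neg hy, if_neg (fun h => hy (inv_eq_one.1 h)), map_zero]
    rw [h2, Lc_one, vv_apply]
  have h3 : ∀ k, (Lc c (Rc c' (dl 1)) : L2 G) k = cS c c' (fun _ => 1) (fun _ => 1) k := by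
    intro k
    rw [Lc_app, sum_coe]
    unfold cS
    refine Finset.sum_congr rfl fun g _ => ?_
    change c g * (lamU g (Rc c' (dl 1)) : L2 G) k = _
    rw [lamU_apply, h1, _root_.mul_inv_rev, inv_inv, one_mul, one_mul]
  refine l2_ext fun k => ?_
  rw [h3, vec_apply]
  split_ifs with hk
  · rfl
  · unfold cS
    refine Finset.sum_eq_zero fun g hg => ?_
    have h4 : k⁻¹ * g ∉ c'.support := by
      intro h5
      refine hk ?_
      unfold pT0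
      refine Finset.mem_image.2 ⟨(g, k⁻¹ * g), Finset.mem_product.2 ⟨hg, h5⟩, ?_⟩
      simp
    rw [Finsupp.notMem_support_iff.1 h4]
    simp

theorem norm_PP_sub {c c' : G →₀ ℂ} (hc' : Con c') {v u : L2 G ≃ₗᵢ[ℂ] L2 G} (hv : CommR v) (hu : CommR u) :
    ‖Lc c (Rc c' (dl 1)) - v (u (dl 1))‖ ≤ ‖vv c - v (dl 1)‖ + ‖vv c' - u.symm (dl 1)‖ := by
  have h1 : Rc c' (v (dl 1)) = v (Rc c' (dl 1)) := by
    rw [Rc_app, Rc_app, map_sum]
    refine Finset.sum_congr rfl fun g _ => ?_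
    rw [map_smul, hv]
  have h2 : Lc c (Rc c' (dl 1)) - v (u (dl 1)) = Rc c' (vv c - v (dl 1)) + v (Rc c' (dl 1) - u (dl 1)) := by
    rw [map_sub, map_sub, h1, Lc_Rc, Lc_one]
    abel
  have h3 : ‖Rc c' (dl 1) - u (dl 1)‖ = ‖vv c' - u.symm (dl 1)‖ := by
    have h4 : cj (ivU G (dl 1 : L2 G)) = dl 1 := by
      classical
      refine l2_ext fun y => ?_
      rw [cj_apply, ivU_apply, dl_apply, dl_apply]
      by_cases hy : y = 1
      · rw [hy, inv_one, if_pos rfl, map_one]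
      · rw [if_neg hy, if_neg (fun h => hy (inv_eq_one.1 h)), map_zero]
    have h5 : Rc c' (dl 1) - u (dl 1) = cj (ivU G (vv c' - u.symm (dl 1))) := by
      rw [Rc_conj, h4, Lc_one, apply_eq_cj hu]
      refine l2_ext fun y => ?_
      change cj (ivU G (vv c')) y - cj (ivU G (u.symm (dl 1))) y = _
      rw [cj_apply, cj_apply, cj_apply, ivU_apply, ivU_apply, ivU_apply]
      change _ = conj (vv c' y⁻¹ - u.symm (dl 1) y⁻¹)
      rw [map_sub]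
    rw [h5, norm_cj, LinearIsometryEquiv.norm_map]
  rw [h2]
  refine (norm_add_le _ _).trans (add_le_add (norm_Rc hc' _) ?_)
  rw [LinearIsometryEquiv.norm_map, h3]

end Aux

open Classical in
/-- **The abstract near isometry.** The smallness `δV` of the left factor depends on `ε` only. -/
theorem ni_mass {ε : ℝ} (hε : 0 < ε) : ∃ δV : ℝ, 0 < δV ∧ ∀ (C1 C2 : ℝ) (n0 : ℕ), ∃ δU ε1 : ℝ, 0 < δU ∧ 0 < ε1 ∧
    ∀ (G : Type) [Group G] (w w' : G → ℝ), (∀ g, 0 ≤ w g ∧ w g ≤ 1) → (∀ g, 0 ≤ w' g ∧ w' g ≤ 1) →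
    ∀ (R1 : Set G) (R0 : Finset G) (N : Set G), R0.card ≤ n0 →
      (∀ g r h, w g ≠ 0 → w (g * r) ≠ 0 → w' h ≠ 0 → w' (h * r) ≠ 0 → r ∈ R1 ∨ r⁻¹ ∈ R1 ∨ r ∈ R0) →
      BN2 (fun g r => if w g ≠ 0 ∧ r ∈ R1 then ((w (g * r) : ℝ) : ℂ) else 0) C1 →
    ∀ (F0 : G → ℂ) (D : G → G → ℂ), (∀ r, ‖F0 r‖ ≤ 1) → BN2 D C2 → BN2 (fun h r => if h ∈ N then D h r else 0) ε1 →
      (∀ h r, w' h ≠ 0 → r⁻¹ ∈ R1 → ((w' (h * r) : ℝ) : ℂ) = F0 r + D h r) →
    ∀ S : Set G, (∀ g k, w g ≠ 0 → w' k⁻¹ ≠ 0 → g * k ∉ S) →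
    ∀ v u : L2 G ≃ₗᵢ[ℂ] L2 G, CommR v → CommR u → ‖mulop (fun g => ((1 - w g : ℝ) : ℂ)) (v (dl 1))‖ ≤ δV →
      ‖mulop (fun k => ((1 - w' k⁻¹ : ℝ) : ℂ)) (u (dl 1))‖ ≤ δU → ‖ind ℂ {k | k⁻¹ ∉ N} (u (dl 1))‖ ≤ δU →
      ‖ind ℂ S (v (u (dl 1)))‖ ≤ ε := by
  refine ⟨ε ^ 2 / 4, by positivity, fun C1 C2 n0 => ?_⟩
  set δV : ℝ := ε ^ 2 / 4 with hδV
  set Q : ℝ := 11 + 10 * n0 + 4 * |C1| * (4 + 2 * |C2|) with hQ
  have hQ0 : 0 < Q := by positivity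
  set δ : ℝ := min 1 (ε ^ 2 / 2 / Q) with hδd
  have hδ0 : 0 < δ := lt_min one_pos (by positivity)
  have hδ1 : δ ≤ 1 := min_le_left _ _
  have hδQ : δ * Q ≤ ε ^ 2 / 2 := by
    have h1 : δ ≤ ε ^ 2 / 2 / Q := min_le_right _ _
    rwa [le_div_iff₀ hQ0] at h1
  refine ⟨δ, δ, hδ0, hδ0, fun G _ w w' hw hw' R1 R0 N hR0 hcl h1 F0 D hF0 hD hDN hF S hS v u hv hu a1 a2 a3 => ?_⟩
  have hC1 : 0 ≤ C1 := h1.1
  have hC2 : 0 ≤ C2 := hD.1
  rw [abs_of_nonneg hC1, abs_of_nonneg hC2] at hQ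
  set ε' : ℝ := δ ^ 2 / 2 with hε'
  have hε'0 : 0 < ε' := by positivity
  have hε'δ : ε' ≤ δ / 2 := by rw [hε']; nlinarith
  obtain ⟨c, hc, hcv⟩ := exists_con hv 1 hε'0
  obtain ⟨c', hc', hcu⟩ := exists_con (commR_symm_ni hu) 1 hε'0
  change ‖vv c - v (dl 1)‖ ≤ ε' at hcv
  change ‖vv c' - u.symm (dl 1)‖ ≤ ε' at hcu
  -- the norms
  have hη : ∀ (c : G →₀ ℂ) (y : L2 G), ‖y‖ = 1 → ‖vv c - y‖ ≤ ε' → √(1 - nc c (fun _ => 1) ^ 2) ≤ δ := by
    intro c y hy hcy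
    rw [nc_one_eq]
    have e1 : 1 - ε' ≤ ‖vv c‖ := by
      have e2 : ‖y‖ ≤ ‖vv c‖ + ‖vv c - y‖ := by
        calc ‖y‖ = ‖vv c - (vv c - y)‖ := by rw [sub_sub_cancel]
          _ ≤ _ := norm_sub_le _ _
      linarith
    rw [← Real.sqrt_sq hδ0.le]
    refine Real.sqrt_le_sqrt ?_
    have e3 : (1 - ε') ^ 2 ≤ ‖vv c‖ ^ 2 := pow_le_pow_left₀ (by linarith) e1 2
    have e4 : 2 * ε' = δ ^ 2 := by rw [hε']; ring
    nlinarith [sq_nonneg ε']
  have η1 := hη c (v (dl 1)) (by rw [LinearIsometryEquiv.norm_map, norm_dl]) hcv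
  have η2 := hη c' (u.symm (dl 1)) (by rw [LinearIsometryEquiv.norm_map, norm_dl]) hcu
  have hb : ∀ w : G → ℝ, (∀ g, 0 ≤ w g ∧ w g ≤ 1) → ∀ g, ‖((1 - w g : ℝ) : ℂ)‖ ≤ 1 := fun w hw g => by
    rw [Complex.norm_real, Real.norm_of_nonneg (by linarith [(hw g).2])]
    linarith [(hw g).1]
  have d1 : nc c (fun g => ((1 - w g : ℝ) : ℂ)) ≤ δV + δ / 2 := by
    have := nc_le_mulop (c := c) (hb w hw) (v (dl 1))
    linarith
  have d2 : nc c' (fun g => ((1 - w' g : ℝ) : ℂ)) ≤ 2 * δ := by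
    have e1 := nc_le_mulop (c := c') (hb w' hw') (u.symm (dl 1))
    rw [norm_mulop_symm hu (hb w' hw')] at e1
    linarith
  have hi : ∀ g, ‖Set.indicator Nᶜ (fun _ => (1 : ℂ)) g‖ ≤ 1 := fun g => by
    by_cases h : g ∈ Nᶜ
    · rw [Set.indicator_of_mem h]
      simp
    · rw [Set.indicator_of_notMem h]
      simp
  have d3 : nc c' (Set.indicator Nᶜ fun _ => 1) ≤ 2 * δ := by
    have e1 := nc_le_mulop (c := c') hi (u.symm (dl 1))
    rw [norm_mulop_symm hu hi] at e1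
    have e2 : (fun k : G => Set.indicator Nᶜ (fun _ => (1 : ℂ)) k⁻¹) = Set.indicator {k | k⁻¹ ∉ N} fun _ => 1 := by
      funext k
      by_cases h : k⁻¹ ∈ N
      · rw [Set.indicator_of_notMem (fun h' : k⁻¹ ∈ Nᶜ => h' h), Set.indicator_of_notMem (fun h' : k⁻¹ ∉ N => h' h)]
      · rw [Set.indicator_of_mem (show k⁻¹ ∈ Nᶜ from h), Set.indicator_of_mem (show k ∈ {k | k⁻¹ ∉ N} from h)]
    rw [e2, ← ind_eq_mulop] at e1
    linarith
  -- the vectors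
  set P : L2 G := vec (pT0 c c') (cS c c' (fun _ => 1) fun _ => 1) with hP
  set Z : L2 G := vec (pT0 c c') (cS c c' (fun g => ((w g : ℝ) : ℂ)) fun g => ((w' g : ℝ) : ℂ)) with hZ
  set p : L2 G := v (u (dl 1)) with hp
  have hp1 : ‖p‖ = 1 := by rw [hp, LinearIsometryEquiv.norm_map, LinearIsometryEquiv.norm_map, norm_dl]
  have hPp : ‖P - p‖ ≤ δ := by
    rw [hP, ← PP_eq]
    have := norm_PP_sub (c := c) hc' hv hu
    linarith
  have hPZ := norm_PZ hc hc' hw' (w := w)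
  rw [← hP, ← hZ] at hPZ
  have hZ2 := norm_Z_sq hw hw' hcl h1 hF0 hD hDN hF hc hc'
  rw [← hZ] at hZ2
  have hR0' : (R0.card : ℝ) ≤ n0 := by exact_mod_cast hR0
  have hn0 : (0 : ℝ) ≤ n0 := Nat.cast_nonneg _
  have hnn : 0 ≤ nc c' (fun g => ((1 - w' g : ℝ) : ℂ)) := nc_nonneg _ _
  have hsq : 0 ≤ √(1 - nc c' (fun _ => 1) ^ 2) := Real.sqrt_nonneg _
  set q : ℝ := 5 * n0 + 2 * C1 * (4 + 2 * C2) with hq
  have hq0 : 0 ≤ q := by positivity
  have hZ3 : ‖Z‖ ^ 2 ≤ 1 + q * δ := by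
    refine hZ2.trans ?_
    have e1 : (R0.card : ℝ) * (√(1 - nc c' (fun _ => 1) ^ 2) + 2 * nc c' (fun g => ((1 - w' g : ℝ) : ℂ))) ≤ n0 * (5 * δ) :=
      mul_le_mul hR0' (by linarith) (by positivity) hn0
    have e2 : C2 * nc c' (Set.indicator Nᶜ fun _ => 1) ≤ C2 * (2 * δ) := mul_le_mul_of_nonneg_left d3 hC2
    have e3 : 2 * C1 * (√(1 - nc c' (fun _ => 1) ^ 2) + nc c' (fun g => ((1 - w' g : ℝ) : ℂ)) + δ + C2 * nc c' (Set.indicator Nᶜ fun _ => 1)) ≤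
        2 * C1 * (δ + 2 * δ + δ + C2 * (2 * δ)) := mul_le_mul_of_nonneg_left (by linarith) (by positivity)
    have e4 : n0 * (5 * δ) + 2 * C1 * (δ + 2 * δ + δ + C2 * (2 * δ)) = q * δ := by rw [hq]; ring
    linarith
  have hPZ' : ‖(inner ℂ P Z : ℂ) - 1‖ ≤ δV + 9 / 2 * δ := hPZ.trans (by linarith)
  have hpZ : 1 - (δV + 9 / 2 * δ) - δ * ‖Z‖ ≤ (inner ℂ p Z : ℂ).re := by
    have e1 : (inner ℂ p Z : ℂ) = 1 + ((inner ℂ P Z : ℂ) - 1) - inner ℂ (P - p) Z := by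
      rw [inner_sub_left]
      ring
    have e2 := Complex.abs_re_le_norm ((inner ℂ P Z : ℂ) - 1)
    have e3 := Complex.abs_re_le_norm (inner ℂ (P - p) Z : ℂ)
    have e4 : ‖(inner ℂ (P - p) Z : ℂ)‖ ≤ δ * ‖Z‖ := (norm_inner_le_norm _ _).trans (mul_le_mul_of_nonneg_right hPp (norm_nonneg _))
    have e5 : (inner ℂ p Z : ℂ).re = 1 + ((inner ℂ P Z : ℂ) - 1).re - (inner ℂ (P - p) Z : ℂ).re := by
      rw [e1, Complex.sub_re, Complex.add_re, Complex.one_re]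
    rw [e5]
    have e6 := (abs_le.1 e2).1
    have e7 := (abs_le.1 e3).2
    linarith
  -- `Z` vanishes on `S`
  have hZS : ∀ k ∈ S, Z k = 0 := by
    intro k hk
    rw [hZ, vec_apply]
    split_ifs with h0
    · unfold cS
      refine Finset.sum_eq_zero fun g _ => ?_
      dsimp only
      by_cases e1 : w g = 0
      · rw [e1]
        simp
      · by_cases e2 : w' (k⁻¹ * g) = 0
        · rw [e2]
          simp
        · exfalso
          refine hS g (k⁻¹ * g)⁻¹ e1 (by rwa [inv_inv]) ?_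
          have e3 : g * (k⁻¹ * g)⁻¹ = k := by group
          rw [e3]
          exact hk
    · rfl
  have hfin : ‖ind ℂ S p‖ ≤ ‖p - Z‖ := by
    refine (sq_le_sq₀ (norm_nonneg _) (norm_nonneg _)).1 ?_
    refine hasSum_le (fun k => ?_) (hasSum_sq (ind ℂ S p)) (hasSum_sq (p - Z))
    rw [ind_apply]
    split_ifs with hk
    · change ‖p k‖ ^ 2 ≤ ‖p k - Z k‖ ^ 2
      rw [hZS k hk, sub_zero]
    · rw [norm_zero]
      have := sq_nonneg ‖(p - Z) k‖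
      linarith [this, zero_pow (M₀ := ℝ) two_ne_zero]
  have hfin2 : ‖p - Z‖ ^ 2 ≤ ε ^ 2 := by
    rw [@norm_sub_sq ℂ, hp1]
    have e0 : (RCLike.re (inner ℂ p Z : ℂ) : ℝ) = (inner ℂ p Z : ℂ).re := rfl
    rw [e0]
    have e1 : 2 * (δ * ‖Z‖) ≤ δ * (1 + ‖Z‖ ^ 2) := by nlinarith [sq_nonneg (‖Z‖ - 1)]
    have e2 : δ * (1 + ‖Z‖ ^ 2) ≤ δ * (2 + q * δ) := mul_le_mul_of_nonneg_left (by linarith) hδ0.le
    have e3 : δ * (2 + q * δ) ≤ δ * (2 + q) := by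
      refine mul_le_mul_of_nonneg_left ?_ hδ0.le
      nlinarith
    have e4 : δ * Q = δ * (11 + 2 * q) := by rw [hQ, hq]; ring
    nlinarith
  refine hfin.trans ?_
  exact (sq_le_sq₀ (norm_nonneg _) hε.le).1 hfin2

end Pool.Agent.Helper35.NI
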