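import Pool.Agent.Helper35.NI.Wt
import Pool.Agent.Helper35.NI.Mass

/-!
# Project FQ (MP_0f6f3f_an), layer NI: the geometry implies the near isometry

`ni_of_geo : A.Geo j → A.NI j`.
-/

set_option autoImplicit false
set_option linter.unusedSectionVars false
set_option linter.unusedVariables false

open MeasureTheory Filter Topology Matrix
open scoped ComplexConjugate ContDiff

namespace Pool.Agent.Helper35.NI

open Pool.Agent.Helper20.TB Pool.Agent.Helper84.NI Pool.Agent.Helper84.GVN Pool.Agent.Helper90.RK Pool.Agent.Helper96.RK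

theorem mulop_le_ind {G : Type} [Group G] {f : G → ℂ} {T : Set G} (h0 : ∀ g ∈ T, f g = 0) (h1 : ∀ g, ‖f g‖ ≤ 1) (ξ : L2 G) :
    ‖mulop f ξ‖ ≤ ‖ind ℂ Tᶜ ξ‖ := by
  classical
  refine (sq_le_sq₀ (norm_nonneg _) (norm_nonneg _)).1 ?_
  refine hasSum_le (fun k => ?_) (hasSum_sq (mulop f ξ)) (hasSum_sq (ind ℂ Tᶜ ξ))
  rw [Pool.Agent.Helper78.BM.mulop_app h1, ind_apply]
  by_cases hk : k ∈ T
  · rw [h0 k hk, zero_mul, norm_zero, zero_pow two_ne_zero]
    positivity
  · rw [if_pos (show k ∈ Tᶜ from hk), norm_mul]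
    have := h1 k
    gcongr
    nlinarith [norm_nonneg (ξ k)]

theorem ind_anti {G : Type} [Group G] {T T' : Set G} (h : T' ⊆ T) (ξ : L2 G) : ‖ind ℂ T' ξ‖ ≤ ‖ind ℂ T ξ‖ := by
  classical
  refine (sq_le_sq₀ (norm_nonneg _) (norm_nonneg _)).1 ?_
  refine hasSum_le (fun k => ?_) (hasSum_sq (ind ℂ T' ξ)) (hasSum_sq (ind ℂ T ξ))
  rw [ind_apply, ind_apply]
  by_cases hk : k ∈ T'
  · rw [if_pos hk, if_pos (h hk)]
  · rw [if_neg hk, norm_zero, zero_pow two_ne_zero]
    positivity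

/-- The trace of `Yᵀ X Y` under a small change of `X`. -/
theorem trace_near {m : ℕ} {X X' Y : Matrix (Fin m) (Fin m) ℝ} {η : ℝ} (hX : ∀ a b, |X a b - X' a b| ≤ η) (hY : ∀ a b, |Y a b| ≤ 1) :
    |(Yᵀ * X * Y).trace - (Yᵀ * X' * Y).trace| ≤ (m : ℝ) ^ 3 * η := by
  have h1 : (Yᵀ * X * Y).trace - (Yᵀ * X' * Y).trace = ∑ a, ∑ k, ∑ l, Y l a * (X l k - X' l k) * Y k a := by
    unfold Matrix.trace
    rw [← Finset.sum_sub_distrib]
    refine Finset.sum_congr rfl fun a _ => ?_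
    simp only [Matrix.diag_apply, Matrix.mul_apply, Matrix.transpose_apply, Finset.sum_mul]
    rw [← Finset.sum_sub_distrib]
    refine Finset.sum_congr rfl fun k _ => ?_
    rw [← Finset.sum_sub_distrib]
    refine Finset.sum_congr rfl fun l _ => ?_
    ring
  rw [h1]
  calc |∑ a, ∑ k, ∑ l, Y l a * (X l k - X' l k) * Y k a| ≤ ∑ _a : Fin m, ∑ _k : Fin m, ∑ _l : Fin m, η := by
        refine (Finset.abs_sum_le_sum_abs _ _).trans (Finset.sum_le_sum fun a _ => ?_)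
        refine (Finset.abs_sum_le_sum_abs _ _).trans (Finset.sum_le_sum fun k _ => ?_)
        refine (Finset.abs_sum_le_sum_abs _ _).trans (Finset.sum_le_sum fun l _ => ?_)
        rw [abs_mul, abs_mul]
        have h2 := hY l a
        have h3 := hY k a
        have h4 := hX l k
        have h5 := abs_nonneg (Y l a)
        have h6 := abs_nonneg (Y k a)
        have h7 := abs_nonneg (X l k - X' l k)
        calc |Y l a| * |X l k - X' l k| * |Y k a| ≤ 1 * η * 1 := by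
              have h8 : 0 ≤ η := h7.trans h4
              gcongr
          _ = η := by ring
    _ = (m : ℝ) ^ 3 * η := by
        simp only [Finset.sum_const, Finset.card_univ, Fintype.card_fin, nsmul_eq_mul]
        ring

namespace ND

variable {G : Type} [Group G] {I : Type} [Fintype I] (A : ND G I)

theorem ni_of_geo (j : I) (hG : A.Geo j) : A.NI j := by
  classical
  intro ε hε
  obtain ⟨δV, hδV, hM⟩ := ni_mass hε
  refine ⟨δV, hδV, fun C κ hC hκ => ?_⟩
  obtain ⟨C₁, κ₁, a, b, hC₁, hκ₁, ha, hb, hw⟩ := A.w_spec j hC hκ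
  obtain ⟨Lg, dg, c, Cg, R0, hdg, hc, hCg, hgeo⟩ := hG C₁ κ₁ hC₁ hκ₁
  obtain ⟨l, L₂, hl, hw2⟩ := hw Lg
  obtain ⟨K1, hK1, hkw⟩ := A.ker_w j a b l hc
  have hC0 : 0 ≤ A.C0 := zero_le_one.trans A.one_le
  obtain ⟨dn, Ln, hdn, hnear0⟩ := A.near_spec j (η := c / (2 * ((A.n j : ℝ) ^ 3 + 1))) (by positivity)
  obtain ⟨d', d₂, L₂', hd', hd₂, hw'⟩ := A.w'_spec j (d₁ := min dg dn) (lt_min hdg hdn) (max Lg Ln)
  obtain ⟨K2, hK2, hkw'⟩ := A.ker_w' j d' (c := c / 2) (B0 := 2 + Cg + A.C0) (by positivity) (by positivity)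
  obtain ⟨δU, ε1, hδU, hε1, hM2⟩ := hM K1 K2 R0.card
  set η : ℝ := ε1 / (K2 + 1) with hη
  have hη0 : 0 < η := by positivity
  obtain ⟨d3, L3, hd3, hnear⟩ := A.near_spec j hη0
  set d : ℝ := min (min d₂ d3) (min dg dn) with hd
  have hd0 : 0 < d := lt_min (lt_min hd₂ hd3) (lt_min hdg hdn)
  refine ⟨min δU (1 / 2), d, lt_min hδU (by norm_num), hd0, fun CU hCU => ?_⟩
  set τ : ℝ := min 1 η / (CU + A.C0 + 1) with hτ
  have hτ0 : 0 < τ := div_pos (lt_min one_pos hη0) (by positivity)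
  have hτm : τ * (CU + A.C0 + 1) = min 1 η := div_mul_cancel₀ _ (by positivity)
  have hτ1 : τ ≤ min 1 η := div_le_self (le_min zero_le_one hη0.le) (by linarith)
  have hτ2 : τ * (CU + A.C0) ≤ min 1 η := by nlinarith
  set L : ℝ := max (max (max L₂ L₂') L3) (max Lg Ln) with hL
  have hL1 : L₂ ≤ L := (le_max_left _ _).trans ((le_max_left _ _).trans (le_max_left _ _))
  have hL2 : L₂' ≤ L := (le_max_right _ _).trans ((le_max_left _ _).trans (le_max_left _ _))
  have hL3 : L3 ≤ L := (le_max_right _ _).trans (le_max_left _ _)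
  have hL4 : max Lg Ln ≤ L := le_max_right _ _
  have hd1 : d ≤ d₂ := (min_le_left _ _).trans (min_le_left _ _)
  have hd2 : d ≤ d3 := (min_le_left _ _).trans (min_le_right _ _)
  have hd4 : d ≤ min dg dn := min_le_right _ _
  refine ⟨L, Cg + A.C0 + 2 / τ, by positivity, fun e he s v u hv hu h1 h2 => ?_⟩
  obtain ⟨R1, g1, g2, g3, g4, g5⟩ := hgeo e he
  obtain ⟨w1, w2⟩ := hw2 e he
  obtain ⟨w1', w2'⟩ := hw' e he τ s
  have hsub : ∀ k, k ∈ A.Su j (max Lg Ln) (min dg dn) e → k ∈ A.Su j Lg dg e := fun k hk =>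
    ⟨(le_max_left _ _).trans hk.1, by have := hk.2; have := min_le_left dg dn; linarith⟩
  have hsub2 : ∀ k, k ∈ A.Su j L d e → k ∈ A.Su j (max Lg Ln) (min dg dn) e := fun k hk =>
    ⟨hL4.trans hk.1, by have := hk.2; linarith⟩
  set Nu : Set G := {k | k ∈ A.Su j L d e ∧ ∀ i, i ≠ j → |A.gap k i - s i| ≤ CU} with hNu
  -- the comparison vector
  have hne : ∃ k0, k0 ∈ A.Su j L d e := by
    by_contra hno
    have e1 : Nuᶜ = Set.univ := by
      ext k
      simp only [Set.mem_compl_iff, Set.mem_univ, iff_true]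
      exact fun hk => hno ⟨k, hk.1⟩
    rw [e1] at h2
    have e2 : ind ℂ (Set.univ : Set G) (u (dl 1)) = u (dl 1) := by
      refine l2_ext fun k => ?_
      rw [ind_apply, if_pos (Set.mem_univ k)]
    rw [e2, LinearIsometryEquiv.norm_map, norm_dl] at h2
    have := min_le_right δU (1 / 2)
    linarith
  obtain ⟨k0, hk0⟩ := hne
  have hk0' := hsub2 k0 hk0
  have htr : ∀ r, r⁻¹ ∈ R1 → c / 2 ≤ ((yn (A.r j r⁻¹)ᵀ)ᵀ * P1 e * yn (A.r j r⁻¹)ᵀ).trace := by
    intro r hr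
    have e1 := trace_near (Y := yn (A.r j r⁻¹)ᵀ) (hnear0 e he _ _ (le_max_right Lg Ln) (min_le_right dg dn) k0 hk0') (fun a b => yn_abs_le _ a b)
    rw [A.gm_mul_l, Matrix.trace_smul, trace_gm (by rw [hs_transpose]; exact A.hs_pos j _), smul_eq_mul, mul_one] at e1
    have e2 : c ≤ hs (A.r j (r⁻¹ * k0)) / (hs (A.r j r⁻¹) * hs (A.r j k0)) := by
      rw [le_div_iff₀ (mul_pos (A.hs_pos j _) (A.hs_pos j _))]
      exact g3 _ hr k0 (hsub k0 hk0') j
    have e3 : (A.n j : ℝ) ^ 3 * (c / (2 * ((A.n j : ℝ) ^ 3 + 1))) ≤ c / 2 := by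
      have : (0 : ℝ) ≤ (A.n j : ℝ) ^ 3 := by positivity
      rw [mul_div_assoc', div_le_div_iff₀ (by positivity) (by positivity)]
      nlinarith
    have := (abs_le.1 e1).2
    linarith
  have hcar : ∀ h, A.w' j d' τ s e h ≠ 0 → h⁻¹ ∈ A.Su j Lg dg e := fun h hh => hsub _ (w1' h hh).1
  obtain ⟨F0, D, hF0, hF, hD, hDN⟩ := hkw' e he τ hτ0.le (hτ1.trans (min_le_left _ _)) s {h | A.w' j d' τ s e h ≠ 0} {r | r⁻¹ ∈ R1}
    (fun h hh r hr i => by
      have e1 := g3 _ hr h⁻¹ (hcar h hh) i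
      have e2 : 0 ≤ hs (A.r i r⁻¹) * hs (A.r i h⁻¹) := mul_nonneg (hs_nonneg _) (hs_nonneg _)
      nlinarith)
    (fun r hr => htr r hr)
    (fun h hh i hi => ((w1' h hh).2 i hi).trans (by linarith))
    (fun r hr i hi => by
      have e1 := g4 _ hr i hi
      have e2 := A.nonneg r⁻¹ i
      have e3 := A.size r⁻¹ i
      have e4 : |A.S r⁻¹ i| ≤ Cg + A.C0 := by
        have : A.S r⁻¹ i = ∑ m, A.co i m * Real.log (hs (A.r m r⁻¹)) := rfl
        rw [← this] at e3
        rw [abs_le] at e3 ⊢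
        constructor <;> linarith
      rw [abs_mul, abs_of_pos hτ0]
      have e5 : τ ≤ 1 := hτ1.trans (min_le_left _ _)
      have e6 := abs_nonneg (A.S r⁻¹ i)
      nlinarith)
  set N : Set G := {h | h⁻¹ ∈ Nu} with hN
  have hS : ∀ k ∈ Nu, ∀ i, i ≠ j → |τ * (A.S k i - s i)| ≤ min 1 η := by
    intro k hk i hi
    have e1 := hk.2 i hi
    have e2 := A.size k i
    have e3 : |A.S k i - s i| ≤ CU + A.C0 := by
      have : A.S k i = ∑ m, A.co i m * Real.log (hs (A.r m k)) := rfl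
      rw [← this] at e2
      rw [abs_le] at e1 e2 ⊢
      constructor <;> linarith
    rw [abs_mul, abs_of_pos hτ0]
    nlinarith
  have hDN' := (hDN N η hη0.le (hτ1.trans (min_le_right _ _)) (fun h hh a b => hnear e he L d hL3 hd2 h⁻¹ hh.1 a b)
    (fun h hh i hi => (hS h⁻¹ hh i hi).trans (min_le_right _ _))).mono (C' := ε1) (by
      rw [hη, mul_div_assoc', div_le_iff₀ (by positivity)]
      nlinarith)
  refine hM2 G (A.w j a b l e) (A.w' j d' τ s e) (fun g => A.phw_mem _ _ _ _ _) (fun h => A.phu_mem _ _ _ _) R1 R0 N le_rfl ?_ ?_ F0 D hF0 hD hDN' ?_ _ ?_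
    v u hv hu ?_ ?_ ?_
  · intro g r h e1 e2 e3 e4
    have e5 := hcar _ e4
    rw [_root_.mul_inv_rev] at e5
    exact g1 r g h⁻¹ (w1 _ e1) (w1 _ e2) (hcar _ e3) e5
  · convert hkw e he {g | A.w j a b l e g ≠ 0} R1 fun g hg r hr i => g2 g (w1 g hg) r hr i
  · intro h r e1 e2
    exact hF h e1 r e2
  · rintro g k e1 e2 ⟨i, hi, e3⟩
    have e4 := hcar _ e2
    have e5 := (w1' _ e2).2 i hi
    rw [inv_inv] at e4 e5
    have e6 := g5 g (w1 g e1) k e4 i hi
    have e7 := A.size k i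
    have e8 : A.S k i = ∑ m, A.co i m * Real.log (hs (A.r m k)) := rfl
    rw [← e8] at e7
    have e9 : |A.S k i - s i| ≤ 2 / τ := by
      rw [abs_mul, abs_of_pos hτ0] at e5
      rw [le_div_iff₀ hτ0, mul_comm]
      exact e5
    refine not_le.2 e3 ?_
    rw [abs_le] at e6 e7 e9 ⊢
    constructor <;> linarith
  · refine (mulop_le_ind (T := A.Sv j C κ L e) (fun g hg => ?_) (fun g => ?_) _).trans h1
    · rw [w2 L hL1 g hg]
      simp
    · have := A.phw_mem j a b l (pt (fun i => gm (A.r i g)) (Sum.elim 0 (Sum.elim 0 fun p => e p.1 * e p.2)))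
      change 0 ≤ A.w j a b l e g ∧ A.w j a b l e g ≤ 1 at this
      rw [Complex.norm_real, Real.norm_eq_abs, abs_le]
      constructor <;> linarith [this.1, this.2]
  · refine (mulop_le_ind (T := Nu) (fun k hk => ?_) (fun k => ?_) _).trans (h2.trans (min_le_left _ _))
    · rw [w2' k⁻¹ L d hL2 hd1 (by rw [inv_inv]; exact hk.1) (fun i hi => by rw [inv_inv]; exact (hS k hk i hi).trans (min_le_left _ _))]
      simp
    · have : 0 ≤ A.w' j d' τ s e k⁻¹ ∧ A.w' j d' τ s e k⁻¹ ≤ 1 := A.phu_mem j A.co d' _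
      rw [Complex.norm_real, Real.norm_eq_abs, abs_le]
      constructor <;> linarith [this.1, this.2]
  · refine (ind_anti (fun k hk => ?_) _).trans (h2.trans (min_le_left _ _))
    intro hk'
    refine hk ?_
    change k⁻¹⁻¹ ∈ Nu
    rw [inv_inv]
    exact hk'

end ND

end Pool.Agent.Helper35.NI
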