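import Pool.Agent.Helper35.NI.Defs

/-!
# Project FQ (MP_0f6f3f_an), layer NI: the abstract near isometry
-/

set_option autoImplicit false
set_option linter.unusedSectionVars false

open MeasureTheory Filter Topology Matrix
open scoped ComplexConjugate

namespace Pool.Agent.Helper35.NI

open Pool.Agent.Helper20.TB Pool.Agent.Helper84.NI Pool.Agent.Helper84.GVN Pool.Agent.Helper90.RK Pool.Agent.Helper96.RK

variable {G : Type} [Group G]

/-- The conclusion of the near isometry for contractions of finite support: `S` is disjoint from the products `g h⁻¹`, `w g ≠ 0`, `w' h ≠ 0`; `c` is near a unitary and nearly carried by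
`w = 1`, and so is `c'` (it stands for the adjoint of the right factor) with `w' = 1`, and `c'` is nearly carried by `N`. -/
def NIF (w w' : G → ℝ) (N : Set G) (δ ε : ℝ) : Prop :=
  ∀ c c' : G →₀ ℂ, Con c → Con c' → 1 - δ ≤ ∑ g ∈ c.support, ‖c g‖ ^ 2 → 1 - δ ≤ ∑ g ∈ c'.support, ‖c' g‖ ^ 2 →
    nc c (fun g => ((1 - w g : ℝ) : ℂ)) ≤ δ → nc c' (fun g => ((1 - w' g : ℝ) : ℂ)) ≤ δ → nc c' (Set.indicator Nᶜ fun _ => 1) ≤ δ →
    ∀ T : Finset G, (∀ k ∈ T, ∀ g h, w g ≠ 0 → w' h ≠ 0 → k ≠ g * h⁻¹) →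
      ∑ k ∈ T, ‖∑ g ∈ c.support, c g * conj (c' (k⁻¹ * g))‖ ^ 2 ≤ ε ^ 2

end Pool.Agent.Helper35.NI
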