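import Pool.Agent.Helper35.NI.Sm
import Pool.Agent.Helper35.NI.Defs

/-!
# Project FQ (MP_0f6f3f_an), layer NI: the two cut off functions

Smooth functions of matrices `M i` (through their quotients by the traces) and of numbers.
-/

set_option autoImplicit false
set_option linter.unusedSectionVars false

open MeasureTheory Filter Topology Matrix
open scoped ComplexConjugate ContDiff

namespace Pool.Agent.Helper35.NI

variable {I : Type} [Fintype I] {n : I → ℕ}

/-- Index set of the numbers. -/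
abbrev JJ (n : I → ℕ) (j : I) := I ⊕ (Unit ⊕ (Fin (n j) × Fin (n j)))

section Fun

variable {J : Type} [Fintype J]

noncomputable def trq (i : I) (q : EP I n J) : ℝ := ∑ a : Fin (n i), q (Sum.inl ⟨i, (a, a)⟩)

noncomputable def tr2 (i : I) (q : EP I n J) : ℝ := ∑ a, ∑ b, q (Sum.inl ⟨i, (a, b)⟩) * q (Sum.inl ⟨i, (b, a)⟩)

noncomputable def peq (j : I) (q : EP I n (JJ n j)) : ℝ :=
  ∑ a, ∑ b, q (Sum.inl ⟨j, (a, b)⟩) * q (Sum.inr (Sum.inr (Sum.inr (a, b))))

theorem coord_cd {ι : Type} [Fintype ι] (i : ι) : ContDiff ℝ ∞ fun q : EuclideanSpace ℝ ι => q i :=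
  contDiff_euclidean.1 contDiff_id i

theorem trq_cd (i : I) : ContDiff ℝ ∞ (trq i : EP I n J → ℝ) := ContDiff.sum fun a _ => coord_cd _

theorem tr2_cd (i : I) : ContDiff ℝ ∞ (tr2 i : EP I n J → ℝ) :=
  ContDiff.sum fun a _ => ContDiff.sum fun b _ => (coord_cd _).mul (coord_cd _)

theorem peq_cd (j : I) : ContDiff ℝ ∞ (peq j : EP I n (JJ n j) → ℝ) :=
  ContDiff.sum fun a _ => ContDiff.sum fun b _ => (coord_cd _).mul (coord_cd _)

/-- `0` for `t ≤ a / 2`, `1` for `t ≥ a`. -/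
noncomputable def up (a t : ℝ) : ℝ := Real.smoothTransition (2 * t / a - 1)

/-- `1` for `t ≤ a / 2`, `0` for `t ≥ a`. -/
noncomputable def dn (a t : ℝ) : ℝ := Real.smoothTransition (2 - 2 * t / a)

/-- `1` for `t² ≤ 1`, `0` for `t² ≥ 2`. -/
noncomputable def ch (t : ℝ) : ℝ := Real.smoothTransition (2 - t ^ 2)

theorem up_cd (a : ℝ) : ContDiff ℝ ∞ (up a) := by
  unfold up
  exact Real.smoothTransition.contDiff.comp (((contDiff_const.mul contDiff_id).div_const a).sub contDiff_const)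

theorem dn_cd (a : ℝ) : ContDiff ℝ ∞ (dn a) := by
  unfold dn
  exact Real.smoothTransition.contDiff.comp (contDiff_const.sub ((contDiff_const.mul contDiff_id).div_const a))

theorem ch_cd : ContDiff ℝ ∞ ch := by
  unfold ch
  exact Real.smoothTransition.contDiff.comp (contDiff_const.sub (contDiff_id.pow 2))

theorem up_mem (a t : ℝ) : 0 ≤ up a t ∧ up a t ≤ 1 := ⟨Real.smoothTransition.nonneg _, Real.smoothTransition.le_one _⟩

theorem dn_mem (a t : ℝ) : 0 ≤ dn a t ∧ dn a t ≤ 1 := ⟨Real.smoothTransition.nonneg _, Real.smoothTransition.le_one _⟩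

theorem ch_mem (t : ℝ) : 0 ≤ ch t ∧ ch t ≤ 1 := ⟨Real.smoothTransition.nonneg _, Real.smoothTransition.le_one _⟩

theorem up_ne {a t : ℝ} (ha : 0 < a) (h : up a t ≠ 0) : a / 2 < t := by
  by_contra h1
  refine h (Real.smoothTransition.zero_of_nonpos ?_)
  have h2 : 2 * t / a ≤ 1 := by rw [div_le_one ha]; linarith
  linarith

theorem up_one {a t : ℝ} (ha : 0 < a) (h : a ≤ t) : up a t = 1 := by
  refine Real.smoothTransition.one_of_one_le ?_
  have h2 : 2 ≤ 2 * t / a := by rw [le_div_iff₀ ha]; linarith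
  linarith

theorem dn_ne {a t : ℝ} (ha : 0 < a) (h : dn a t ≠ 0) : t < a := by
  by_contra h1
  refine h (Real.smoothTransition.zero_of_nonpos ?_)
  have h2 : 2 ≤ 2 * t / a := by rw [le_div_iff₀ ha]; linarith
  linarith

theorem dn_one {a t : ℝ} (ha : 0 < a) (h : t ≤ a / 2) : dn a t = 1 := by
  refine Real.smoothTransition.one_of_one_le ?_
  have h2 : 2 * t / a ≤ 1 := by rw [div_le_one ha]; linarith
  linarith

theorem ch_ne {t : ℝ} (h : ch t ≠ 0) : |t| < 2 := by
  by_contra h1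
  refine h (Real.smoothTransition.zero_of_nonpos ?_)
  have h2 : 2 ≤ |t| := not_lt.1 h1
  have h3 : 2 ^ 2 ≤ |t| ^ 2 := by gcongr
  rw [sq_abs] at h3
  linarith

theorem ch_one {t : ℝ} (h : |t| ≤ 1) : ch t = 1 := by
  refine Real.smoothTransition.one_of_one_le ?_
  have h3 : |t| ^ 2 ≤ 1 ^ 2 := by gcongr
  rw [sq_abs] at h3
  linarith

/-- The domain. -/
def UU (I : Type) [Fintype I] (n : I → ℕ) (J : Type) [Fintype J] : Set (EP I n J) := {q | ∀ i, 0 < trq i q}

theorem isOpen_UU : IsOpen (UU I n J) := by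
  have : UU I n J = ⋂ i, {q | 0 < trq i q} := by
    ext q
    simp [UU]
  rw [this]
  exact isOpen_iInter_of_finite fun i => isOpen_lt continuous_const (trq_cd i).continuous

/-- The compact set. -/
def KK (I : Type) [Fintype I] (n : I → ℕ) (J : Type) [Fintype J] (A c : ℝ) : Set (EP I n J) := {q | (∀ k, |q k| ≤ A) ∧ ∀ i, c ≤ trq i q}

theorem isCompact_KK (A c : ℝ) : IsCompact (KK I n J A c) := by
  have h1 : IsClosed (KK I n J A c) := by
    have : KK I n J A c = (⋂ k, {q : EP I n J | |q k| ≤ A}) ∩ ⋂ i, {q : EP I n J | c ≤ trq i q} := by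
      ext q
      simp [KK]
    rw [this]
    exact (isClosed_iInter fun k => isClosed_le ((coord_cd k).continuous.abs) continuous_const).inter
      (isClosed_iInter fun i => isClosed_le continuous_const (trq_cd i).continuous)
  refine Metric.isCompact_of_isClosed_isBounded h1 ?_
  rw [isBounded_iff_forall_norm_le]
  refine ⟨√(∑ _k : (Σ i : I, Fin (n i) × Fin (n i)) ⊕ J, A ^ 2), fun q hq => ?_⟩
  rw [EuclideanSpace.norm_eq]
  refine Real.sqrt_le_sqrt (Finset.sum_le_sum fun k _ => ?_)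
  rw [Real.norm_eq_abs]
  have := hq.1 k
  gcongr

theorem KK_sub {A c : ℝ} (hc : 0 < c) : KK I n J A c ⊆ UU I n J := fun _ hq i => hc.trans_le (hq.2 i)

end Fun

open Classical in
/-- The cut off of the left factor. -/
noncomputable def phw (j : I) (a b l : ℝ) (q : EP I n (JJ n j)) : ℝ :=
  up b (peq j q / trq j q) * dn l (1 - tr2 j q / trq j q ^ 2) * ∏ i ∈ Finset.univ.erase j, up a (1 - tr2 i q / trq i q ^ 2)

open Classical in
/-- The cut off of the right factor. -/
noncomputable def phu (j : I) (co : I → I → ℝ) (d : ℝ) (q : EP I n (JJ n j)) : ℝ :=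
  dn d (1 - peq j q / trq j q) *
    ∏ l ∈ Finset.univ.erase j, ch (q (Sum.inr (Sum.inl l)) + q (Sum.inr (Sum.inr (Sum.inl ()))) * ∑ m, co l m * Real.log (trq m q))

theorem phw_cd (j : I) (a b l : ℝ) : ContDiffOn ℝ ∞ (phw j a b l : EP I n (JJ n j) → ℝ) (UU I n (JJ n j)) := by
  have h0 : ∀ i, ContDiffOn ℝ ∞ (trq i : EP I n (JJ n j) → ℝ) (UU I n (JJ n j)) := fun i => (trq_cd i).contDiffOn
  have h1 : ∀ i, ContDiffOn ℝ ∞ (fun q : EP I n (JJ n j) => 1 - tr2 i q / trq i q ^ 2) (UU I n (JJ n j)) := fun i =>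
    contDiffOn_const.sub ((tr2_cd i).contDiffOn.div ((h0 i).pow 2) fun q hq => (pow_pos (hq i) 2).ne')
  unfold phw
  refine ContDiffOn.mul (ContDiffOn.mul ?_ ?_) ?_
  · exact (up_cd b).comp_contDiffOn ((peq_cd j).contDiffOn.div (h0 j) fun q hq => (hq j).ne')
  · exact (dn_cd l).comp_contDiffOn (h1 j)
  · exact contDiffOn_prod fun i _ => (up_cd a).comp_contDiffOn (h1 i)

theorem phu_cd (j : I) (co : I → I → ℝ) (d : ℝ) : ContDiffOn ℝ ∞ (phu j co d : EP I n (JJ n j) → ℝ) (UU I n (JJ n j)) := by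
  have h0 : ∀ i, ContDiffOn ℝ ∞ (trq i : EP I n (JJ n j) → ℝ) (UU I n (JJ n j)) := fun i => (trq_cd i).contDiffOn
  unfold phu
  refine ContDiffOn.mul ?_ ?_
  · exact (dn_cd d).comp_contDiffOn (contDiffOn_const.sub ((peq_cd j).contDiffOn.div (h0 j) fun q hq => (hq j).ne'))
  · refine contDiffOn_prod fun l _ => ch_cd.comp_contDiffOn ?_
    refine (coord_cd _).contDiffOn.add ((coord_cd _).contDiffOn.mul (ContDiffOn.sum fun m _ => contDiffOn_const.mul ?_))
    exact (h0 m).log fun q hq => (hq m).ne'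

end Pool.Agent.Helper35.NI
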