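import Pool.Agent.Helper35.NI.Ker

/-!
# Project FQ (MP_0f6f3f_an), layer NI: Gram matrices of products, the values of the cut off functions
-/

set_option autoImplicit false
set_option linter.unusedSectionVars false
set_option linter.unusedVariables false

open MeasureTheory Filter Topology Matrix
open scoped ComplexConjugate ContDiff

namespace Pool.Agent.Helper35.NI

open Pool.Agent.Helper20.TB

section Mat

variable {m : ℕ}

theorem hs_transpose (A : Matrix (Fin m) (Fin m) ℝ) : hs Aᵀ = hs A := by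
  unfold hs
  rw [Finset.sum_comm]
  rfl

theorem trace_tt (A : Matrix (Fin m) (Fin m) ℝ) : (Aᵀ * A).trace = hs A := by
  unfold hs Matrix.trace
  rw [Finset.sum_comm]
  refine Finset.sum_congr rfl fun a _ => ?_
  rw [Matrix.diag_apply, Matrix.mul_apply]
  exact Finset.sum_congr rfl fun b _ => by rw [Matrix.transpose_apply]; ring

theorem trace_gm {A : Matrix (Fin m) (Fin m) ℝ} (hA : 0 < hs A) : (gm A).trace = 1 := by
  unfold gm
  rw [Matrix.trace_smul, trace_tt, smul_eq_mul, inv_mul_cancel₀ hA.ne']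

/-- The square of the Gram matrix has the same trace on both sides. -/
theorem trace_gm_sq (A : Matrix (Fin m) (Fin m) ℝ) : (gm Aᵀ * gm Aᵀ).trace = (gm A * gm A).trace := by
  unfold gm
  rw [hs_transpose, Matrix.transpose_transpose]
  simp only [Matrix.smul_mul, Matrix.mul_smul, Matrix.trace_smul]
  congr 2
  rw [Matrix.mul_assoc, Matrix.trace_mul_comm, Matrix.mul_assoc, Matrix.mul_assoc, Matrix.mul_assoc]

/-- The normalised matrix. -/
noncomputable def yn (B : Matrix (Fin m) (Fin m) ℝ) : Matrix (Fin m) (Fin m) ℝ := (√(hs B))⁻¹ • B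

theorem gm_mul {A B : Matrix (Fin m) (Fin m) ℝ} (hA : 0 < hs A) (hB : 0 < hs B) (hAB : 0 < hs (A * B)) :
    (yn B)ᵀ * gm A * yn B = (hs (A * B) / (hs A * hs B)) • gm (A * B) := by
  unfold yn gm
  rw [Matrix.transpose_smul, Matrix.transpose_mul]
  simp only [Matrix.smul_mul, Matrix.mul_smul, smul_smul]
  have h1 : (√(hs B))⁻¹ * ((√(hs B))⁻¹ * (hs A)⁻¹) = hs (A * B) / (hs A * hs B) * (hs (A * B))⁻¹ := by
    rw [← mul_assoc, ← mul_inv, Real.mul_self_sqrt hB.le]
    field_simp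
  have h2 : Bᵀ * (Aᵀ * A) * B = Bᵀ * Aᵀ * (A * B) := by simp only [Matrix.mul_assoc]
  rw [h2, ← h1]
  congr 1
  ring

theorem col_le (A : Matrix (Fin m) (Fin m) ℝ) (a : Fin m) : ∑ k, A k a ^ 2 ≤ hs A := by
  unfold hs
  refine Finset.sum_le_sum fun k _ => ?_
  exact Finset.single_le_sum (f := fun a => A k a ^ 2) (fun i _ => sq_nonneg _) (Finset.mem_univ a)

theorem gm_abs_le (A : Matrix (Fin m) (Fin m) ℝ) (a b : Fin m) : |gm A a b| ≤ 1 := by
  have h0 := hs_nonneg A
  have h1 : |(Aᵀ * A) a b| ≤ hs A := by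
    rw [Matrix.mul_apply]
    refine (Finset.abs_sum_le_sum_abs _ _).trans ?_
    calc ∑ k, |Aᵀ a k * A k b| ≤ ∑ k, (A k a ^ 2 + A k b ^ 2) / 2 := by
          refine Finset.sum_le_sum fun k _ => ?_
          rw [Matrix.transpose_apply, abs_mul, ← sq_abs (A k a), ← sq_abs (A k b)]
          nlinarith [sq_nonneg (|A k a| - |A k b|)]
      _ = (∑ k, A k a ^ 2) / 2 + (∑ k, A k b ^ 2) / 2 := by
          rw [Finset.sum_div, Finset.sum_div, ← Finset.sum_add_distrib]
          exact Finset.sum_congr rfl fun k _ => by ring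
      _ ≤ hs A / 2 + hs A / 2 := by
          have := col_le A a
          have := col_le A b
          linarith
      _ = hs A := by ring
  unfold gm
  rw [Matrix.smul_apply, smul_eq_mul, abs_mul, abs_inv, abs_of_nonneg h0]
  rcases h0.eq_or_lt with h2 | h2
  · rw [← h2]; simp
  · rw [inv_mul_le_one₀ h2]
    exact h1

theorem yn_abs_le (B : Matrix (Fin m) (Fin m) ℝ) (a b : Fin m) : |yn B a b| ≤ 1 := by
  have h0 := hs_nonneg B
  have h1 : B a b ^ 2 ≤ hs B := by
    unfold hs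
    calc B a b ^ 2 ≤ ∑ b, B a b ^ 2 := Finset.single_le_sum (f := fun b => B a b ^ 2) (fun i _ => sq_nonneg _) (Finset.mem_univ b)
      _ ≤ _ := Finset.single_le_sum (f := fun a => ∑ b, B a b ^ 2) (fun i _ => Finset.sum_nonneg fun _ _ => sq_nonneg _) (Finset.mem_univ a)
  have h2 : |B a b| ≤ √(hs B) := Real.abs_le_sqrt h1
  unfold yn
  rw [Matrix.smul_apply, smul_eq_mul, abs_mul, abs_inv, abs_of_nonneg (Real.sqrt_nonneg _)]
  rcases (Real.sqrt_nonneg (hs B)).eq_or_lt with h3 | h3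
  · rw [← h3]; simp
  · rw [inv_mul_le_one₀ h3]
    exact h2

theorem conj_abs_le {X Y : Matrix (Fin m) (Fin m) ℝ} (hX : ∀ a b, |X a b| ≤ 1) (hY : ∀ a b, |Y a b| ≤ 1) (a b : Fin m) :
    |(Yᵀ * X * Y) a b| ≤ (m : ℝ) ^ 2 := by
  rw [Matrix.mul_apply]
  refine (Finset.abs_sum_le_sum_abs _ _).trans ?_
  have h1 : ∀ k, |(Yᵀ * X) a k| ≤ m := by
    intro k
    rw [Matrix.mul_apply]
    refine (Finset.abs_sum_le_sum_abs _ _).trans ?_
    calc ∑ l, |Yᵀ a l * X l k| ≤ ∑ _l : Fin m, (1 : ℝ) := by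
          refine Finset.sum_le_sum fun l _ => ?_
          rw [abs_mul, Matrix.transpose_apply]
          exact mul_le_one₀ (hY _ _) (abs_nonneg _) (hX _ _)
      _ = m := by simp
  calc ∑ k, |(Yᵀ * X) a k * Y k b| ≤ ∑ _k : Fin m, (m : ℝ) := by
        refine Finset.sum_le_sum fun l _ => ?_
        rw [abs_mul]
        have h2 := mul_le_mul (h1 l) (hY l b) (abs_nonneg _) (Nat.cast_nonneg m)
        rwa [mul_one] at h2
    _ = (m : ℝ) ^ 2 := by simp [sq]

end Mat

section Eval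

variable {I : Type} [Fintype I] {n : I → ℕ}

variable {J : Type} [Fintype J]

theorem trq_pt (i : I) (M : ∀ i, Matrix (Fin (n i)) (Fin (n i)) ℝ) (z : J → ℝ) : trq i (pt M z) = (M i).trace := rfl

theorem tr2_pt (i : I) (M : ∀ i, Matrix (Fin (n i)) (Fin (n i)) ℝ) (z : J → ℝ) : tr2 i (pt M z) = (M i * M i).trace := by
  unfold tr2 Matrix.trace
  refine Finset.sum_congr rfl fun a _ => ?_
  rw [Matrix.diag_apply, Matrix.mul_apply]
  rfl

theorem peq_pt (j : I) (M : ∀ i, Matrix (Fin (n i)) (Fin (n i)) ℝ) (z : JJ n j → ℝ) :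
    peq j (pt M z) = ∑ a, ∑ b, M j a b * z (Sum.inr (Sum.inr (a, b))) := rfl

open Classical in
theorem phw_pt (j : I) (a b l : ℝ) (M : ∀ i, Matrix (Fin (n i)) (Fin (n i)) ℝ) (z : JJ n j → ℝ) : phw j a b l (pt M z) =
    up b ((∑ a, ∑ b, M j a b * z (Sum.inr (Sum.inr (a, b)))) / (M j).trace) * dn l (1 - (M j * M j).trace / (M j).trace ^ 2) *
      ∏ i ∈ Finset.univ.erase j, up a (1 - (M i * M i).trace / (M i).trace ^ 2) := by
  unfold phw
  simp only [trq_pt, tr2_pt, peq_pt]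

open Classical in
theorem phu_pt (j : I) (co : I → I → ℝ) (d : ℝ) (M : ∀ i, Matrix (Fin (n i)) (Fin (n i)) ℝ) (z : JJ n j → ℝ) : phu j co d (pt M z) =
    dn d (1 - (∑ a, ∑ b, M j a b * z (Sum.inr (Sum.inr (a, b)))) / (M j).trace) *
      ∏ l ∈ Finset.univ.erase j, ch (z (Sum.inl l) + z (Sum.inr (Sum.inl ())) * ∑ m, co l m * Real.log (M m).trace) := by
  unfold phu
  simp only [trq_pt, peq_pt]
  rfl

theorem phw_smul (j : I) (a b l : ℝ) (M : ∀ i, Matrix (Fin (n i)) (Fin (n i)) ℝ) (z : JJ n j → ℝ) {t : I → ℝ} (ht : ∀ i, 0 < t i) :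
    phw j a b l (pt (fun i => t i • M i) z) = phw j a b l (pt M z) := by
  classical
  rw [phw_pt, phw_pt]
  have h1 : ∀ i, 1 - ((t i • M i) * (t i • M i)).trace / (t i • M i).trace ^ 2 = 1 - (M i * M i).trace / (M i).trace ^ 2 := by
    intro i
    rw [Matrix.smul_mul, Matrix.mul_smul, Matrix.trace_smul, Matrix.trace_smul, Matrix.trace_smul, smul_eq_mul, smul_eq_mul, smul_eq_mul,
      mul_pow, ← mul_assoc, ← sq, mul_div_mul_left _ _ (pow_pos (ht i) 2).ne']
  have h2 : (∑ a, ∑ b, (t j • M j) a b * z (Sum.inr (Sum.inr (a, b)))) / (t j • M j).trace =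
      (∑ a, ∑ b, M j a b * z (Sum.inr (Sum.inr (a, b)))) / (M j).trace := by
    rw [Matrix.trace_smul, smul_eq_mul, ← mul_div_mul_left (∑ a, ∑ b, M j a b * z (Sum.inr (Sum.inr (a, b)))) _ (ht j).ne', Finset.mul_sum]
    congr 1
    refine Finset.sum_congr rfl fun a _ => ?_
    rw [Finset.mul_sum]
    refine Finset.sum_congr rfl fun b _ => ?_
    rw [Matrix.smul_apply, smul_eq_mul, mul_assoc]
  rw [h2]
  congr 1
  · rw [h1]
  · exact Finset.prod_congr rfl fun i _ => by rw [h1]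

theorem phu_smul (j : I) (co : I → I → ℝ) (d : ℝ) (M : ∀ i, Matrix (Fin (n i)) (Fin (n i)) ℝ) (z z' : JJ n j → ℝ) {t : I → ℝ} (ht : ∀ i, 0 < t i)
    (hM : ∀ i, (M i).trace = 1) (h1 : ∀ l, l ≠ j → z (Sum.inl l) + z (Sum.inr (Sum.inl ())) * ∑ m, co l m * Real.log (t m) = z' (Sum.inl l))
    (h2 : ∀ p, z (Sum.inr (Sum.inr p)) = z' (Sum.inr (Sum.inr p))) :
    phu j co d (pt (fun i => t i • M i) z) = phu j co d (pt M z') := by
  classical
  rw [phu_pt, phu_pt]
  have h3 : ∀ i, (t i • M i).trace = t i := fun i => by rw [Matrix.trace_smul, hM, smul_eq_mul, mul_one]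
  congr 1
  · congr 2
    rw [h3, hM, div_one, div_eq_iff (ht j).ne', Finset.sum_mul]
    refine Finset.sum_congr rfl fun a _ => ?_
    rw [Finset.sum_mul]
    refine Finset.sum_congr rfl fun b _ => ?_
    rw [Matrix.smul_apply, smul_eq_mul, h2]
    ring
  · refine Finset.prod_congr rfl fun l hl => ?_
    simp only [h3, hM, Real.log_one, mul_zero, Finset.sum_const_zero, add_zero]
    rw [h1 l (Finset.ne_of_mem_erase hl)]

end Eval

end Pool.Agent.Helper35.NI
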