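import Pool.Agent.Helper35.NI.Ker2

/-!
# Project FQ (MP_0f6f3f_an), layer NI: the two kernels
-/

set_option autoImplicit false
set_option linter.unusedSectionVars false
set_option linter.unusedVariables false

open MeasureTheory Filter Topology Matrix
open scoped ComplexConjugate ContDiff

namespace Pool.Agent.Helper35.NI

open Pool.Agent.Helper20.TB

namespace ND

variable {G : Type} [Group G] {I : Type} [Fintype I] (A : ND G I)

theorem hs_pos (i : I) (g : G) : 0 < hs (A.r i g) := by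
  refine (hs_nonneg _).lt_of_ne fun h => ?_
  have h1 : A.r i g = 0 := by
    ext a b
    have h2 : A.r i g a b ^ 2 ≤ hs (A.r i g) := by
      unfold hs
      calc A.r i g a b ^ 2 ≤ ∑ b, A.r i g a b ^ 2 :=
            Finset.single_le_sum (f := fun b => A.r i g a b ^ 2) (fun i _ => sq_nonneg _) (Finset.mem_univ b)
        _ ≤ _ := Finset.single_le_sum (f := fun a => ∑ b, A.r i g a b ^ 2) (fun i _ => Finset.sum_nonneg fun _ _ => sq_nonneg _) (Finset.mem_univ a)
    rw [← h] at h2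
    exact pow_eq_zero_iff (two_ne_zero) |>.1 (le_antisymm h2 (sq_nonneg _))
  have h2 : (1 : Matrix (Fin (A.n i)) (Fin (A.n i)) ℝ) = 0 := by
    have h3 := map_mul (A.r i) g g⁻¹
    rw [mul_inv_cancel, map_one, h1, Matrix.zero_mul] at h3
    exact h3
  have h3 : A.n i ≠ 0 := by
    intro h4
    have h5 := A.uR i g
    have : IsEmpty (Fin (A.n i)) := by rw [h4]; exact Fin.isEmpty
    rw [EuclideanSpace.norm_eq] at h5
    simp at h5
  have h4 : 0 < A.n i := Nat.pos_of_ne_zero h3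
  have h5 := congrFun (congrFun h2 ⟨0, h4⟩) ⟨0, h4⟩
  simp at h5

/-- The size. -/
noncomputable def S (g : G) (l : I) : ℝ := ∑ m, A.co l m * Real.log (hs (A.r m g))

/-- The rank one matrix. -/
def P1 {m : ℕ} (e : EuclideanSpace ℝ (Fin m)) : Matrix (Fin m) (Fin m) ℝ := Matrix.of fun a b => e a * e b

/-- The cut off of the left factor. -/
noncomputable def w (j : I) (a b l : ℝ) (e : EuclideanSpace ℝ (Fin (A.n j))) (g : G) : ℝ :=
  phw j a b l (pt (fun i => gm (A.r i g)) (Sum.elim 0 (Sum.elim 0 fun p => e p.1 * e p.2)))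

open Classical in
/-- The cut off of the right factor. -/
noncomputable def w' (j : I) (d τ : ℝ) (s : I → ℝ) (e : EuclideanSpace ℝ (Fin (A.n j))) (h : G) : ℝ :=
  phu j A.co d (pt (fun i => gm (A.r i h⁻¹)ᵀ)
    (Sum.elim (fun l => if l = j then 0 else τ * (A.S h⁻¹ l - s l)) (Sum.elim (fun _ => τ) fun p => e p.1 * e p.2)))

theorem e_le {m : ℕ} {e : EuclideanSpace ℝ (Fin m)} (he : ‖e‖ = 1) (a b : Fin m) : |e a * e b| ≤ 1 := by
  have h1 : ∀ a, |e a| ≤ 1 := fun a => by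
    have := PiLp.norm_apply_le e a
    rwa [he, Real.norm_eq_abs] at this
  rw [abs_mul]
  exact mul_le_one₀ (h1 _) (abs_nonneg _) (h1 _)

/-- The trace of `Yᵀ X Y`. -/
theorem gm_mul_r (i : I) (g r : G) : (yn (A.r i r))ᵀ * gm (A.r i g) * yn (A.r i r) =
    (hs (A.r i (g * r)) / (hs (A.r i g) * hs (A.r i r))) • gm (A.r i (g * r)) := by
  have h0 : hs (A.r i g * A.r i r) = hs (A.r i (g * r)) := by rw [map_mul]
  rw [gm_mul (A.hs_pos i g) (A.hs_pos i r) (by rw [h0]; exact A.hs_pos i _), map_mul]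

theorem gm_mul_l (i : I) (k r : G) : (yn (A.r i r)ᵀ)ᵀ * gm (A.r i k)ᵀ * yn (A.r i r)ᵀ =
    (hs (A.r i (r * k)) / (hs (A.r i r) * hs (A.r i k))) • gm (A.r i (r * k))ᵀ := by
  have h0 : (A.r i k)ᵀ * (A.r i r)ᵀ = (A.r i (r * k))ᵀ := by rw [map_mul, Matrix.transpose_mul]
  rw [gm_mul (by rw [hs_transpose]; exact A.hs_pos i k) (by rw [hs_transpose]; exact A.hs_pos i r)
    (by rw [h0, hs_transpose]; exact A.hs_pos i _), h0, hs_transpose, hs_transpose, hs_transpose, mul_comm (hs (A.r i k))]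

open Classical in
/-- **The kernel of the left factor.** -/
theorem ker_w (j : I) (a b l : ℝ) {c : ℝ} (hc : 0 < c) : ∃ C : ℝ, 0 ≤ C ∧ ∀ (e : EuclideanSpace ℝ (Fin (A.n j))), ‖e‖ = 1 → ∀ (Q R : Set G),
    (∀ g ∈ Q, ∀ r ∈ R, ∀ i, c * (hs (A.r i g) * hs (A.r i r)) ≤ hs (A.r i (g * r))) →
    BN2 (fun g r => if g ∈ Q ∧ r ∈ R then ((A.w j a b l e (g * r) : ℝ) : ℂ) else 0) C := by
  set B : ℝ := 1 + ∑ i, (A.n i : ℝ) ^ 2 with hB
  have hB0 : 0 ≤ ∑ i, (A.n i : ℝ) ^ 2 := Finset.sum_nonneg fun _ _ => by positivity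
  obtain ⟨C, hC, h⟩ := bn2_smooth (isOpen_UU (I := I) (n := A.n) (J := JJ A.n j)) (phw_cd j a b l) (isCompact_KK B c) (KK_sub hc) 1
  refine ⟨C, hC, fun e he Q R hQR => ?_⟩
  set X : G → ∀ i, Matrix (Fin (A.n i)) (Fin (A.n i)) ℝ := fun g i => gm (A.r i g) with hX
  set Y : G → ∀ i, Matrix (Fin (A.n i)) (Fin (A.n i)) ℝ := fun g i => yn (A.r i g) with hY
  set u : G → JJ A.n j → ℝ := fun _ => Sum.elim 0 (Sum.elim 0 fun p => e p.1 * e p.2) with hu
  have hu1 : ∀ g l, |u g l| ≤ 1 := by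
    rintro g (l | l | l)
    · simp [hu]
    · simp [hu]
    · exact e_le he l.1 l.2
  have hK : ∀ g ∈ Q, ∀ r ∈ R, pt (fun i => (Y r i)ᵀ * X g i * Y r i) (fun l => u g l + (0 : JJ A.n j → ℝ) l) ∈ KK I A.n (JJ A.n j) B c := by
    intro g hg r hr
    refine ⟨?_, fun i => ?_⟩
    · rintro (⟨i, k⟩ | l)
      · refine (conj_abs_le (gm_abs_le _) (yn_abs_le _) k.1 k.2).trans ?_
        have := Finset.single_le_sum (f := fun i => (A.n i : ℝ) ^ 2) (fun _ _ => by positivity) (Finset.mem_univ i)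
        rw [hB]
        linarith
      · change |u g l + 0| ≤ B
        rw [add_zero]
        refine (hu1 g l).trans ?_
        linarith
    · rw [trq_pt]
      change c ≤ ((yn (A.r i r))ᵀ * gm (A.r i g) * yn (A.r i r)).trace
      rw [gm_mul_r, Matrix.trace_smul, trace_gm (A.hs_pos i _), smul_eq_mul, mul_one, le_div_iff₀ (mul_pos (A.hs_pos i g) (A.hs_pos i r))]
      exact hQR g hg r hr i
  have h1 := (h G X X Y u u (fun _ => 0) Q R 0 (fun g _ i a b => gm_abs_le _ a b) (fun g _ i a b => gm_abs_le _ a b) (fun r _ i a b => yn_abs_le _ a b)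
    (fun g _ l => hu1 g l) (fun g _ l => hu1 g l) (fun r _ l => by simp) hK hK le_rfl (fun g _ i a b => by simp) (fun g _ l => by simp)).1
  convert h1 using 3 with g r
  refine if_congr Iff.rfl ?_ rfl
  congr 1
  change phw j a b l (pt (fun i => gm (A.r i (g * r))) _) = phw j a b l (pt (fun i => (yn (A.r i r))ᵀ * gm (A.r i g) * yn (A.r i r)) _)
  simp only [gm_mul_r]
  rw [phw_smul j a b l (fun i => gm (A.r i (g * r))) _ fun i => div_pos (A.hs_pos i _) (mul_pos (A.hs_pos i g) (A.hs_pos i r))]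
  congr 2
  funext l
  simp [hu]

open Classical in
theorem phw_mem (j : I) (a b l : ℝ) (q : EP I A.n (JJ A.n j)) : 0 ≤ phw j a b l q ∧ phw j a b l q ≤ 1 := by
  unfold phw
  have h1 := up_mem b (peq j q / trq j q)
  have h2 := dn_mem l (1 - tr2 j q / trq j q ^ 2)
  have h3 : 0 ≤ ∏ i ∈ Finset.univ.erase j, up a (1 - tr2 i q / trq i q ^ 2) := Finset.prod_nonneg fun i _ => (up_mem _ _).1
  have h4 : ∏ i ∈ Finset.univ.erase j, up a (1 - tr2 i q / trq i q ^ 2) ≤ 1 := Finset.prod_le_one (fun i _ => (up_mem _ _).1) fun i _ => (up_mem _ _).2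
  exact ⟨mul_nonneg (mul_nonneg h1.1 h2.1) h3, mul_le_one₀ (mul_le_one₀ h1.2 h2.1 h2.2) h3 h4⟩

open Classical in
theorem phu_mem (j : I) (co : I → I → ℝ) (d : ℝ) (q : EP I A.n (JJ A.n j)) : 0 ≤ phu j co d q ∧ phu j co d q ≤ 1 := by
  unfold phu
  have h1 := dn_mem d (1 - peq j q / trq j q)
  have h3 : 0 ≤ ∏ l ∈ Finset.univ.erase j, ch (q (Sum.inr (Sum.inl l)) + q (Sum.inr (Sum.inr (Sum.inl ()))) * ∑ m, co l m * Real.log (trq m q)) :=
    Finset.prod_nonneg fun i _ => (ch_mem _).1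
  have h4 : ∏ l ∈ Finset.univ.erase j, ch (q (Sum.inr (Sum.inl l)) + q (Sum.inr (Sum.inr (Sum.inl ()))) * ∑ m, co l m * Real.log (trq m q)) ≤ 1 :=
    Finset.prod_le_one (fun i _ => (ch_mem _).1) fun i _ => (ch_mem _).2
  exact ⟨mul_nonneg h1.1 h3, mul_le_one₀ h1.2 h3 h4⟩

open Classical in
/-- **The kernel of the right factor.** -/
theorem ker_w' (j : I) (d : ℝ) {c B0 : ℝ} (hc : 0 < c) (hB0 : 0 ≤ B0) : ∃ C : ℝ, 0 ≤ C ∧ ∀ (e : EuclideanSpace ℝ (Fin (A.n j))), ‖e‖ = 1 →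
    ∀ τ : ℝ, 0 ≤ τ → τ ≤ 1 → ∀ (s : I → ℝ) (Q R : Set G),
    (∀ h ∈ Q, ∀ r ∈ R, ∀ i, c * (hs (A.r i r⁻¹) * hs (A.r i h⁻¹)) ≤ hs (A.r i (r⁻¹ * h⁻¹))) →
    (∀ r ∈ R, c ≤ ((yn (A.r j r⁻¹)ᵀ)ᵀ * P1 e * yn (A.r j r⁻¹)ᵀ).trace) →
    (∀ h ∈ Q, ∀ l, l ≠ j → |τ * (A.S h⁻¹ l - s l)| ≤ B0) → (∀ r ∈ R, ∀ l, l ≠ j → |τ * A.S r⁻¹ l| ≤ B0) →
    ∃ (F0 : G → ℂ) (D : G → G → ℂ), (∀ r, ‖F0 r‖ ≤ 1) ∧ (∀ h ∈ Q, ∀ r ∈ R, ((A.w' j d τ s e (h * r) : ℝ) : ℂ) = F0 r + D h r) ∧
      BN2 D C ∧ ∀ (N : Set G) (η : ℝ), 0 ≤ η → τ ≤ η → (∀ h ∈ N, ∀ a b, |gm (A.r j h⁻¹)ᵀ a b - P1 e a b| ≤ η) →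
        (∀ h ∈ N, ∀ l, l ≠ j → |τ * (A.S h⁻¹ l - s l)| ≤ η) → BN2 (fun h r => if h ∈ N then D h r else 0) (C * η) := by
  set B : ℝ := 1 + 2 * B0 + ∑ i, (A.n i : ℝ) ^ 2 with hB
  have hB1 : 0 ≤ ∑ i, (A.n i : ℝ) ^ 2 := Finset.sum_nonneg fun _ _ => by positivity
  obtain ⟨C, hC, h⟩ := bn2_smooth (isOpen_UU (I := I) (n := A.n) (J := JJ A.n j)) (phu_cd j A.co d) (isCompact_KK B c) (KK_sub hc) (1 + B0)
  refine ⟨C * (2 + B0), by positivity, fun e he τ hτ0 hτ1 s Q R hQR hR hQ1 hR1 => ?_⟩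
  set X : G → ∀ i, Matrix (Fin (A.n i)) (Fin (A.n i)) ℝ := fun h i => gm (A.r i h⁻¹)ᵀ with hX
  set X' : G → ∀ i, Matrix (Fin (A.n i)) (Fin (A.n i)) ℝ := fun h => Function.update (X h) j (P1 e) with hX'
  set Y : G → ∀ i, Matrix (Fin (A.n i)) (Fin (A.n i)) ℝ := fun r i => yn (A.r i r⁻¹)ᵀ with hY
  set u : G → JJ A.n j → ℝ := fun h => Sum.elim (fun l => if l = j then 0 else τ * (A.S h⁻¹ l - s l)) (Sum.elim (fun _ => τ) fun p => e p.1 * e p.2)
    with hu
  set u' : G → JJ A.n j → ℝ := fun h => Sum.elim 0 (Sum.elim 0 fun p => e p.1 * e p.2) with hu'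
  set v : G → JJ A.n j → ℝ := fun r => Sum.elim (fun l => if l = j then 0 else τ * A.S r⁻¹ l) 0 with hv
  have hX1 : ∀ g i a b, |X g i a b| ≤ 1 := fun g i a b => gm_abs_le _ a b
  have hX2 : ∀ g i a b, |X' g i a b| ≤ 1 := fun g i a b => by
    by_cases hi : i = j
    · subst hi
      simp only [hX', Function.update_self]
      exact e_le he a b
    · simp only [hX', Function.update_of_ne hi]
      exact hX1 g i a b
  have hu1 : ∀ g ∈ Q, ∀ l, |u g l| ≤ 1 + B0 := by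
    rintro g hg (l | l | l)
    · change |if l = j then 0 else τ * (A.S g⁻¹ l - s l)| ≤ 1 + B0
      split_ifs with hl
      · rw [abs_zero]; linarith
      · exact (hQ1 g hg l hl).trans (by linarith)
    · change |τ| ≤ 1 + B0
      rw [abs_of_nonneg hτ0]; linarith
    · exact (e_le he l.1 l.2).trans (by linarith)
  have hu2 : ∀ g, ∀ l, |u' g l| ≤ 1 + B0 := by
    rintro g (l | l | l)
    · change |(0 : ℝ)| ≤ 1 + B0
      rw [abs_zero]; linarith
    · change |(0 : ℝ)| ≤ 1 + B0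
      rw [abs_zero]; linarith
    · exact (e_le he l.1 l.2).trans (by linarith)
  have hv1 : ∀ r ∈ R, ∀ l, |v r l| ≤ B0 := by
    rintro g hg (l | l)
    · change |if l = j then 0 else τ * A.S g⁻¹ l| ≤ B0
      split_ifs with hl
      · rwa [abs_zero]
      · exact hR1 g hg l hl
    · change |(0 : ℝ)| ≤ B0
      rwa [abs_zero]
  have hnn : ∀ i, (A.n i : ℝ) ^ 2 ≤ B := fun i => by
    have := Finset.single_le_sum (f := fun i => (A.n i : ℝ) ^ 2) (fun _ _ => by positivity) (Finset.mem_univ i)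
    rw [hB]
    linarith
  have htr : ∀ g ∈ Q, ∀ r ∈ R, ∀ i, c ≤ ((Y r i)ᵀ * X g i * Y r i).trace := by
    intro g hg r hr i
    change c ≤ ((yn (A.r i r⁻¹)ᵀ)ᵀ * gm (A.r i g⁻¹)ᵀ * yn (A.r i r⁻¹)ᵀ).trace
    rw [gm_mul_l, Matrix.trace_smul, trace_gm (by rw [hs_transpose]; exact A.hs_pos i _), smul_eq_mul, mul_one,
      le_div_iff₀ (mul_pos (A.hs_pos i _) (A.hs_pos i _))]
    exact hQR g hg r hr i
  have hK1 : ∀ g ∈ Q, ∀ r ∈ R, pt (fun i => (Y r i)ᵀ * X g i * Y r i) (fun l => u g l + v r l) ∈ KK I A.n (JJ A.n j) B c := by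
    intro g hg r hr
    refine ⟨?_, fun i => htr g hg r hr i⟩
    rintro (⟨i, k⟩ | l)
    · exact (conj_abs_le (hX1 g i) (fun a b => yn_abs_le _ a b) k.1 k.2).trans (hnn i)
    · change |u g l + v r l| ≤ B
      refine (abs_add_le _ _).trans ?_
      have := hu1 g hg l
      have := hv1 r hr l
      rw [hB]
      linarith
  have hK2 : ∀ g ∈ Q, ∀ r ∈ R, pt (fun i => (Y r i)ᵀ * X' g i * Y r i) (fun l => u' g l + v r l) ∈ KK I A.n (JJ A.n j) B c := by
    intro g hg r hr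
    refine ⟨?_, fun i => ?_⟩
    · rintro (⟨i, k⟩ | l)
      · exact (conj_abs_le (hX2 g i) (fun a b => yn_abs_le _ a b) k.1 k.2).trans (hnn i)
      · change |u' g l + v r l| ≤ B
        refine (abs_add_le _ _).trans ?_
        have := hu2 g l
        have := hv1 r hr l
        rw [hB]
        linarith
    · rw [trq_pt]
      by_cases hi : i = j
      · subst hi
        simp only [hX', Function.update_self]
        exact hR r hr
      · simp only [hX', Function.update_of_ne hi]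
        exact htr g hg r hr i
  set Φ : EP I A.n (JJ A.n j) → ℝ := phu j A.co d with hΦ
  set f0 : G → ℝ := fun r => Φ (pt (fun i => (Y r i)ᵀ * X' 1 i * Y r i) (fun l => u' 1 l + v r l)) with hf0
  have hf1 : ∀ g r, Φ (pt (fun i => (Y r i)ᵀ * X' g i * Y r i) (fun l => u' g l + v r l)) = f0 r := by
    intro g r
    simp only [hf0, hΦ]
    rw [phu_pt, phu_pt]
    refine congrArg₂ (fun x y : ℝ => x * y) ?_ ?_
    · simp only [hX', Function.update_self]
      rfl
    · refine Finset.prod_congr rfl fun l _ => ?_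
      simp [hu', hv]
  have hw1 : ∀ g r, Φ (pt (fun i => (Y r i)ᵀ * X g i * Y r i) (fun l => u g l + v r l)) = A.w' j d τ s e (g * r) := by
    intro g r
    change phu j A.co d (pt (fun i => (yn (A.r i r⁻¹)ᵀ)ᵀ * gm (A.r i g⁻¹)ᵀ * yn (A.r i r⁻¹)ᵀ) _) = _
    simp only [gm_mul_l]
    unfold w'
    rw [_root_.mul_inv_rev]
    refine phu_smul j A.co d (fun i => gm (A.r i (r⁻¹ * g⁻¹))ᵀ) _ _ (fun i => div_pos (A.hs_pos i _) (mul_pos (A.hs_pos i _) (A.hs_pos i _)))
      (fun i => trace_gm (by rw [hs_transpose]; exact A.hs_pos i _)) ?_ ?_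
    · intro l hl
      simp only [hu, hv, Sum.elim_inl, Sum.elim_inr, if_neg hl, Pi.zero_apply, add_zero]
      have h1 : ∀ m, Real.log (hs (A.r m (r⁻¹ * g⁻¹)) / (hs (A.r m r⁻¹) * hs (A.r m g⁻¹))) =
          Real.log (hs (A.r m (r⁻¹ * g⁻¹))) - Real.log (hs (A.r m r⁻¹)) - Real.log (hs (A.r m g⁻¹)) := fun m => by
        rw [Real.log_div (A.hs_pos m _).ne' (mul_pos (A.hs_pos m _) (A.hs_pos m _)).ne', Real.log_mul (A.hs_pos m _).ne' (A.hs_pos m _).ne']
        ring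
      simp only [h1, mul_sub, Finset.sum_sub_distrib]
      unfold S
      ring
    · intro p
      simp [hu, hv]
  refine ⟨fun r => ((f0 r : ℝ) : ℂ), fun g r => if g ∈ Q ∧ r ∈ R then ((Φ (pt (fun i => (Y r i)ᵀ * X g i * Y r i) (fun l => u g l + v r l)) -
        Φ (pt (fun i => (Y r i)ᵀ * X' g i * Y r i) (fun l => u' g l + v r l)) : ℝ) : ℂ) else 0, fun r => ?_, fun g hg r hr => ?_, ?_, ?_⟩
  · rw [Complex.norm_real, Real.norm_eq_abs, abs_of_nonneg (A.phu_mem j A.co d _).1]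
    exact (A.phu_mem j A.co d _).2
  · simp only [if_pos (And.intro hg hr)]
    rw [hw1, hf1]
    push_cast
    ring
  · refine (h G X X' Y u u' v Q R (2 + B0) (fun g _ i a b => (hX1 g i a b).trans (by linarith)) (fun g _ i a b => (hX2 g i a b).trans (by linarith))
      (fun r _ i a b => (yn_abs_le _ a b).trans (by linarith)) hu1 (fun g _ => hu2 g) (fun r hr l => (hv1 r hr l).trans (by linarith)) hK1 hK2
      (by linarith) (fun g _ i a b => ?_) (fun g hg l => ?_)).2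
    · refine (abs_sub _ _).trans ?_
      have := hX1 g i a b
      have := hX2 g i a b
      linarith
    · rcases l with (l | l | l)
      · change |(if l = j then 0 else τ * (A.S g⁻¹ l - s l)) - 0| ≤ 2 + B0
        rw [sub_zero]
        split_ifs with hl
        · rw [abs_zero]; linarith
        · exact (hQ1 g hg l hl).trans (by linarith)
      · change |τ - 0| ≤ 2 + B0
        rw [sub_zero, abs_of_nonneg hτ0]; linarith
      · change |e l.1 * e l.2 - e l.1 * e l.2| ≤ 2 + B0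
        rw [sub_self, abs_zero]; linarith
  · intro N η hη hτη hN1 hN2
    have h1 := (h G X X' Y u u' v (Q ∩ N) R η (fun g _ i a b => (hX1 g i a b).trans (by linarith)) (fun g _ i a b => (hX2 g i a b).trans (by linarith))
      (fun r _ i a b => (yn_abs_le _ a b).trans (by linarith)) (fun g hg => hu1 g hg.1) (fun g _ => hu2 g) (fun r hr l => (hv1 r hr l).trans (by linarith))
      (fun g hg => hK1 g hg.1) (fun g hg => hK2 g hg.1)
      hη (fun g hg i a b => ?_) (fun g hg l => ?_)).2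
    · have h2 : C * η ≤ C * (2 + B0) * η := by
        have : 0 ≤ C * η := mul_nonneg hC hη
        nlinarith
      convert h1.mono h2 using 3 with g r
      by_cases hg : g ∈ N
      · simp [hg]
      · simp [hg]
    · by_cases hi : i = j
      · subst hi
        simp only [hX', Function.update_self]
        exact hN1 g hg.2 a b
      · simp only [hX', Function.update_of_ne hi]
        rw [sub_self, abs_zero]
        exact hη
    · rcases l with (l | l | l)
      · change |(if l = j then 0 else τ * (A.S g⁻¹ l - s l)) - 0| ≤ η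
        rw [sub_zero]
        split_ifs with hl
        · rwa [abs_zero]
        · exact hN2 g hg.2 l hl
      · change |τ - 0| ≤ η
        rw [sub_zero, abs_of_nonneg hτ0]; exact hτη
      · change |e l.1 * e l.2 - e l.1 * e l.2| ≤ η
        rw [sub_self, abs_zero]; exact hη

end ND

end Pool.Agent.Helper35.NI
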