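import Pool.Agent.Helper35.NI.Core2
import Pool.Agent.Helper20.TB.Sch

/-!
# Project FQ (MP_0f6f3f_an), layer NI: differences of smooth kernels

`bn2_near`: if `|x - x'| ≤ η` then the norm of the difference of the two smooth kernels is at most `C η`.
-/

set_option autoImplicit false
set_option linter.unusedSectionVars false

open MeasureTheory Filter Topology
open scoped ComplexConjugate FourierTransform SchwartzMap LineDeriv

namespace Pool.Agent.Helper35.NI

open Pool.Agent.Helper20.TB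

variable {m n p : Type} [Fintype m] [Fintype n] [Fintype p]

theorem bq_sub (B : p → m → n → ℝ) (x x' : m → ℝ) (y : n → ℝ) : bq B (fun i => x i - x' i) y = bq B x y - bq B x' y := by
  unfold bq
  ext k
  simp only [PiLp.sub_apply]
  rw [← Finset.sum_sub_distrib]
  exact Finset.sum_congr rfl fun i _ => by ring

theorem bq_line (B : p → m → n → ℝ) (x x' : m → ℝ) (y : n → ℝ) (t : ℝ) :
    bq B (fun i => x' i + t * (x i - x' i)) y = bq B x' y + t • (bq B x y - bq B x' y) := by
  unfold bq
  ext k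
  simp only [PiLp.sub_apply, PiLp.add_apply, PiLp.smul_apply, smul_eq_mul]
  rw [← Finset.sum_sub_distrib, Finset.mul_sum, ← Finset.sum_add_distrib]
  exact Finset.sum_congr rfl fun i _ => by ring

theorem vec_sum [DecidableEq p] (v : EuclideanSpace ℝ p) : v = ∑ k, v k • EuclideanSpace.single k (1 : ℝ) := by
  ext j
  simp [Pi.single_apply]

theorem bn2_near (B : p → m → n → ℝ) (Ψ : 𝓢(EuclideanSpace ℝ (p), ℂ)) :
    ∃ C : ℝ, 0 ≤ C ∧ ∀ (G : Type) [Group G] (x x' : G → m → ℝ) (y : G → n → ℝ) (η : ℝ), (∀ g i, |x g i| ≤ 1) → (∀ g i, |x' g i| ≤ 1) →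
      (∀ r j, |y r j| ≤ 1) → (∀ g i, |x g i - x' g i| ≤ η) →
      BN2 (fun g r => Ψ (bq B (x g) (y r)) - Ψ (bq B (x' g) (y r))) (C * η) := by
  classical
  choose C hC using fun k : p => bn2_schwartz (m := m) (n := n) B (∂_{(EuclideanSpace.single k (1 : ℝ) : EuclideanSpace ℝ p)} Ψ)
  have hC0 : ∀ k, 0 ≤ C k := fun k => (hC k Unit (fun _ _ => 0) (fun _ _ => 0) (by simp) (by simp)).1
  refine ⟨∑ k, ∑ i, ∑ j, |B k i j| * C k, Finset.sum_nonneg fun k _ => Finset.sum_nonneg fun i _ => Finset.sum_nonneg fun j _ =>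
    mul_nonneg (abs_nonneg _) (hC0 k), fun G _ x x' y η hx hx' hy hη => ?_⟩
  have hη0 : ∀ i : m, 0 ≤ η := fun i => (abs_nonneg _).trans (hη 1 i)
  -- the kernel at `t`
  have hk : ∀ t ∈ Set.Icc (0 : ℝ) 1, BN2 (fun g r => ∑ k, (((bq B (x g) (y r) - bq B (x' g) (y r)) k : ℝ) : ℂ) *
      (∂_{(EuclideanSpace.single k (1 : ℝ) : EuclideanSpace ℝ p)} Ψ) (bq B (fun i => x' g i + t * (x g i - x' g i)) (y r)))
      ((∑ k, ∑ i, ∑ j, |B k i j| * C k) * η) := by
    intro t ht
    have h1 : ∀ k i j, BN2 (fun g r => (((x g i - x' g i : ℝ) : ℂ)) * ((B k i j * y r j : ℝ) : ℂ) *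
        (∂_{(EuclideanSpace.single k (1 : ℝ) : EuclideanSpace ℝ p)} Ψ) (bq B (fun i => x' g i + t * (x g i - x' g i)) (y r)))
        (η * |B k i j| * C k) := by
      intro k i j
      refine (hC k G (fun g i => x' g i + t * (x g i - x' g i)) y (fun g i => ?_) hy).mul (fun g => ?_) fun r => ?_
      · have e1 : x' g i + t * (x g i - x' g i) = (1 - t) * x' g i + t * x g i := by ring
        rw [e1]
        refine (abs_add_le _ _).trans ?_
        rw [abs_mul, abs_mul, abs_of_nonneg ht.1, abs_of_nonneg (by linarith [ht.2] : (0 : ℝ) ≤ 1 - t)]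
        nlinarith [hx g i, hx' g i, ht.1, ht.2, abs_nonneg (x g i), abs_nonneg (x' g i)]
      · rw [Complex.norm_real]
        exact hη g i
      · rw [Complex.norm_real, Real.norm_eq_abs, abs_mul]
        nlinarith [hy r j, abs_nonneg (B k i j), abs_nonneg (y r j)]
    have h2 := bn2_sum Finset.univ fun k _ => bn2_sum Finset.univ fun i _ => bn2_sum Finset.univ fun j _ => h1 k i j
    refine BN2.mono (C := ∑ k, ∑ i, ∑ j, η * |B k i j| * C k) ?_ (le_of_eq ?_)
    · convert! h2 using 3 with g r k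
      rw [← bq_sub]
      unfold bq
      simp only [Finset.mul_sum, Complex.ofReal_sum, Finset.sum_mul]
      refine Finset.sum_congr rfl fun i _ => Finset.sum_congr rfl fun j _ => ?_
      push_cast
      ring
    · rw [Finset.sum_mul]
      refine Finset.sum_congr rfl fun k _ => ?_
      rw [Finset.sum_mul]
      refine Finset.sum_congr rfl fun i _ => ?_
      rw [Finset.sum_mul]
      exact Finset.sum_congr rfl fun j _ => by ring
  -- integration over `t`
  have hcont : ∀ g r, Continuous fun t : ℝ => ∑ k, (((bq B (x g) (y r) - bq B (x' g) (y r)) k : ℝ) : ℂ) *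
      (∂_{(EuclideanSpace.single k (1 : ℝ) : EuclideanSpace ℝ p)} Ψ) (bq B (fun i => x' g i + t * (x g i - x' g i)) (y r)) := by
    intro g r
    refine continuous_finsetSum _ fun k _ => continuous_const.mul ?_
    simp only [bq_line]
    exact (SchwartzMap.continuous _).comp (by fun_prop)
  have hint : ∀ g r, Ψ (bq B (x g) (y r)) - Ψ (bq B (x' g) (y r)) = ∫ t in Set.Icc (0 : ℝ) 1,
      ∑ k, (((bq B (x g) (y r) - bq B (x' g) (y r)) k : ℝ) : ℂ) *
      (∂_{(EuclideanSpace.single k (1 : ℝ) : EuclideanSpace ℝ p)} Ψ) (bq B (fun i => x' g i + t * (x g i - x' g i)) (y r)) := by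
    intro g r
    set v := bq B (x g) (y r) - bq B (x' g) (y r) with hv
    rw [integral_Icc_eq_integral_Ioc, ← intervalIntegral.integral_of_le zero_le_one]
    have hd : ∀ t : ℝ, HasDerivAt (fun t : ℝ => Ψ (bq B (x' g) (y r) + t • v))
        (∑ k, ((v k : ℝ) : ℂ) * (∂_{(EuclideanSpace.single k (1 : ℝ) : EuclideanSpace ℝ p)} Ψ)
          (bq B (fun i => x' g i + t * (x g i - x' g i)) (y r))) t := by
      intro t
      have h1 : HasDerivAt (fun t : ℝ => bq B (x' g) (y r) + t • v) v t := by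
        have := ((hasDerivAt_id t).smul_const v).const_add (bq B (x' g) (y r))
        simpa using this
      have h2 := (Ψ.differentiableAt (x := bq B (x' g) (y r) + t • v)).hasFDerivAt.comp_hasDerivAt t h1
      refine h2.congr_deriv ?_
      rw [bq_line, ← hv]
      have h3 : ∀ A : EuclideanSpace ℝ p →L[ℝ] ℂ, A v = ∑ k, A (v k • EuclideanSpace.single k (1 : ℝ)) := fun A => by
        conv_lhs => rw [vec_sum v]
        rw [map_sum]
      rw [h3]
      refine Finset.sum_congr rfl fun k _ => ?_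
      rw [map_smul, SchwartzMap.lineDerivOp_apply_eq_fderiv]
      rw [Complex.real_smul]
    rw [intervalIntegral.integral_eq_sub_of_hasDerivAt (fun t _ => hd t) ((hcont g r).intervalIntegrable _ _)]
    simp [hv]
  have h3 := bn2_integral (μ := volume.restrict (Set.Icc (0 : ℝ) 1))
    (F := fun t g r => if t ∈ Set.Icc (0 : ℝ) 1 then ∑ k, (((bq B (x g) (y r) - bq B (x' g) (y r)) k : ℝ) : ℂ) *
      (∂_{(EuclideanSpace.single k (1 : ℝ) : EuclideanSpace ℝ p)} Ψ) (bq B (fun i => x' g i + t * (x g i - x' g i)) (y r)) else 0)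
    (C := fun _ => (∑ k, ∑ i, ∑ j, |B k i j| * C k) * η) ?_ ?_ ?_
  · have e1 : (∫ _ in Set.Icc (0 : ℝ) 1, (∑ k, ∑ i, ∑ j, |B k i j| * C k) * η) = (∑ k, ∑ i, ∑ j, |B k i j| * C k) * η := by
      rw [integral_const]
      simp
    rw [e1] at h3
    convert! h3 using 3 with g r
    rw [hint g r]
    exact setIntegral_congr_fun measurableSet_Icc fun t ht => by rw [if_pos ht]
  · intro t
    by_cases ht : t ∈ Set.Icc (0 : ℝ) 1
    · simp only [if_pos ht]
      exact hk t ht
    · simp only [if_neg ht]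
      exact bn2_zero.mono (hk 0 ⟨le_rfl, zero_le_one⟩).1
  · intro g r
    have h4 : IntegrableOn (fun t : ℝ => ∑ k, (((bq B (x g) (y r) - bq B (x' g) (y r)) k : ℝ) : ℂ) *
        (∂_{(EuclideanSpace.single k (1 : ℝ) : EuclideanSpace ℝ p)} Ψ) (bq B (fun i => x' g i + t * (x g i - x' g i)) (y r)))
        (Set.Icc (0 : ℝ) 1) := (hcont g r).continuousOn.integrableOn_Icc
    refine h4.congr_fun (fun t ht => ?_) measurableSet_Icc
    simp only [if_pos ht]
  · exact integrable_const _

end Pool.Agent.Helper35.NI
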