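import Pool.Agent.Helper35.NI.Abs

/-!
# Project FQ (MP_0f6f3f_an), layer NI: the operators of finitely supported functions

`vv x = ∑ x g • dl g`, `Lc x = ∑ x g • lam g`, `Rc x = ∑ conj (x g) • rho g`: `Lc x (dl 1) = vv x`, `Lc` and `Rc` commute, `Rc y* (Rc x (dl 1)) = Lc x* (vv y)`, and for contractions both operators are contractions.
-/

set_option autoImplicit false
set_option linter.unusedSectionVars false

open MeasureTheory Filter Topology Matrix
open scoped ComplexConjugate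

namespace Pool.Agent.Helper35.NI

open Pool.Agent.Helper20.TB Pool.Agent.Helper84.NI Pool.Agent.Helper84.GVN Pool.Agent.Helper90.RK Pool.Agent.Helper96.RK

variable {G : Type} [Group G]

/-- The vector. -/
noncomputable def vv (x : G →₀ ℂ) : L2 G := ∑ g ∈ x.support, x g • (dl g : L2 G)

/-- The right translation. -/
noncomputable def rh (g : G) : L2 G →L[ℂ] L2 G := ((rhoU g : L2 G ≃ₗᵢ[ℂ] L2 G).toContinuousLinearEquiv : L2 G →L[ℂ] L2 G)

theorem rh_apply (g : G) (f : L2 G) : rh g f = rhoU g f := rfl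

/-- The left operator. -/
noncomputable def Lc (x : G →₀ ℂ) : L2 G →L[ℂ] L2 G := ∑ g ∈ x.support, x g • lam g

/-- The right operator. -/
noncomputable def Rc (x : G →₀ ℂ) : L2 G →L[ℂ] L2 G := ∑ g ∈ x.support, conj (x g) • rh g

theorem Lc_app (x : G →₀ ℂ) (f : L2 G) : Lc x f = ∑ g ∈ x.support, x g • lamU g f := by
  unfold Lc
  rw [_root_.sum_apply]
  rfl

theorem Rc_app (x : G →₀ ℂ) (f : L2 G) : Rc x f = ∑ g ∈ x.support, conj (x g) • rhoU g f := by
  unfold Rc
  rw [_root_.sum_apply]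
  rfl

theorem sum_coe {ι : Type} (s : Finset ι) (f : ι → L2 G) (k : G) : (∑ i ∈ s, f i : L2 G) k = ∑ i ∈ s, f i k := by
  classical
  induction s using Finset.induction_on with
  | empty => rfl
  | insert i s hi ih =>
    rw [Finset.sum_insert hi, Finset.sum_insert hi, ← ih]
    rfl

theorem vv_apply (x : G →₀ ℂ) (k : G) : vv x k = x k := by
  classical
  unfold vv
  rw [sum_coe]
  have h1 : ∀ g, (x g • (dl g : L2 G)) k = if k = g then x g else 0 := by
    intro g
    change x g * (dl g : L2 G) k = _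
    rw [dl_apply]
    split_ifs <;> simp
  simp only [h1]
  rw [Finset.sum_ite_eq]
  split_ifs with h
  · rfl
  · exact (Finsupp.notMem_support_iff.1 h).symm

theorem norm_vv_sq (x : G →₀ ℂ) : ‖vv x‖ ^ 2 = ∑ g ∈ x.support, ‖x g‖ ^ 2 := by
  rw [norm_sq_eq]
  simp only [vv_apply]
  exact tsum_eq_sum fun g hg => by rw [Finsupp.notMem_support_iff.1 hg]; simp

theorem Lc_one (x : G →₀ ℂ) : Lc x (dl 1) = vv x := by
  rw [Lc_app]
  unfold vv
  exact Finset.sum_congr rfl fun g _ => by rw [lamU_dl, mul_one]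

theorem Lc_Rc (x y : G →₀ ℂ) (f : L2 G) : Lc x (Rc y f) = Rc y (Lc x f) := by
  rw [Lc_app, Rc_app, Rc_app, Lc_app]
  simp only [map_sum, map_smul, Finset.smul_sum]
  rw [Finset.sum_comm]
  refine Finset.sum_congr rfl fun h _ => Finset.sum_congr rfl fun g _ => ?_
  rw [lam_rho, smul_comm]

theorem adj_Lc (x : G →₀ ℂ) : ContinuousLinearMap.adjoint (Lc x) = ∑ g ∈ x.support, conj (x g) • lam g⁻¹ := by
  unfold Lc
  rw [map_sum]
  refine Finset.sum_congr rfl fun g _ => ?_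
  rw [map_smulₛₗ, ← ContinuousLinearMap.star_eq_adjoint, star_lam]

theorem adj_rh (g : G) : ContinuousLinearMap.adjoint (rh g : L2 G →L[ℂ] L2 G) = rh g⁻¹ := by
  symm
  rw [ContinuousLinearMap.eq_adjoint_iff]
  intro x y
  have h1 := (rhoU g : L2 G ≃ₗᵢ[ℂ] L2 G).inner_map_map (rhoU g⁻¹ x) y
  have h2 : (rhoU g : L2 G ≃ₗᵢ[ℂ] L2 G) (rhoU g⁻¹ x) = x := by
    have h3 : (rhoU g : L2 G ≃ₗᵢ[ℂ] L2 G) (rhoU g⁻¹ x) = (rhoU g * rhoU g⁻¹ : L2 G ≃ₗᵢ[ℂ] L2 G) x := rfl
    rw [h3, ← rhoU_mul, mul_inv_cancel, rhoU_one]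
    rfl
  rw [h2] at h1
  exact h1.symm

theorem adj_Rc (x : G →₀ ℂ) : ContinuousLinearMap.adjoint (Rc x) = ∑ g ∈ x.support, x g • rh g⁻¹ := by
  unfold Rc
  rw [map_sum]
  refine Finset.sum_congr rfl fun g _ => ?_
  rw [map_smulₛₗ, adj_rh]
  congr 1
  exact Complex.conj_conj _

theorem Lc_adjRc (x y : G →₀ ℂ) (f : L2 G) :
    Lc x (ContinuousLinearMap.adjoint (Rc y) f) = ContinuousLinearMap.adjoint (Rc y) (Lc x f) := by
  rw [adj_Rc, _root_.sum_apply, _root_.sum_apply, Lc_app, Lc_app]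
  simp only [map_sum, _root_.smul_apply, rh_apply, Finset.smul_sum, map_smul]
  rw [Finset.sum_comm]
  refine Finset.sum_congr rfl fun h _ => Finset.sum_congr rfl fun g _ => ?_
  rw [lam_rho, smul_comm]

/-- The coefficients of the adjoint. -/
theorem adj_Lc_apply (x : G →₀ ℂ) (f : L2 G) (s : G) : ContinuousLinearMap.adjoint (Lc x) f s = ∑ g ∈ x.support, conj (x g) * f (g * s) := by
  rw [adj_Lc, _root_.sum_apply, sum_coe]
  refine Finset.sum_congr rfl fun g _ => ?_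
  change conj (x g) * lam g⁻¹ f s = _
  rw [lam_apply, inv_inv]

theorem Rc_Rc (x y : G →₀ ℂ) : ContinuousLinearMap.adjoint (Rc y) (Rc x (dl 1)) = ContinuousLinearMap.adjoint (Lc x) (vv y) := by
  rw [adj_Rc, adj_Lc, _root_.sum_apply, _root_.sum_apply, Rc_app]
  unfold vv
  simp only [map_sum, _root_.smul_apply, rh_apply, map_smul, lam_eq, rhoU_dl, lamU_dl, one_mul, inv_inv]
  rw [Finset.sum_comm]
  refine Finset.sum_congr rfl fun h _ => Finset.sum_congr rfl fun g _ => ?_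
  rw [smul_comm]

/-- The adjoint of `Lc c` is a contraction. -/
theorem norm_adj_Lc {c : G →₀ ℂ} (hc : Con c) (f : L2 G) : ‖ContinuousLinearMap.adjoint (Lc c) f‖ ≤ ‖f‖ := by
  classical
  have h1 : ∀ ξ : G →₀ ℂ, ‖ContinuousLinearMap.adjoint (Lc c) (vv ξ)‖ ≤ ‖vv ξ‖ := by
    intro ξ
    refine (sq_le_sq₀ (norm_nonneg _) (norm_nonneg _)).1 ?_
    rw [norm_vv_sq, norm_sq_eq]
    refine Real.tsum_le_of_sum_le (fun _ => by positivity) fun T => ?_
    simp only [adj_Lc_apply, vv_apply]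
    exact hc ξ T
  -- density
  have h2 : f ∈ closure (Set.range (vv : (G →₀ ℂ) → L2 G)) := by
    refine mem_closure_of_tendsto (hasSum_dl f) (Filter.Eventually.of_forall fun T => ?_)
    refine ⟨Finsupp.onFinset T (fun g => if g ∈ T then f g else 0) fun g hg => ?_, ?_⟩
    · by_contra h
      exact hg (if_neg h)
    · refine l2_ext fun k => ?_
      rw [vv_apply, sum_coe]
      change (if k ∈ T then f k else 0) = ∑ g ∈ T, f g * (dl g : L2 G) k
      simp only [dl_apply, mul_ite, mul_one, mul_zero]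
      rw [Finset.sum_ite_eq]
  have h3 : IsClosed {f : L2 G | ‖ContinuousLinearMap.adjoint (Lc c) f‖ ≤ ‖f‖} :=
    isClosed_le ((ContinuousLinearMap.adjoint (Lc c)).continuous.norm) continuous_norm
  refine (closure_minimal ?_ h3) h2
  rintro _ ⟨ξ, rfl⟩
  exact h1 ξ

theorem norm_Lc {c : G →₀ ℂ} (hc : Con c) (f : L2 G) : ‖Lc c f‖ ≤ ‖f‖ := by
  have h1 : ‖ContinuousLinearMap.adjoint (Lc c)‖ ≤ 1 :=
    ContinuousLinearMap.opNorm_le_bound _ zero_le_one fun x => by rw [one_mul]; exact norm_adj_Lc hc x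
  have h2 : ‖Lc c‖ ≤ 1 := by
    rw [← ContinuousLinearMap.adjoint.norm_map (Lc c)]
    exact h1
  refine ((Lc c).le_opNorm f).trans ?_
  nlinarith [norm_nonneg f]

/-- The right operator is conjugate to the left one. -/
theorem Rc_conj (x : G →₀ ℂ) (f : L2 G) : Rc x f = cj (ivU G (Lc x (cj (ivU G f)))) := by
  refine l2_ext fun k => ?_
  rw [cj_apply, ivU_apply, Lc_app, Rc_app, sum_coe, sum_coe, map_sum]
  refine Finset.sum_congr rfl fun g _ => ?_
  change conj (x g) * rhoU g f k = conj (x g * lamU g (cj (ivU G f)) k⁻¹)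
  rw [map_mul, rhoU_apply, lamU_apply, cj_apply, ivU_apply, Complex.conj_conj, _root_.mul_inv_rev, inv_inv, inv_inv]

theorem norm_Rc {c : G →₀ ℂ} (hc : Con c) (f : L2 G) : ‖Rc c f‖ ≤ ‖f‖ := by
  rw [Rc_conj, norm_cj, LinearIsometryEquiv.norm_map]
  refine (norm_Lc hc _).trans ?_
  rw [norm_cj, LinearIsometryEquiv.norm_map]

end Pool.Agent.Helper35.NI
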