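import Pool.Agent.Helper35.NI.Near

/-!
# Project FQ (MP_0f6f3f_an), layer NI, block NI-1: smooth functions of `Yᵀ X Y` and `u + v`

PROOF of `bn2_smooth`. `exists_schwartz` (`Helper20/TB/Sch.lean`): `Ψ : 𝓢(EP I n J, ℂ)` with `Ψ = Φ` on `K`. All the coordinates of the point are sums of products `∑_t x g ⟨k, t⟩ * y r ⟨k, t⟩`, `t` in a finite type which depends on the coordinate `k`: `bn2_gen`, which
is `bn2_schwartz` and `bn2_near` with the form `bq B`, `B k q s = A ^ 2` if `q = s` and `q.1 = k` (`bq_diag`). If `g ∉ S` replace `x g` by `0`, if `r ∉ R` replace `y r` by `0`: the kernels do not change after multiplication by the indicators of `S` and `R` (`BN2.mul`).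
-/

set_option autoImplicit false
set_option linter.unusedSectionVars false

open MeasureTheory Filter Topology Matrix
open scoped ComplexConjugate SchwartzMap ContDiff

namespace Pool.Agent.Helper35.NI

open Pool.Agent.Helper20.TB

section Gen

variable {p : Type} [Fintype p] {τ : p → Type} [∀ k, Fintype (τ k)]

open Classical in
theorem bq_diag (M : ℝ) (x y : (Σ k, τ k) → ℝ) :
    bq (fun (k : p) (q s : Σ k, τ k) => if q = s ∧ q.1 = k then M else 0) x y =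
      WithLp.toLp 2 fun k => M * ∑ t : τ k, x ⟨k, t⟩ * y ⟨k, t⟩ := by
  unfold bq
  congr 1
  funext k
  have h1 : ∀ q : Σ k, τ k, ∑ s, (if q = s ∧ q.1 = k then M else 0) * y s = if q.1 = k then M * y q else 0 := by
    intro q
    rw [Finset.sum_eq_single q (fun s _ hs => by rw [if_neg (fun h => hs h.1.symm), zero_mul])
      (fun h => absurd (Finset.mem_univ _) h)]
    by_cases h : q.1 = k
    · rw [if_pos ⟨rfl, h⟩, if_pos h]
    · rw [if_neg (fun h' => h h'.2), if_neg h, zero_mul]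
  simp only [h1]
  rw [Fintype.sum_sigma, Finset.sum_eq_single k (fun k' _ hk' => ?_) (fun h => absurd (Finset.mem_univ _) h), Finset.mul_sum]
  · refine Finset.sum_congr rfl fun t _ => ?_
    rw [if_pos rfl]
    ring
  · refine Finset.sum_eq_zero fun t _ => ?_
    rw [if_neg hk', mul_zero]

open Classical in
theorem bn2_gen {U K : Set (EuclideanSpace ℝ p)} (hU : IsOpen U) {Φ : EuclideanSpace ℝ p → ℝ} (hΦ : ContDiffOn ℝ ∞ Φ U) (hK : IsCompact K)
    (hKU : K ⊆ U) {A : ℝ} (hA : 0 < A) :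
    ∃ C : ℝ, 0 ≤ C ∧ ∀ (G : Type) [Group G] (x x' y : G → (Σ k, τ k) → ℝ) (S R : Set G) (η : ℝ),
      (∀ g ∈ S, ∀ q, |x g q| ≤ A) → (∀ g ∈ S, ∀ q, |x' g q| ≤ A) → (∀ r ∈ R, ∀ q, |y r q| ≤ A) →
      (∀ g ∈ S, ∀ r ∈ R, (WithLp.toLp 2 fun k => ∑ t : τ k, x g ⟨k, t⟩ * y r ⟨k, t⟩ : EuclideanSpace ℝ p) ∈ K) →
      (∀ g ∈ S, ∀ r ∈ R, (WithLp.toLp 2 fun k => ∑ t : τ k, x' g ⟨k, t⟩ * y r ⟨k, t⟩ : EuclideanSpace ℝ p) ∈ K) → 0 ≤ η →
      (∀ g ∈ S, ∀ q, |x g q - x' g q| ≤ η) →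
      BN2 (fun g r => if g ∈ S ∧ r ∈ R then ((Φ (WithLp.toLp 2 fun k => ∑ t : τ k, x g ⟨k, t⟩ * y r ⟨k, t⟩) : ℝ) : ℂ) else 0) C ∧
      BN2 (fun g r => if g ∈ S ∧ r ∈ R then ((Φ (WithLp.toLp 2 fun k => ∑ t : τ k, x g ⟨k, t⟩ * y r ⟨k, t⟩) -
        Φ (WithLp.toLp 2 fun k => ∑ t : τ k, x' g ⟨k, t⟩ * y r ⟨k, t⟩) : ℝ) : ℂ) else 0) (C * η) := by
  obtain ⟨Ψ, hΨ⟩ := exists_schwartz hU hΦ hK hKU
  set B : p → (Σ k, τ k) → (Σ k, τ k) → ℝ := fun (k : p) (q s : Σ k, τ k) => if q = s ∧ q.1 = k then A ^ 2 else 0 with hB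
  obtain ⟨C1, hC1⟩ := bn2_schwartz B Ψ
  obtain ⟨C2, hC20, hC2⟩ := bn2_near B Ψ
  have hC10 : 0 ≤ C1 := (hC1 Unit (fun _ _ => 0) (fun _ _ => 0) (by simp) (by simp)).1
  refine ⟨C1 + C2 / A, by positivity, fun G _ x x' y S R η hx hx' hy hK1 hK2 hη hd => ?_⟩
  set X : (G → (Σ k, τ k) → ℝ) → G → (Σ k, τ k) → ℝ := fun x g q => if g ∈ S then x g q / A else 0 with hX
  set Y : G → (Σ k, τ k) → ℝ := fun r q => if r ∈ R then y r q / A else 0 with hY
  have hX1 : ∀ x : G → (Σ k, τ k) → ℝ, (∀ g ∈ S, ∀ q, |x g q| ≤ A) → ∀ g q, |X x g q| ≤ 1 := by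
    intro x hx g q
    simp only [hX]
    split_ifs with h
    · rw [abs_div, abs_of_pos hA, div_le_one hA]
      exact hx g h q
    · simp
  have hY1 : ∀ r q, |Y r q| ≤ 1 := by
    intro r q
    simp only [hY]
    split_ifs with h
    · rw [abs_div, abs_of_pos hA, div_le_one hA]
      exact hy r h q
    · simp
  have hXd : ∀ g q, |X x g q - X x' g q| ≤ η / A := by
    intro g q
    simp only [hX]
    split_ifs with h
    · rw [← sub_div, abs_div, abs_of_pos hA]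
      exact div_le_div_of_nonneg_right (hd g h q) hA.le
    · simpa using div_nonneg hη hA.le
  have hbq : ∀ (x : G → (Σ k, τ k) → ℝ), ∀ g ∈ S, ∀ r ∈ R, bq B (X x g) (Y r) = WithLp.toLp 2 fun k => ∑ t : τ k, x g ⟨k, t⟩ * y r ⟨k, t⟩ := by
    intro x g hg r hr
    rw [hB, bq_diag]
    congr 1
    funext k
    rw [Finset.mul_sum]
    refine Finset.sum_congr rfl fun t _ => ?_
    simp only [hX, hY, if_pos hg, if_pos hr]
    field_simp
  have hi : ∀ (a : G → G → ℂ) (b : G → G → ℂ), (∀ g ∈ S, ∀ r ∈ R, a g r = b g r) →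
      (fun g r => if g ∈ S ∧ r ∈ R then a g r else 0) = fun g r => (if g ∈ S then (1 : ℂ) else 0) * (if r ∈ R then (1 : ℂ) else 0) * b g r := by
    intro a b hab
    funext g r
    by_cases hg : g ∈ S
    · by_cases hr : r ∈ R
      · rw [if_pos ⟨hg, hr⟩, if_pos hg, if_pos hr, hab g hg r hr, one_mul, one_mul]
      · rw [if_neg (fun h => hr h.2), if_neg hr, mul_zero, zero_mul]
    · rw [if_neg (fun h => hg h.1), if_neg hg, zero_mul, zero_mul]
  have hi1 : ∀ g, ‖(if g ∈ S then (1 : ℂ) else 0)‖ ≤ 1 := fun g => by split_ifs <;> simp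
  have hi2 : ∀ r, ‖(if r ∈ R then (1 : ℂ) else 0)‖ ≤ 1 := fun r => by split_ifs <;> simp
  constructor
  · rw [hi _ (fun g r => Ψ (bq B (X x g) (Y r))) fun g hg r hr => ?_]
    · refine ((hC1 G (X x) Y (hX1 x hx) hY1).mul hi1 hi2).mono ?_
      rw [one_mul, one_mul]
      have : 0 ≤ C2 / A := by positivity
      linarith
    · rw [hbq x g hg r hr, hΨ _ (hK1 g hg r hr)]
  · rw [hi _ (fun g r => Ψ (bq B (X x g) (Y r)) - Ψ (bq B (X x' g) (Y r))) fun g hg r hr => ?_]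
    · refine ((hC2 G (X x) (X x') Y (η / A) (hX1 x hx) (hX1 x' hx') hY1 hXd).mul hi1 hi2).mono ?_
      rw [one_mul, one_mul]
      have h1 : C2 * (η / A) = C2 / A * η := by ring
      rw [h1]
      exact mul_le_mul_of_nonneg_right (by linarith) hη
    · rw [hbq x g hg r hr, hbq x' g hg r hr, hΨ _ (hK1 g hg r hr), hΨ _ (hK2 g hg r hr), Complex.ofReal_sub]

end Gen

/-- The parameter space: matrices and numbers. -/
abbrev EP (I : Type) (n : I → ℕ) (J : Type) := EuclideanSpace ℝ ((Σ i : I, Fin (n i) × Fin (n i)) ⊕ J)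

/-- The point of the parameter space. -/
noncomputable def pt {I : Type} {n : I → ℕ} {J : Type} (M : ∀ i, Matrix (Fin (n i)) (Fin (n i)) ℝ) (z : J → ℝ) : EP I n J :=
  WithLp.toLp 2 (Sum.elim (fun q => M q.1 q.2.1 q.2.2) z)

/-- The index sets of the sums. -/
abbrev TT {I : Type} (n : I → ℕ) (J : Type) : ((Σ i : I, Fin (n i) × Fin (n i)) ⊕ J) → Type
  | Sum.inl q => Fin (n q.1) × Fin (n q.1)
  | Sum.inr _ => Bool

instance {I : Type} (n : I → ℕ) (J : Type) : ∀ k, Fintype (TT n J k)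
  | Sum.inl q => inferInstanceAs (Fintype (Fin (n q.1) × Fin (n q.1)))
  | Sum.inr _ => inferInstanceAs (Fintype Bool)

/-- The left factors. -/
def xx {I : Type} {n : I → ℕ} {J : Type} (X : ∀ i, Matrix (Fin (n i)) (Fin (n i)) ℝ) (u : J → ℝ) : (Σ k, TT n J k) → ℝ
  | ⟨Sum.inl q, t⟩ => X q.1 t.1 t.2
  | ⟨Sum.inr l, t⟩ => if t = false then u l else 1

/-- The right factors. -/
def yy {I : Type} {n : I → ℕ} {J : Type} (Y : ∀ i, Matrix (Fin (n i)) (Fin (n i)) ℝ) (v : J → ℝ) : (Σ k, TT n J k) → ℝ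
  | ⟨Sum.inl q, t⟩ => Y q.1 t.1 q.2.1 * Y q.1 t.2 q.2.2
  | ⟨Sum.inr l, t⟩ => if t = false then 1 else v l

theorem pt_eq {I : Type} {n : I → ℕ} {J : Type} (X Y : ∀ i, Matrix (Fin (n i)) (Fin (n i)) ℝ) (u v : J → ℝ) :
    pt (fun i => (Y i)ᵀ * X i * Y i) (fun l => u l + v l) =
      (WithLp.toLp 2 fun k => ∑ t : TT n J k, xx X u ⟨k, t⟩ * yy Y v ⟨k, t⟩ : EP I n J) := by
  unfold pt
  congr 1
  funext k
  rcases k with ⟨i, b, d⟩ | l
  · change ((Y i)ᵀ * X i * Y i) b d = ∑ t : Fin (n i) × Fin (n i), X i t.1 t.2 * (Y i t.1 b * Y i t.2 d)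
    rw [Fintype.sum_prod_type, Matrix.mul_apply, Finset.sum_comm]
    refine Finset.sum_congr rfl fun c _ => ?_
    rw [Matrix.mul_apply, Finset.sum_mul]
    refine Finset.sum_congr rfl fun a _ => ?_
    rw [Matrix.transpose_apply]
    ring
  · change u l + v l = ∑ t : Bool, (if t = false then u l else 1) * (if t = false then 1 else v l)
    simp [add_comm]

open Classical in
theorem bn2_smooth {I : Type} [Fintype I] {n : I → ℕ} {J : Type} [Fintype J] {U K : Set (EP I n J)} (hU : IsOpen U) {Φ : EP I n J → ℝ}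
    (hΦ : ContDiffOn ℝ ∞ Φ U) (hK : IsCompact K) (hKU : K ⊆ U) (A : ℝ) :
    ∃ C : ℝ, 0 ≤ C ∧ ∀ (G : Type) [Group G] (X X' Y : G → ∀ i, Matrix (Fin (n i)) (Fin (n i)) ℝ) (u u' v : G → J → ℝ) (S R : Set G) (η : ℝ),
      (∀ g ∈ S, ∀ i a b, |X g i a b| ≤ A) → (∀ g ∈ S, ∀ i a b, |X' g i a b| ≤ A) → (∀ r ∈ R, ∀ i a b, |Y r i a b| ≤ A) →
      (∀ g ∈ S, ∀ l, |u g l| ≤ A) → (∀ g ∈ S, ∀ l, |u' g l| ≤ A) → (∀ r ∈ R, ∀ l, |v r l| ≤ A) →
      (∀ g ∈ S, ∀ r ∈ R, pt (fun i => (Y r i)ᵀ * X g i * Y r i) (fun l => u g l + v r l) ∈ K) →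
      (∀ g ∈ S, ∀ r ∈ R, pt (fun i => (Y r i)ᵀ * X' g i * Y r i) (fun l => u' g l + v r l) ∈ K) → 0 ≤ η →
      (∀ g ∈ S, ∀ i a b, |X g i a b - X' g i a b| ≤ η) → (∀ g ∈ S, ∀ l, |u g l - u' g l| ≤ η) →
      BN2 (fun g r => if g ∈ S ∧ r ∈ R then ((Φ (pt (fun i => (Y r i)ᵀ * X g i * Y r i) (fun l => u g l + v r l)) : ℝ) : ℂ) else 0) C ∧
      BN2 (fun g r => if g ∈ S ∧ r ∈ R then ((Φ (pt (fun i => (Y r i)ᵀ * X g i * Y r i) (fun l => u g l + v r l)) -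
        Φ (pt (fun i => (Y r i)ᵀ * X' g i * Y r i) (fun l => u' g l + v r l)) : ℝ) : ℂ) else 0) (C * η) := by
  set A1 : ℝ := max A 1 with hA1
  have h1A : 1 ≤ A1 := le_max_right _ _
  have hAA : A ≤ A1 := le_max_left _ _
  have h0A : 0 < A1 := lt_of_lt_of_le one_pos h1A
  have hA2 : A1 ≤ A1 ^ 2 := by nlinarith
  have h12 : 1 ≤ A1 ^ 2 := h1A.trans hA2
  obtain ⟨C, hC0, hC⟩ := bn2_gen (τ := TT n J) hU hΦ hK hKU (A := A1 ^ 2) (by positivity)
  refine ⟨C, hC0, fun G _ X X' Y u u' v S R η hX hX' hY hu hu' hv hK1 hK2 hη hd hd' => ?_⟩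
  have hxx : ∀ (X : G → ∀ i, Matrix (Fin (n i)) (Fin (n i)) ℝ) (u : G → J → ℝ), (∀ g ∈ S, ∀ i a b, |X g i a b| ≤ A) →
      (∀ g ∈ S, ∀ l, |u g l| ≤ A) → ∀ g ∈ S, ∀ q, |xx (X g) (u g) q| ≤ A1 ^ 2 := by
    intro X u hX hu g hg q
    rcases q with ⟨⟨i, b, d⟩ | l, t⟩
    · exact (hX g hg i t.1 t.2).trans (hAA.trans hA2)
    · change |if t = false then u g l else 1| ≤ A1 ^ 2
      split_ifs
      · exact (hu g hg l).trans (hAA.trans hA2)
      · rw [abs_one]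
        exact h12
  have hyy : ∀ r ∈ R, ∀ q, |yy (Y r) (v r) q| ≤ A1 ^ 2 := by
    intro r hr q
    rcases q with ⟨⟨i, b, d⟩ | l, t⟩
    · change |Y r i t.1 b * Y r i t.2 d| ≤ A1 ^ 2
      rw [abs_mul, pow_two]
      exact mul_le_mul ((hY r hr i t.1 b).trans hAA) ((hY r hr i t.2 d).trans hAA) (abs_nonneg _) h0A.le
    · change |if t = false then 1 else v r l| ≤ A1 ^ 2
      split_ifs
      · rw [abs_one]
        exact h12
      · exact (hv r hr l).trans (hAA.trans hA2)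
  have hdd : ∀ g ∈ S, ∀ q, |xx (X g) (u g) q - xx (X' g) (u' g) q| ≤ η := by
    intro g hg q
    rcases q with ⟨⟨i, b, d⟩ | l, t⟩
    · exact hd g hg i t.1 t.2
    · change |(if t = false then u g l else 1) - (if t = false then u' g l else 1)| ≤ η
      split_ifs
      · exact hd' g hg l
      · rw [sub_self, abs_zero]
        exact hη
  have h := hC G (fun g => xx (X g) (u g)) (fun g => xx (X' g) (u' g)) (fun r => yy (Y r) (v r)) S R η (hxx X u hX hu) (hxx X' u' hX' hu') hyy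
    (fun g hg r hr => by rw [← pt_eq]; exact hK1 g hg r hr) (fun g hg r hr => by rw [← pt_eq]; exact hK2 g hg r hr) hη hdd
  simp only [← pt_eq] at h
  exact h

end Pool.Agent.Helper35.NI
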