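import Pool.Agent.Helper35.NI.Abs

/-!
# Project FQ (MP_0f6f3f_an), layer NI, block NI-2: from contractions of finite support to unitaries

PROOF of `ni_unitary`. Compare `tbi_unitary`, `Helper20/TB/KapU.lean`. `L2 G = lp (fun _ => ℂ) 2`. `exists_con hu 1 ε` (`Helper20/TB/Kap.lean`) gives `c : G →₀ ℂ` with `Con c` and `‖∑ c g • dl g - v (dl 1)‖ ≤ ε1`; for the right factor
take `c'` for the unitary `u.symm` (it commutes with the right translations: `CommR`): `‖∑ c' g • dl g - u.symm (dl 1)‖ ≤ ε1`. The hypotheses of `NIF` with `δ`: `∑ ‖c g‖² = ‖∑ c g • dl g‖² ≥ (1 - ε1)²`, `nc c (1 - w) = ‖mulop (1 - w) (∑ c g • dl g)‖ ≤ δ/2 + ε1`, etc.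
(`(u.symm (dl 1)) h = conj (u (dl 1) h⁻¹)`: this is why `w'` and `N` are evaluated at `h`, and the hypotheses of the theorem at `k = h⁻¹`; there is a lemma for coefficients of the inverse, look for `cf` in `Helper84/NI`, `Helper84/GVN`). The vector `v (u (dl 1))` has the coefficients
`(v (u (dl 1))) k = inner (u.symm-translate)`: `= ∑' g, (v (dl 1)) g * conj ((u.symm (dl 1)) (k⁻¹ g))`; for every finite `T` the sums `∑_{k ∈ T} ‖.‖²` converge when `ε1 → 0` (each coefficient converges by Cauchy-Schwarz), so the bound `ε²` passes to the limit, and then to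
`‖ind ℂ S (v (u (dl 1)))‖² = ∑' k ∈ S` (`hasSum_sq`, `sum_le_hasSum` / `tsum_le_of_sum_le`).
-/

set_option autoImplicit false
set_option linter.unusedSectionVars false

open MeasureTheory Filter Topology Matrix
open scoped ComplexConjugate

namespace Pool.Agent.Helper35.NI

open Pool.Agent.Helper20.TB Pool.Agent.Helper84.NI Pool.Agent.Helper84.GVN Pool.Agent.Helper90.RK Pool.Agent.Helper96.RK

variable {G : Type} [Group G]

private theorem fin_apply (c : G →₀ ℂ) (k : G) : (∑ g ∈ c.support, c g • (dl g : L2 G)) k = c k := by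
  classical
  rw [← inner_dl_left, inner_sum]
  have h1 : ∀ g ∈ c.support, inner ℂ (dl k : L2 G) (c g • (dl g : L2 G)) = if g = k then c g else 0 := by
    intro g _
    rw [inner_smul_right, inner_dl_left, dl_apply]
    split_ifs with h2 h3 h3
    · rw [mul_one]
    · exact absurd h2.symm h3
    · exact absurd h3.symm h2
    · rw [mul_zero]
  rw [Finset.sum_congr rfl h1, Finset.sum_ite_eq']
  split_ifs with h2
  · rfl
  · exact (Finsupp.notMem_support_iff.1 h2).symm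

private theorem tsum_fin (c : G →₀ ℂ) (e : G → ℂ) : ∑' g, ‖e g * c g‖ ^ 2 = ∑ g ∈ c.support, ‖e g * c g‖ ^ 2 :=
  tsum_eq_sum fun g hg => by
    rw [Finsupp.notMem_support_iff.1 hg, mul_zero, norm_zero]
    norm_num

private theorem nc_eq (c : G →₀ ℂ) {e : G → ℂ} (he : ∀ g, ‖e g‖ ≤ 1) :
    nc c e = ‖mulop e (∑ g ∈ c.support, c g • (dl g : L2 G))‖ := by
  unfold nc
  rw [← tsum_fin c e, ← Real.sqrt_sq (norm_nonneg (mulop e (∑ g ∈ c.support, c g • (dl g : L2 G)))), norm_sq_eq]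
  congr 1
  refine tsum_congr fun g => ?_
  rw [Pool.Agent.Helper78.BM.mulop_app he, fin_apply]

private theorem nc_ind (c : G →₀ ℂ) (A : Set G) :
    nc c (Set.indicator A fun _ => 1) = ‖ind ℂ A (∑ g ∈ c.support, c g • (dl g : L2 G))‖ := by
  classical
  unfold nc
  rw [← tsum_fin c (Set.indicator A fun _ => 1), ← Real.sqrt_sq (norm_nonneg (ind ℂ A (∑ g ∈ c.support, c g • (dl g : L2 G)))), norm_sq_eq]
  congr 1
  refine tsum_congr fun g => ?_
  rw [ind_apply, fin_apply]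
  by_cases h : g ∈ A
  · rw [Set.indicator_of_mem h, if_pos h, one_mul]
  · rw [Set.indicator_of_notMem h, if_neg h, zero_mul]

private theorem symm_apply {u : L2 G ≃ₗᵢ[ℂ] L2 G} (hu : CommR u) (h : G) : u.symm (dl 1) h = conj (u (dl 1) h⁻¹) := by
  rw [← inner_dl_left, ← LinearIsometryEquiv.inner_map_map u, LinearIsometryEquiv.apply_symm_apply, inner_dl_right, hu.apply_dl, one_mul]
  rfl

private theorem commR_symm {u : L2 G ≃ₗᵢ[ℂ] L2 G} (hu : CommR u) : CommR u.symm := by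
  intro k f
  apply u.injective
  rw [LinearIsometryEquiv.apply_symm_apply, hu, LinearIsometryEquiv.apply_symm_apply]

/-- The coefficients of the product. -/
private theorem coef {v u : L2 G ≃ₗᵢ[ℂ] L2 G} (hv : CommR v) (hu : CommR u) (k : G) :
    v (u (dl 1)) k = inner ℂ (lamU k (u.symm (dl 1))) (v (dl 1)) := by
  have h1 := hasSum_clm (v.toContinuousLinearEquiv : L2 G →L[ℂ] L2 G) (u (dl 1)) k
  have h2 := lp.hasSum_inner (𝕜 := ℂ) (lamU k (u.symm (dl 1)) : L2 G) (v (dl 1))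
  let e : G ≃ G :=
    { toFun := fun g => g⁻¹ * k
      invFun := fun h => k * h⁻¹
      left_inv := fun g => by group
      right_inv := fun h => by group }
  have h3 := (Equiv.hasSum_iff e).2 h1
  refine h3.unique ?_
  convert! h2 using 2 with g
  simp only [Function.comp_apply, e, Equiv.coe_fn_mk]
  change u (dl 1) (g⁻¹ * k) * v (dl (g⁻¹ * k)) k = _
  rw [hv.apply_dl, lamU_apply, symm_apply hu]
  change _ = v (dl 1) g * conj (conj (u (dl 1) (k⁻¹ * g)⁻¹))
  rw [Complex.conj_conj]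
  have e1 : k * (g⁻¹ * k)⁻¹ = g := by group
  have e2 : (k⁻¹ * g)⁻¹ = g⁻¹ * k := by group
  rw [e1, e2, mul_comm]
  rfl

private theorem coef_fin (c c' : G →₀ ℂ) (k : G) :
    inner ℂ (lamU k (∑ g ∈ c'.support, c' g • (dl g : L2 G))) (∑ g ∈ c.support, c g • (dl g : L2 G)) =
      ∑ g ∈ c.support, c g * conj (c' (k⁻¹ * g)) := by
  rw [inner_sum]
  refine Finset.sum_congr rfl fun g _ => ?_
  rw [inner_smul_right, inner_dl_right, lamU_apply, fin_apply]

private theorem norm_conj_inv {u : L2 G ≃ₗᵢ[ℂ] L2 G} (hu : CommR u) {f : G → ℂ} (hf : ∀ g, ‖f g‖ ≤ 1) :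
    ‖mulop f (u.symm (dl 1))‖ = ‖mulop (fun k => f k⁻¹) (u (dl 1))‖ := by
  rw [← Real.sqrt_sq (norm_nonneg (mulop f (u.symm (dl 1)))), ← Real.sqrt_sq (norm_nonneg (mulop (fun k => f k⁻¹) (u (dl 1)))),
    norm_sq_eq, norm_sq_eq]
  congr 1
  rw [← (Equiv.inv G).tsum_eq fun i => ‖mulop f (u.symm (dl 1)) i‖ ^ 2]
  refine tsum_congr fun g => ?_
  rw [Pool.Agent.Helper78.BM.mulop_app hf, Pool.Agent.Helper78.BM.mulop_app (fun g => hf g⁻¹), Equiv.inv_apply, symm_apply hu, inv_inv,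
    norm_mul, norm_mul, RCLike.norm_conj]

private theorem norm_ind_inv {u : L2 G ≃ₗᵢ[ℂ] L2 G} (hu : CommR u) (A : Set G) :
    ‖ind ℂ A (u.symm (dl 1))‖ = ‖ind ℂ {k | k⁻¹ ∈ A} (u (dl 1))‖ := by
  classical
  rw [← Real.sqrt_sq (norm_nonneg (ind ℂ A (u.symm (dl 1)))), ← Real.sqrt_sq (norm_nonneg (ind ℂ {k | k⁻¹ ∈ A} (u (dl 1)))),
    norm_sq_eq, norm_sq_eq]
  congr 1
  rw [← (Equiv.inv G).tsum_eq fun i => ‖(ind ℂ A (u.symm (dl 1)) : L2 G) i‖ ^ 2]
  refine tsum_congr fun g => ?_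
  rw [ind_apply, ind_apply, Equiv.inv_apply, symm_apply hu, inv_inv]
  have hm : g ∈ {k : G | k⁻¹ ∈ A} ↔ g⁻¹ ∈ A := Iff.rfl
  by_cases h : g⁻¹ ∈ A
  · rw [if_pos h, if_pos (hm.2 h), RCLike.norm_conj]
  · rw [if_neg h, if_neg fun h1 => h (hm.1 h1)]

private theorem one_sub_le {w : G → ℝ} (hw : ∀ g, 0 ≤ w g ∧ w g ≤ 1) (g : G) : ‖((1 - w g : ℝ) : ℂ)‖ ≤ 1 := by
  rw [Complex.norm_real, Real.norm_eq_abs, abs_le]
  constructor <;> linarith [(hw g).1, (hw g).2]

private theorem norm_ind_le (A : Set G) (f : L2 G) : ‖ind ℂ A f‖ ≤ ‖f‖ := by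
  classical
  refine (sq_le_sq₀ (norm_nonneg _) (norm_nonneg _)).1 ?_
  rw [norm_sq_eq, norm_sq_eq]
  refine Summable.tsum_le_tsum (fun g => ?_) (hasSum_sq _).summable (hasSum_sq _).summable
  rw [ind_apply]
  split_ifs
  · exact le_rfl
  · rw [norm_zero, zero_pow two_ne_zero]
    exact sq_nonneg _

theorem ni_unitary {w w' : G → ℝ} (hw : ∀ g, 0 ≤ w g ∧ w g ≤ 1) (hw' : ∀ g, 0 ≤ w' g ∧ w' g ≤ 1) {N : Set G} {δ ε : ℝ} (hδ : 0 < δ) (hε : 0 ≤ ε)
    (h : NIF w w' N δ ε) {S : Set G} (hS : ∀ g k, w g ≠ 0 → w' k⁻¹ ≠ 0 → g * k ∉ S) {v u : L2 G ≃ₗᵢ[ℂ] L2 G} (hv : CommR v) (hu : CommR u)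
    (h1 : ‖mulop (fun g => ((1 - w g : ℝ) : ℂ)) (v (dl 1))‖ ≤ δ / 2) (h2 : ‖mulop (fun k => ((1 - w' k⁻¹ : ℝ) : ℂ)) (u (dl 1))‖ ≤ δ / 2)
    (h3 : ‖ind ℂ {k | k⁻¹ ∉ N} (u (dl 1))‖ ≤ δ / 2) : ‖ind ℂ S (v (u (dl 1)))‖ ≤ ε := by
  classical
  -- finite sums
  have key : ∀ T : Finset G, (∀ k ∈ T, k ∈ S) → ∑ k ∈ T, ‖v (u (dl 1)) k‖ ^ 2 ≤ ε ^ 2 := by
    intro T hT
    set η : ℕ → ℝ := fun n => δ / 2 * (1 / ((n : ℝ) + 1)) with hη
    have hη0 : ∀ n, 0 < η n := fun n => by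
      simp only [hη]
      positivity
    have hη1 : ∀ n, η n ≤ δ / 2 := fun n => by
      have h4 : 1 / ((n : ℝ) + 1) ≤ 1 := by
        rw [div_le_one (by positivity)]
        have : (0 : ℝ) ≤ n := Nat.cast_nonneg n
        linarith
      simp only [hη]
      nlinarith
    have hη2 : Tendsto η atTop (𝓝 0) := by
      have h4 := (tendsto_one_div_add_atTop_nhds_zero_nat (𝕜 := ℝ)).const_mul (δ / 2)
      rwa [mul_zero] at h4
    choose c hc hcv using fun n => exists_con hv 1 (hη0 n)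
    choose c' hc' hcv' using fun n => exists_con (commR_symm hu) 1 (hη0 n)
    set y : ℕ → L2 G := fun n => ∑ g ∈ (c n).support, c n g • (dl g : L2 G) with hy
    set y' : ℕ → L2 G := fun n => ∑ g ∈ (c' n).support, c' n g • (dl g : L2 G) with hy'
    have hyt : Tendsto y atTop (𝓝 (v (dl 1))) := by
      rw [tendsto_iff_norm_sub_tendsto_zero]
      exact squeeze_zero (fun _ => norm_nonneg _) hcv hη2
    have hyt' : Tendsto y' atTop (𝓝 (u.symm (dl 1))) := by
      rw [tendsto_iff_norm_sub_tendsto_zero]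
      exact squeeze_zero (fun _ => norm_nonneg _) hcv' hη2
    have hmass : ∀ (c : G →₀ ℂ) (z : L2 G) (r : ℝ), ‖z‖ = 1 → ‖∑ g ∈ c.support, c g • (dl g : L2 G) - z‖ ≤ r → r ≤ δ / 2 →
        1 - δ ≤ ∑ g ∈ c.support, ‖c g‖ ^ 2 := by
      intro c z r hz hr hrδ
      set x : L2 G := ∑ g ∈ c.support, c g • (dl g : L2 G) with hx
      have e1 : ‖x‖ ^ 2 = ∑ g ∈ c.support, ‖c g‖ ^ 2 := by
        have e0 : ∑' g, ‖c g‖ ^ 2 = ∑ g ∈ c.support, ‖c g‖ ^ 2 := tsum_eq_sum fun g hg => by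
          rw [Finsupp.notMem_support_iff.1 hg, norm_zero]
          norm_num
        rw [norm_sq_eq, ← e0]
        exact tsum_congr fun g => by rw [hx, fin_apply]
      rw [← e1]
      have e2 : 1 ≤ ‖x‖ + r := by
        calc (1 : ℝ) = ‖z‖ := hz.symm
          _ = ‖x - (x - z)‖ := by rw [sub_sub_cancel]
          _ ≤ ‖x‖ + ‖x - z‖ := norm_sub_le _ _
          _ ≤ ‖x‖ + r := by linarith
      rcases le_or_gt 1 δ with h5 | h5
      · have := sq_nonneg ‖x‖
        linarith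
      · have h6 : 0 ≤ 1 - δ / 2 := by linarith
        have h7 : 1 - δ / 2 ≤ ‖x‖ := by linarith
        nlinarith [sq_nonneg (δ / 2)]
    have hb : ∀ n, ∑ k ∈ T, ‖inner ℂ (lamU k (y' n)) (y n)‖ ^ 2 ≤ ε ^ 2 := by
      intro n
      have h4 := h (c n) (c' n) (hc n) (hc' n)
        (hmass (c n) (v (dl 1)) (η n) (by rw [LinearIsometryEquiv.norm_map, norm_dl]) (hcv n) (hη1 n))
        (hmass (c' n) (u.symm (dl 1)) (η n) (by rw [LinearIsometryEquiv.norm_map, norm_dl]) (hcv' n) (hη1 n)) ?_ ?_ ?_ T ?_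
      · simp only [hy, hy', coef_fin]
        exact h4
      · rw [nc_eq (c n) (one_sub_le hw)]
        have e1 : mulop (fun g => ((1 - w g : ℝ) : ℂ)) (y n) = mulop (fun g => ((1 - w g : ℝ) : ℂ)) (v (dl 1)) +
            mulop (fun g => ((1 - w g : ℝ) : ℂ)) (y n - v (dl 1)) := by rw [← map_add, add_sub_cancel]
        rw [show (∑ g ∈ (c n).support, c n g • (dl g : L2 G)) = y n from rfl, e1]
        have e2 := Pool.Agent.Helper78.BM.norm_mulop_app (f := fun g => ((1 - w g : ℝ) : ℂ)) zero_le_one (one_sub_le hw) (y n - v (dl 1))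
        have e3 := norm_add_le (mulop (fun g => ((1 - w g : ℝ) : ℂ)) (v (dl 1))) (mulop (fun g => ((1 - w g : ℝ) : ℂ)) (y n - v (dl 1)))
        have e4 := hcv n
        have e5 := hη1 n
        linarith
      · rw [nc_eq (c' n) (one_sub_le hw')]
        have e1 : mulop (fun g => ((1 - w' g : ℝ) : ℂ)) (y' n) = mulop (fun g => ((1 - w' g : ℝ) : ℂ)) (u.symm (dl 1)) +
            mulop (fun g => ((1 - w' g : ℝ) : ℂ)) (y' n - u.symm (dl 1)) := by rw [← map_add, add_sub_cancel]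
        rw [show (∑ g ∈ (c' n).support, c' n g • (dl g : L2 G)) = y' n from rfl, e1]
        have e2 := Pool.Agent.Helper78.BM.norm_mulop_app (f := fun g => ((1 - w' g : ℝ) : ℂ)) zero_le_one (one_sub_le hw') (y' n - u.symm (dl 1))
        have e3 := norm_add_le (mulop (fun g => ((1 - w' g : ℝ) : ℂ)) (u.symm (dl 1)))
          (mulop (fun g => ((1 - w' g : ℝ) : ℂ)) (y' n - u.symm (dl 1)))
        have e4 := hcv' n
        have e5 := hη1 n
        rw [norm_conj_inv hu (one_sub_le hw')] at e3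
        linarith
      · rw [nc_ind (c' n)]
        have e1 : ind ℂ Nᶜ (y' n) = ind ℂ Nᶜ (u.symm (dl 1)) + ind ℂ Nᶜ (y' n - u.symm (dl 1)) := by rw [← map_add, add_sub_cancel]
        rw [show (∑ g ∈ (c' n).support, c' n g • (dl g : L2 G)) = y' n from rfl, e1]
        have e2 := norm_ind_le Nᶜ (y' n - u.symm (dl 1))
        have e3 := norm_add_le (ind ℂ Nᶜ (u.symm (dl 1))) (ind ℂ Nᶜ (y' n - u.symm (dl 1)))
        have e4 := hcv' n
        have e5 := hη1 n
        have e6 := norm_ind_inv hu Nᶜ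
        have e7 : {k : G | k⁻¹ ∈ Nᶜ} = {k | k⁻¹ ∉ N} := rfl
        rw [e7] at e6
        rw [e6] at e3
        linarith
      · intro k hk g g' hg hg' hkg
        have h5 := hS g g'⁻¹ hg (by rwa [inv_inv])
        rw [← hkg] at h5
        exact h5 (hT k hk)
    have hlim : Tendsto (fun n => ∑ k ∈ T, ‖inner ℂ (lamU k (y' n)) (y n)‖ ^ 2) atTop
        (𝓝 (∑ k ∈ T, ‖inner ℂ (lamU k (u.symm (dl 1))) (v (dl 1))‖ ^ 2)) := by
      refine tendsto_finsetSum _ fun k _ => ?_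
      refine (Tendsto.norm ?_).pow 2
      exact (((lamU k).continuous.tendsto _).comp hyt').inner hyt
    have h6 := le_of_tendsto' hlim hb
    simpa only [coef hv hu] using h6
  -- the conclusion
  refine (sq_le_sq₀ (norm_nonneg _) hε).1 ?_
  rw [norm_sq_eq]
  refine Real.tsum_le_of_sum_le (fun k => sq_nonneg _) fun T => ?_
  have h4 : ∑ k ∈ T, ‖(ind ℂ S (v (u (dl 1))) : L2 G) k‖ ^ 2 = ∑ k ∈ T.filter (· ∈ S), ‖v (u (dl 1)) k‖ ^ 2 := by
    rw [Finset.sum_filter]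
    refine Finset.sum_congr rfl fun k _ => ?_
    rw [ind_apply]
    split_ifs
    · rfl
    · rw [norm_zero]
      norm_num
  rw [h4]
  exact key _ fun k hk => (Finset.mem_filter.1 hk).2

end Pool.Agent.Helper35.NI
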