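import Pool.Agent.Helper35.NI.Ker3

/-!
# Project FQ (MP_0f6f3f_an), layer NI: specifications of the two cut offs

PROOF. All `gm` have trace `1` (`trace_gm`, `hs_pos`, `hs_transpose`), so by `phw_pt` and `phu_pt`:
`A.w j a b l e g = up b (∑ gm (r j g) a b * (e a * e b)) * dn l (1 - tr (gm (r j g))²) * ∏ i ≠ j, up a (1 - tr (gm (r i g))²)` and
`A.w' j d τ s e h = dn d (1 - ∑ gm (r j h⁻¹)ᵀ a b * (e a * e b)) * ∏ l ≠ j, ch (τ (S h⁻¹ l - s l))` (`log 1 = 0`).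

`w_spec`: `a = exp (-2C) / C0`, `b = κ² / 2`; `w ≠ 0`: `up_ne` gives `a / 2 < 1 - tr ≤ C0 exp (-2 gap)`, so `gap ≤ C₁` for `i ≠ j`; `dn_ne` gives `exp (-2 gap) / C0 ≤ 1 - tr < l`, so `gap j > L₁` for `l ≤ exp (-2 L₁) / C0`;
`∑ gm a b e a e b = ⟪xR, e⟫² + O(n² C0 exp (-gap))` (`nearR`, `|e a| ≤ 1`), and the error is at most `κ² / 8` for `l` small. `w = 1` on `Sv j C κ L₂ e` for `L₂` large: `up_one`, `dn_one`.

`w'_spec`: `1 - ∑ gm a b e a e b < d` implies `tr (gm)² ≥ (1 - d)²` (`⟪T e, e⟫ ≤ ‖T‖_HS`, `‖T‖_HS² = tr T²`, `T` symmetric), `trace_gm_sq`, `lowR`: `gap j ≥ L₁` for `d` small, and then `⟪xL, e⟫² ≥ 1 - d₁`.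

`near_spec`: `‖x xᵀ - e eᵀ‖_HS² = 2 - 2 ⟪x, e⟫²` for unit vectors, `nearL`.
-/

set_option autoImplicit false
set_option linter.unusedSectionVars false
set_option linter.unusedVariables false

open MeasureTheory Filter Topology Matrix
open scoped ComplexConjugate ContDiff

namespace Pool.Agent.Helper35.NI

open Pool.Agent.Helper20.TB

section Quad

variable {m : ℕ}

/-- The quadratic form. -/
private def qf (T : Matrix (Fin m) (Fin m) ℝ) (e : EuclideanSpace ℝ (Fin m)) : ℝ := ∑ a, ∑ b, T a b * (e a * e b)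

private theorem inner_sum_w (x e : EuclideanSpace ℝ (Fin m)) : inner ℝ x e = ∑ a, x a * e a := by
  rw [PiLp.inner_apply]
  refine Finset.sum_congr rfl fun a _ => ?_
  change e a * x a = _
  ring

private theorem inner_sq_w (x e : EuclideanSpace ℝ (Fin m)) : (inner ℝ x e) ^ 2 = ∑ a, ∑ b, (x a * x b) * (e a * e b) := by
  rw [inner_sum_w, sq, Finset.sum_mul_sum]
  exact Finset.sum_congr rfl fun a _ => Finset.sum_congr rfl fun b _ => by ring

private theorem qf_near {T : Matrix (Fin m) (Fin m) ℝ} {x e : EuclideanSpace ℝ (Fin m)} {δ : ℝ} (he : ‖e‖ = 1)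
    (h : ∀ a b, |T a b - x a * x b| ≤ δ) : |qf T e - (inner ℝ x e) ^ 2| ≤ (m : ℝ) ^ 2 * δ := by
  have h1 : qf T e - (inner ℝ x e) ^ 2 = ∑ a, ∑ b, (T a b - x a * x b) * (e a * e b) := by
    rw [inner_sq_w]
    unfold qf
    rw [← Finset.sum_sub_distrib]
    refine Finset.sum_congr rfl fun a _ => ?_
    rw [← Finset.sum_sub_distrib]
    exact Finset.sum_congr rfl fun b _ => by ring
  rw [h1]
  calc |∑ a, ∑ b, (T a b - x a * x b) * (e a * e b)| ≤ ∑ a, ∑ b, |(T a b - x a * x b) * (e a * e b)| :=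
        (Finset.abs_sum_le_sum_abs _ _).trans (Finset.sum_le_sum fun a _ => Finset.abs_sum_le_sum_abs _ _)
    _ ≤ ∑ _a : Fin m, ∑ _b : Fin m, δ := by
        refine Finset.sum_le_sum fun a _ => Finset.sum_le_sum fun b _ => ?_
        rw [abs_mul]
        have h2 := mul_le_mul (h a b) (ND.e_le he a b) (abs_nonneg _) ((abs_nonneg _).trans (h a b))
        rwa [mul_one] at h2
    _ = (m : ℝ) ^ 2 * δ := by
        simp only [Finset.sum_const, Finset.card_univ, Fintype.card_fin, nsmul_eq_mul]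
        ring

private theorem sum_sq_e {e : EuclideanSpace ℝ (Fin m)} (he : ‖e‖ = 1) : ∑ a, e a ^ 2 = 1 := by
  rw [← EuclideanSpace.real_norm_sq_eq, he, one_pow]

private theorem gm_symm (A : Matrix (Fin m) (Fin m) ℝ) (a b : Fin m) : gm A a b = gm A b a := by
  unfold gm
  rw [Matrix.smul_apply, Matrix.smul_apply, Matrix.mul_apply, Matrix.mul_apply]
  congr 1
  refine Finset.sum_congr rfl fun k _ => ?_
  rw [Matrix.transpose_apply, Matrix.transpose_apply]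
  ring

private theorem qf_sq_le (A : Matrix (Fin m) (Fin m) ℝ) {e : EuclideanSpace ℝ (Fin m)} (he : ‖e‖ = 1) :
    qf (gm A) e ^ 2 ≤ (gm A * gm A).trace := by
  have h1 : (gm A * gm A).trace = ∑ p : Fin m × Fin m, gm A p.1 p.2 ^ 2 := by
    rw [Fintype.sum_prod_type]
    unfold Matrix.trace
    refine Finset.sum_congr rfl fun a _ => ?_
    rw [Matrix.diag_apply, Matrix.mul_apply]
    refine Finset.sum_congr rfl fun b _ => ?_
    rw [gm_symm A b a]
    ring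
  have h2 : qf (gm A) e = ∑ p : Fin m × Fin m, gm A p.1 p.2 * (e p.1 * e p.2) := by
    rw [Fintype.sum_prod_type]
    rfl
  have h3 : ∑ p : Fin m × Fin m, (e p.1 * e p.2) ^ 2 = 1 := by
    rw [Fintype.sum_prod_type]
    have h4 : ∑ a, ∑ b, (e a * e b) ^ 2 = (∑ a, e a ^ 2) * ∑ b, e b ^ 2 := by
      rw [Finset.sum_mul_sum]
      exact Finset.sum_congr rfl fun a _ => Finset.sum_congr rfl fun b _ => by ring
    change ∑ a, ∑ b, (e a * e b) ^ 2 = 1
    rw [h4, sum_sq_e he, one_mul]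
  rw [h1, h2]
  have h5 := Finset.sum_mul_sq_le_sq_mul_sq Finset.univ (fun p : Fin m × Fin m => gm A p.1 p.2) fun p => e p.1 * e p.2
  rwa [h3, mul_one] at h5

private theorem rank_one_sub {x e : EuclideanSpace ℝ (Fin m)} (hx : ‖x‖ = 1) (he : ‖e‖ = 1) (a b : Fin m) :
    (x a * x b - e a * e b) ^ 2 ≤ 2 - 2 * (inner ℝ x e) ^ 2 := by
  have h1 : ∑ a, ∑ b, (x a * x b - e a * e b) ^ 2 = 2 - 2 * (inner ℝ x e) ^ 2 := by
    have h2 : ∑ a, ∑ b, (x a * x b - e a * e b) ^ 2 =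
        (∑ a, x a ^ 2) * (∑ b, x b ^ 2) - 2 * (∑ a, ∑ b, (x a * x b) * (e a * e b)) + (∑ a, e a ^ 2) * ∑ b, e b ^ 2 := by
      rw [Finset.sum_mul_sum, Finset.sum_mul_sum, Finset.mul_sum, ← Finset.sum_sub_distrib, ← Finset.sum_add_distrib]
      refine Finset.sum_congr rfl fun a _ => ?_
      rw [Finset.mul_sum, ← Finset.sum_sub_distrib, ← Finset.sum_add_distrib]
      exact Finset.sum_congr rfl fun b _ => by ring
    rw [h2, ← inner_sq_w, sum_sq_e hx, sum_sq_e he]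
    ring
  rw [← h1]
  calc (x a * x b - e a * e b) ^ 2 ≤ ∑ b, (x a * x b - e a * e b) ^ 2 :=
        Finset.single_le_sum (f := fun b => (x a * x b - e a * e b) ^ 2) (fun _ _ => sq_nonneg _) (Finset.mem_univ b)
    _ ≤ _ := Finset.single_le_sum (f := fun a => ∑ b, (x a * x b - e a * e b) ^ 2)
        (fun _ _ => Finset.sum_nonneg fun _ _ => sq_nonneg _) (Finset.mem_univ a)

/-- Small exponentials. -/
private theorem exists_exp (c : ℝ) {δ : ℝ} (hδ : 0 < δ) : ∃ L : ℝ, ∀ t, L ≤ t → c * Real.exp (-t) ≤ δ := by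
  have h1 : Tendsto (fun t : ℝ => c * Real.exp (-t)) atTop (𝓝 0) := by
    have := (Real.tendsto_exp_neg_atTop_nhds_zero).const_mul c
    rwa [mul_zero] at this
  have h2 := h1.eventually (Iio_mem_nhds hδ)
  rw [eventually_atTop] at h2
  obtain ⟨L, hL⟩ := h2
  exact ⟨L, fun t ht => (hL t ht).le⟩

end Quad

namespace ND

variable {G : Type} [Group G] {I : Type} [Fintype I] (A : ND G I)

open Classical in
private theorem w_eq (j : I) (a b l : ℝ) (e : EuclideanSpace ℝ (Fin (A.n j))) (g : G) : A.w j a b l e g =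
    up b (qf (gm (A.r j g)) e) * dn l (1 - (gm (A.r j g) * gm (A.r j g)).trace) *
      ∏ i ∈ Finset.univ.erase j, up a (1 - (gm (A.r i g) * gm (A.r i g)).trace) := by
  unfold w
  rw [phw_pt]
  simp only [trace_gm (A.hs_pos _ _), div_one, one_pow]
  rfl

open Classical in
private theorem w'_eq (j : I) (d τ : ℝ) (s : I → ℝ) (e : EuclideanSpace ℝ (Fin (A.n j))) (h : G) : A.w' j d τ s e h =
    dn d (1 - qf (gm (A.r j h⁻¹)ᵀ) e) * ∏ l ∈ Finset.univ.erase j, ch (τ * (A.S h⁻¹ l - s l)) := by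
  unfold w'
  rw [phu_pt]
  have h1 : ∀ i, (gm (A.r i h⁻¹)ᵀ).trace = 1 := fun i => trace_gm (by rw [hs_transpose]; exact A.hs_pos i _)
  simp only [h1, div_one, Real.log_one, mul_zero, Finset.sum_const_zero, add_zero]
  congr 1
  refine Finset.prod_congr rfl fun l hl => ?_
  rw [Sum.elim_inl, if_neg (Finset.ne_of_mem_erase hl)]

private theorem prod_ne {I : Type} {s : Finset I} {f : I → ℝ} (h : ∏ i ∈ s, f i ≠ 0) (i : I) (hi : i ∈ s) : f i ≠ 0 :=
  Finset.prod_ne_zero_iff.1 h i hi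

private theorem exp_two (t : ℝ) : Real.exp (-(2 * t)) = Real.exp (-t) ^ 2 := by
  rw [sq, ← Real.exp_add]
  congr 1
  ring

theorem w_spec (j : I) {C κ : ℝ} (hC : 0 ≤ C) (hκ : 0 < κ) : ∃ C₁ κ₁ a b : ℝ, 0 ≤ C₁ ∧ 0 < κ₁ ∧ 0 < a ∧ 0 < b ∧ ∀ L₁ : ℝ, ∃ l L₂ : ℝ, 0 < l ∧
    ∀ e : EuclideanSpace ℝ (Fin (A.n j)), ‖e‖ = 1 →
      (∀ g, A.w j a b l e g ≠ 0 → g ∈ A.Sv j C₁ κ₁ L₁ e) ∧ ∀ L₃, L₂ ≤ L₃ → ∀ g ∈ A.Sv j C κ L₃ e, A.w j a b l e g = 1 := by
  classical
  have hC0 : 0 < A.C0 := lt_of_lt_of_le one_pos A.one_le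
  have ha : 0 < Real.exp (-(2 * C)) / A.C0 := by positivity
  have hb : 0 < κ ^ 2 / 2 := by positivity
  have hlog : 0 ≤ Real.log (2 * A.C0 ^ 2) := by
    refine Real.log_nonneg ?_
    have := A.one_le
    nlinarith
  refine ⟨C + Real.log (2 * A.C0 ^ 2) / 2, κ / 3, Real.exp (-(2 * C)) / A.C0, κ ^ 2 / 2, by positivity, by positivity, ha, hb, fun L₁ => ?_⟩
  set n2 : ℝ := (A.n j : ℝ) ^ 2 with hn2
  obtain ⟨La, hLa⟩ := exists_exp (n2 * A.C0) (δ := κ ^ 2 / 8) (by positivity)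
  set L' : ℝ := max L₁ La with hL'
  set l : ℝ := Real.exp (-(2 * L')) / A.C0 with hl
  have hl0 : 0 < l := by positivity
  obtain ⟨Lb, hLb⟩ := exists_exp A.C0 (δ := l / 2) (by positivity)
  obtain ⟨Lc, hLc⟩ := exists_exp (n2 * A.C0) (δ := κ ^ 2 / 2) (by positivity)
  refine ⟨l, max (max Lb Lc) 0, hl0, fun e he => ⟨fun g hg => ?_, fun L₃ hL₃ g hg => ?_⟩⟩
  · rw [w_eq] at hg
    have hg1 := left_ne_zero_of_mul hg
    have hgi := prod_ne (right_ne_zero_of_mul hg)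
    have hq := up_ne hb (left_ne_zero_of_mul hg1)
    have ht := dn_ne hl0 (right_ne_zero_of_mul hg1)
    have h1 : L' < A.gap g j := by
      have h2 := A.lowR j g
      have h3 : Real.exp (-(2 * A.gap g j)) < Real.exp (-(2 * L')) := by
        calc Real.exp (-(2 * A.gap g j)) ≤ A.C0 * (1 - (gm (A.r j g) * gm (A.r j g)).trace) := h2
          _ < A.C0 * l := by gcongr
          _ = Real.exp (-(2 * L')) := by rw [hl]; field_simp
      have h4 := Real.exp_lt_exp.1 h3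
      linarith
    refine ⟨fun i hi => ?_, (le_max_left _ _).trans h1.le, ?_⟩
    · have h2 := up_ne ha (hgi i (Finset.mem_erase.2 ⟨hi, Finset.mem_univ i⟩))
      have h3 := A.upR i g
      have h4 : Real.exp (-(2 * C)) / (2 * A.C0 ^ 2) < Real.exp (-(2 * A.gap g i)) := by
        have h5 : Real.exp (-(2 * C)) / A.C0 / 2 < A.C0 * Real.exp (-(2 * A.gap g i)) := lt_of_lt_of_le h2 h3
        have h6 : Real.exp (-(2 * C)) / (2 * A.C0 ^ 2) = Real.exp (-(2 * C)) / A.C0 / 2 / A.C0 := by field_simp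
        rw [h6, div_lt_iff₀ hC0]
        linarith
      have h5 : Real.exp (-(2 * C)) / (2 * A.C0 ^ 2) = Real.exp (-(2 * C) - Real.log (2 * A.C0 ^ 2)) := by
        rw [Real.exp_sub, Real.exp_log (by positivity)]
      rw [h5] at h4
      have h6 := Real.exp_lt_exp.1 h4
      linarith
    · have h2 := qf_near he (A.nearR j g)
      have h3 := hLa (A.gap g j) ((le_max_right _ _).trans h1.le)
      have h4 : (A.n j : ℝ) ^ 2 * (A.C0 * Real.exp (-A.gap g j)) = n2 * A.C0 * Real.exp (-A.gap g j) := by rw [hn2]; ring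
      rw [h4] at h2
      have h5 := (abs_le.1 (h2.trans h3)).2
      have h6 : (κ / 3) ^ 2 ≤ (inner ℝ (A.xR j g) e) ^ 2 := by nlinarith [sq_nonneg κ]
      have h7 := Real.abs_le_sqrt (le_of_eq (rfl : (inner ℝ (A.xR j g) e) ^ 2 = (inner ℝ (A.xR j g) e) ^ 2))
      by_contra h8
      push Not at h8
      have h9 : |inner ℝ (A.xR j g) e| ^ 2 < (κ / 3) ^ 2 := by
        have := abs_nonneg (inner ℝ (A.xR j g) e)
        nlinarith
      rw [sq_abs] at h9
      linarith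
  · obtain ⟨h1, h2, h3⟩ := hg
    rw [w_eq]
    have h4 : A.gap g j ≥ max (max Lb Lc) 0 := hL₃.trans h2
    have h40 : 0 ≤ A.gap g j := (le_max_right _ _).trans h4
    have e1 : up (κ ^ 2 / 2) (qf (gm (A.r j g)) e) = 1 := by
      refine up_one hb ?_
      have h5 := qf_near he (A.nearR j g)
      have h6 := hLc (A.gap g j) ((le_max_right _ _).trans ((le_max_left _ _).trans h4))
      have h7 : (A.n j : ℝ) ^ 2 * (A.C0 * Real.exp (-A.gap g j)) = n2 * A.C0 * Real.exp (-A.gap g j) := by rw [hn2]; ring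
      rw [h7] at h5
      have h8 := (abs_le.1 (h5.trans h6)).1
      have h9 : κ ^ 2 ≤ (inner ℝ (A.xR j g) e) ^ 2 := by
        rw [← sq_abs (inner ℝ (A.xR j g) e)]
        gcongr
      linarith
    have e2 : dn l (1 - (gm (A.r j g) * gm (A.r j g)).trace) = 1 := by
      refine dn_one hl0 ?_
      refine (A.upR j g).trans ?_
      have h5 := hLb (2 * A.gap g j) (by
        have := (le_max_left _ _).trans ((le_max_left _ _).trans h4)
        linarith)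
      exact h5
    have e3 : ∏ i ∈ Finset.univ.erase j, up (Real.exp (-(2 * C)) / A.C0) (1 - (gm (A.r i g) * gm (A.r i g)).trace) = 1 := by
      refine Finset.prod_eq_one fun i hi => up_one ha ?_
      rw [div_le_iff₀ hC0]
      have h5 := A.lowR i g
      have h6 : Real.exp (-(2 * C)) ≤ Real.exp (-(2 * A.gap g i)) := Real.exp_le_exp.2 (by
        have := h1 i (Finset.ne_of_mem_erase hi)
        linarith)
      linarith
    rw [e1, e2, e3, one_mul, one_mul]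

theorem w'_spec (j : I) {d₁ : ℝ} (hd₁ : 0 < d₁) (L₁ : ℝ) : ∃ d d₂ L₂ : ℝ, 0 < d ∧ 0 < d₂ ∧
    ∀ e : EuclideanSpace ℝ (Fin (A.n j)), ‖e‖ = 1 → ∀ τ : ℝ, ∀ s : I → ℝ,
      (∀ h, A.w' j d τ s e h ≠ 0 → h⁻¹ ∈ A.Su j L₁ d₁ e ∧ ∀ i, i ≠ j → |τ * (A.S h⁻¹ i - s i)| ≤ 2) ∧
      ∀ h L₃ d₃, L₂ ≤ L₃ → d₃ ≤ d₂ → h⁻¹ ∈ A.Su j L₃ d₃ e → (∀ i, i ≠ j → |τ * (A.S h⁻¹ i - s i)| ≤ 1) → A.w' j d τ s e h = 1 := by
  classical
  have hC0 : 0 < A.C0 := lt_of_lt_of_le one_pos A.one_le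
  set n2 : ℝ := (A.n j : ℝ) ^ 2 with hn2
  obtain ⟨La, hLa⟩ := exists_exp (n2 * A.C0) (δ := d₁ / 2) (by positivity)
  set L' : ℝ := max L₁ La with hL'
  set d : ℝ := min (min 1 (d₁ / 2)) (Real.exp (-(2 * L')) / (4 * A.C0)) with hd
  have hd0 : 0 < d := lt_min (lt_min one_pos (by positivity)) (by positivity)
  have hd1 : d ≤ 1 := (min_le_left _ _).trans (min_le_left _ _)
  have hd2 : d ≤ d₁ / 2 := (min_le_left _ _).trans (min_le_right _ _)
  have hd3 : d * (4 * A.C0) ≤ Real.exp (-(2 * L')) := by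
    have h1 : d ≤ Real.exp (-(2 * L')) / (4 * A.C0) := min_le_right _ _
    rwa [le_div_iff₀ (by positivity)] at h1
  obtain ⟨Lb, hLb⟩ := exists_exp (n2 * A.C0) (δ := d / 4) (by positivity)
  refine ⟨d, d / 4, Lb, hd0, by positivity, fun e he τ s => ⟨fun h hh => ?_, fun h L₃ d₃ hL₃ hd₃ hk hs => ?_⟩⟩
  · rw [w'_eq] at hh
    have hq := dn_ne hd0 (left_ne_zero_of_mul hh)
    have hi := prod_ne (right_ne_zero_of_mul hh)
    have h1 := qf_sq_le (A.r j h⁻¹)ᵀ he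
    rw [trace_gm_sq] at h1
    have h2 : 1 - (gm (A.r j h⁻¹) * gm (A.r j h⁻¹)).trace ≤ 2 * d := by nlinarith
    have h3 : L' ≤ A.gap h⁻¹ j := by
      have h4 := A.lowR j h⁻¹
      have h5 : Real.exp (-(2 * A.gap h⁻¹ j)) ≤ Real.exp (-(2 * L')) := by
        calc Real.exp (-(2 * A.gap h⁻¹ j)) ≤ A.C0 * (1 - (gm (A.r j h⁻¹) * gm (A.r j h⁻¹)).trace) := h4
          _ ≤ A.C0 * (2 * d) := by gcongr
          _ ≤ d * (4 * A.C0) := by nlinarith
          _ ≤ _ := hd3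
      have h6 := Real.exp_le_exp.1 h5
      linarith
    refine ⟨⟨(le_max_left _ _).trans h3, ?_⟩, fun i hij => (ch_ne (hi i (Finset.mem_erase.2 ⟨hij, Finset.mem_univ i⟩))).le⟩
    have h4 := qf_near he (A.nearL j h⁻¹)
    have h5 := hLa (A.gap h⁻¹ j) ((le_max_right _ _).trans h3)
    have h6 : (A.n j : ℝ) ^ 2 * (A.C0 * Real.exp (-A.gap h⁻¹ j)) = n2 * A.C0 * Real.exp (-A.gap h⁻¹ j) := by rw [hn2]; ring
    rw [h6] at h4
    have h7 := (abs_le.1 (h4.trans h5)).2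
    linarith
  · obtain ⟨h1, h2⟩ := hk
    rw [w'_eq]
    have e1 : dn d (1 - qf (gm (A.r j h⁻¹)ᵀ) e) = 1 := by
      refine dn_one hd0 ?_
      have h4 := qf_near he (A.nearL j h⁻¹)
      have h5 := hLb (A.gap h⁻¹ j) (hL₃.trans h1)
      have h6 : (A.n j : ℝ) ^ 2 * (A.C0 * Real.exp (-A.gap h⁻¹ j)) = n2 * A.C0 * Real.exp (-A.gap h⁻¹ j) := by rw [hn2]; ring
      rw [h6] at h4
      have h7 := (abs_le.1 (h4.trans h5)).1
      linarith
    rw [e1, one_mul]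
    exact Finset.prod_eq_one fun i hi => ch_one (hs i (Finset.ne_of_mem_erase hi))

theorem near_spec (j : I) {η : ℝ} (hη : 0 < η) : ∃ d L : ℝ, 0 < d ∧ ∀ e : EuclideanSpace ℝ (Fin (A.n j)), ‖e‖ = 1 → ∀ L₃ d₃, L ≤ L₃ → d₃ ≤ d →
    ∀ k ∈ A.Su j L₃ d₃ e, ∀ a b, |gm (A.r j k)ᵀ a b - P1 e a b| ≤ η := by
  obtain ⟨L, hL⟩ := exists_exp A.C0 (δ := η / 2) (by positivity)
  refine ⟨η ^ 2 / 8, L, by positivity, fun e he L₃ d₃ hL₃ hd₃ k hk a b => ?_⟩
  obtain ⟨h1, h2⟩ := hk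
  have h3 := (A.nearL j k a b).trans (hL (A.gap k j) (hL₃.trans h1))
  have h4 := rank_one_sub (A.uL j k) he a b
  have h5 : |A.xL j k a * A.xL j k b - e a * e b| ≤ η / 2 := by
    refine abs_le_of_sq_le_sq ?_ (by positivity)
    nlinarith
  have h6 : gm (A.r j k)ᵀ a b - P1 e a b = (gm (A.r j k)ᵀ a b - A.xL j k a * A.xL j k b) + (A.xL j k a * A.xL j k b - e a * e b) := by
    change gm (A.r j k)ᵀ a b - e a * e b = _
    ring
  rw [h6]
  refine (abs_add_le _ _).trans ?_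
  linarith

end ND

end Pool.Agent.Helper35.NI
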